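import Mathlib

/-!
# Definitions used in the statement of the main theorem of MP_364ede_al
-/

set_option autoImplicit false

namespace Pool.Agent.FGRF

universe u

open scoped commutatorElement

/-! ### laws -/

/-- `Sat L G`: the group `G` satisfies all the laws in `L`, that is, `G` lies in the variety
defined by `L`. -/
def Sat (L : Set (FreeGroup ℕ)) (G : Type u) [Group G] : Prop :=
  ∀ w ∈ L, ∀ f : ℕ → G, FreeGroup.lift f w = 1

/-- The `n`-fold Engel commutator `[tⁿ, [tⁿ, …, [tⁿ, y] … ]]`. -/
def eng {G : Type*} [Group G] (n : ℕ) (t y : G) : G := (fun z => ⁅t ^ n, z⁆)^[n] y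

/-- Law (A): `[x, [tⁿ, [tⁿ, …, [tⁿ, y] … ]]] = 1` for `x, y ∈ G'`. -/
def LawA (n : ℕ) (G : Type u) [Group G] : Prop :=
  ∀ t : G, ∀ x ∈ derivedSeries G 1, ∀ y ∈ derivedSeries G 1, ⁅x, eng n t y⁆ = 1

/-- Law (B): `[c₁, [c₂, …, [c_n, u] … ]] = 1` for `u ∈ G''` and `c_i = [tⁿ, [tⁿ, …, [tⁿ, y_i] … ]]`,
`y_i ∈ G'`. -/
def LawB (n : ℕ) (G : Type u) [Group G] : Prop :=
  ∀ t : G, ∀ u ∈ derivedSeries G 2, ∀ ys : List G, (∀ y ∈ ys, y ∈ derivedSeries G 1) →
    ys.length = n → ys.foldr (fun y u => ⁅eng n t y, u⁆) u = 1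

/-! ### the groups `X p` -/

variable {p : ℕ}

/-- The shift `(shift k a) i = a (i - k)` of finitely supported sequences. -/
noncomputable def shift (k : ℤ) (a : ℤ →₀ ZMod p) : ℤ →₀ ZMod p :=
  a.equivMapDomain (Equiv.addRight k)

/-- The pairing `∑ i, b i * a i`. -/
def pair (b a : ℤ →₀ ZMod p) : ZMod p := b.sum fun i r => r * a i

theorem shift_apply (k : ℤ) (a : ℤ →₀ ZMod p) (i : ℤ) : shift k a i = a (i - k) := by
  simp [shift, sub_eq_add_neg]

@[simp] theorem shift_zero (a : ℤ →₀ ZMod p) : shift 0 a = a := by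
  ext i; simp [shift_apply]

@[simp] theorem shift_zero_right (k : ℤ) : shift k (0 : ℤ →₀ ZMod p) = 0 := by
  ext i; simp [shift_apply]

theorem shift_add (k : ℤ) (a a' : ℤ →₀ ZMod p) : shift k (a + a') = shift k a + shift k a' := by
  ext i; simp [shift_apply]

theorem shift_neg (k : ℤ) (a : ℤ →₀ ZMod p) : shift k (-a) = -shift k a := by
  ext i; simp [shift_apply]

theorem shift_shift (k l : ℤ) (a : ℤ →₀ ZMod p) : shift k (shift l a) = shift (k + l) a := by
  ext i
  simp only [shift_apply]
  congr 1
  ring

theorem shift_single (k i : ℤ) (r : ZMod p) :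
    shift k (Finsupp.single i r) = Finsupp.single (i + k) r := by
  simp [shift]

@[simp] theorem pair_zero_left (a : ℤ →₀ ZMod p) : pair 0 a = 0 := by simp [pair]

@[simp] theorem pair_zero_right (b : ℤ →₀ ZMod p) : pair b 0 = 0 := by simp [pair]

theorem pair_add_left (b b' a : ℤ →₀ ZMod p) : pair (b + b') a = pair b a + pair b' a := by
  unfold pair
  exact Finsupp.sum_add_index' (by simp) (by intro i r s; ring)

theorem pair_add_right (b a a' : ℤ →₀ ZMod p) : pair b (a + a') = pair b a + pair b a' := by
  unfold pair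
  rw [← Finsupp.sum_add]
  refine Finsupp.sum_congr fun i _ => ?_
  rw [Finsupp.add_apply, mul_add]

theorem pair_neg_left (b a : ℤ →₀ ZMod p) : pair (-b) a = -pair b a := by
  have := pair_add_left b (-b) a
  rw [add_neg_cancel, pair_zero_left] at this
  exact (neg_eq_of_add_eq_zero_right this.symm).symm

theorem pair_neg_right (b a : ℤ →₀ ZMod p) : pair b (-a) = -pair b a := by
  have := pair_add_right b a (-a)
  rw [add_neg_cancel, pair_zero_right] at this
  exact (neg_eq_of_add_eq_zero_right this.symm).symm

theorem pair_shift (k : ℤ) (b a : ℤ →₀ ZMod p) : pair (shift k b) (shift k a) = pair b a := by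
  unfold pair
  rw [shift, Finsupp.sum_equivMapDomain]
  refine Finsupp.sum_congr fun i _ => ?_
  rw [shift_apply]
  simp

theorem pair_single_left (i : ℤ) (r : ZMod p) (a : ℤ →₀ ZMod p) :
    pair (Finsupp.single i r) a = r * a i := by
  unfold pair
  rw [Finsupp.sum_single_index (by simp)]

variable (p) in
/-- The group `X_p = (D × B × C) ⋊ ℤ`: here `D = B = 𝔽_p^(ℤ)` (finitely supported sequences) and
`C = 𝔽_p` is central, `[b, a] = ∑ i, b i * a i ∈ C` for `b ∈ B`, `a ∈ D`, and the generator of
`ℤ` shifts the sequences.  For `p` prime the subgroup `k = 0` is an extraspecial `p`-group of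
infinite rank (of exponent `4` for `p = 2`), with the shift automorphism. -/
@[ext]
structure X where
  /-- the component in `ℤ` -/
  k : ℤ
  /-- the component in `D` -/
  a : ℤ →₀ ZMod p
  /-- the component in `B` -/
  b : ℤ →₀ ZMod p
  /-- the component in `C` -/
  c : ZMod p

namespace X

noncomputable instance : Mul (X p) :=
  ⟨fun x y => ⟨x.k + y.k, x.a + shift x.k y.a, x.b + shift x.k y.b,
    x.c + y.c + pair x.b (shift x.k y.a)⟩⟩

noncomputable instance : One (X p) := ⟨⟨0, 0, 0, 0⟩⟩

noncomputable instance : Inv (X p) :=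
  ⟨fun x => ⟨-x.k, -shift (-x.k) x.a, -shift (-x.k) x.b, -x.c + pair x.b x.a⟩⟩

@[simp] theorem mul_k (x y : X p) : (x * y).k = x.k + y.k := rfl
@[simp] theorem mul_a (x y : X p) : (x * y).a = x.a + shift x.k y.a := rfl
@[simp] theorem mul_b (x y : X p) : (x * y).b = x.b + shift x.k y.b := rfl
@[simp] theorem mul_c (x y : X p) : (x * y).c = x.c + y.c + pair x.b (shift x.k y.a) := rfl
@[simp] theorem one_k : (1 : X p).k = 0 := rfl
@[simp] theorem one_a : (1 : X p).a = 0 := rfl
@[simp] theorem one_b : (1 : X p).b = 0 := rfl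
@[simp] theorem one_c : (1 : X p).c = 0 := rfl
@[simp] theorem inv_k (x : X p) : x⁻¹.k = -x.k := rfl
@[simp] theorem inv_a (x : X p) : x⁻¹.a = -shift (-x.k) x.a := rfl
@[simp] theorem inv_b (x : X p) : x⁻¹.b = -shift (-x.k) x.b := rfl
@[simp] theorem inv_c (x : X p) : x⁻¹.c = -x.c + pair x.b x.a := rfl

noncomputable instance : Group (X p) where
  mul_assoc x y z := by
    refine X.ext ?_ ?_ ?_ ?_
    · simp [add_assoc]
    · simp [shift_add, shift_shift, add_assoc]
    · simp [shift_add, shift_shift, add_assoc]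
    · simp only [mul_c, mul_b, mul_k, mul_a, shift_add, pair_add_left, pair_add_right]
      have h : pair (shift x.k y.b) (shift (x.k + y.k) z.a) = pair y.b (shift y.k z.a) := by
        rw [← shift_shift, pair_shift]
      rw [h, shift_shift]
      ring
  one_mul x := by
    refine X.ext ?_ ?_ ?_ ?_ <;> simp
  mul_one x := by
    refine X.ext ?_ ?_ ?_ ?_ <;> simp
  inv_mul_cancel x := by
    refine X.ext ?_ ?_ ?_ ?_
    · simp
    · simp
    · simp
    · simp only [mul_c, inv_c, inv_b, inv_k, pair_neg_left, pair_shift, one_c]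
      ring

end X

/-! ### the groups `S p q` -/

open RegularWreathProduct in
/-- The restricted wreath product `A ≀ ℤ`: the elements of the (unrestricted) regular wreath product
of `A` and the infinite cyclic group whose component `ℤ → A` has finite support. -/
def RWr (A : Type*) [Group A] : Subgroup (A ≀ᵣ (Multiplicative ℤ)) where
  carrier := {x | (Function.mulSupport x.left).Finite}
  one_mem' := by simp
  mul_mem' := by
    intro x y hx hy
    have hx : (Function.mulSupport x.left).Finite := hx
    have hy : (Function.mulSupport y.left).Finite := hy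
    show (Function.mulSupport (x * y).left).Finite
    rw [mul_left]
    refine (hx.union (hy.preimage (f := fun z => x.right⁻¹ * z)
      (mul_right_injective x.right⁻¹).injOn)).subset ?_
    intro z hz
    rw [Function.mem_mulSupport, Pi.mul_apply] at hz
    by_contra hcon
    apply hz
    simp only [Set.mem_union, Function.mem_mulSupport, Set.mem_preimage, not_or, not_not] at hcon
    rw [hcon.1, hcon.2, one_mul]
  inv_mem' := by
    intro x hx
    have hx : (Function.mulSupport x.left).Finite := hx
    show (Function.mulSupport x⁻¹.left).Finite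
    rw [inv_left]
    refine (hx.preimage (f := fun z => x.right * z) (mul_right_injective x.right).injOn).subset ?_
    intro z hz
    rw [Function.mem_mulSupport] at hz
    by_contra hcon
    apply hz
    simp only [Function.mem_mulSupport, Set.mem_preimage, not_not] at hcon
    rw [Pi.inv_apply, hcon, inv_one]

/-- The group `S_{p,q} = (C_q ≀ C_p) ≀ ℤ`: the restricted wreath product with `ℤ` of the wreath
product of the cyclic groups of orders `q` and `p`. -/
abbrev S (p q : ℕ) : Type :=
  RWr ((Multiplicative (ZMod q)) ≀ᵣ (Multiplicative (ZMod p)))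

end Pool.Agent.FGRF
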