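import Mathlib
import Pool.Agent.Lib_helper35.FGRF.Defs

/-!
# Laws, verbal subgroups, split extensions of modules
-/

set_option autoImplicit false

namespace Pool.Agent.FGRF

universe u v w

section Sat

variable {L : Set (FreeGroup ℕ)} {G : Type u} [Group G] {H : Type v} [Group H]

theorem lift_comp (φ : G →* H) (f : ℕ → G) (w : FreeGroup ℕ) :
    FreeGroup.lift (fun n => φ (f n)) w = φ (FreeGroup.lift f w) := by
  have h : FreeGroup.lift (fun n => φ (f n)) = φ.comp (FreeGroup.lift f) := by
    ext n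
    simp
  rw [h]
  rfl

theorem Sat.of_injective (φ : G →* H) (hφ : Function.Injective φ) (h : Sat L H) : Sat L G := by
  intro w hw f
  apply hφ
  rw [← lift_comp, h w hw, map_one]

theorem Sat.of_surjective (φ : G →* H) (hφ : Function.Surjective φ) (h : Sat L G) : Sat L H := by
  intro w hw f
  choose g hg using hφ
  have : f = fun n => φ (g (f n)) := by
    funext n
    rw [hg]
  rw [this, lift_comp, h w hw, map_one]

theorem Sat.subgroup (h : Sat L G) (K : Subgroup G) : Sat L K :=
  h.of_injective K.subtype K.subtype_injective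

theorem Sat.quotient (h : Sat L G) (K : Subgroup G) [K.Normal] : Sat L (G ⧸ K) :=
  h.of_surjective (QuotientGroup.mk' K) (QuotientGroup.mk'_surjective K)

theorem Sat.pi {ι : Type w} {G : ι → Type v} [∀ i, Group (G i)] (h : ∀ i, Sat L (G i)) :
    Sat L (∀ i, G i) := by
  intro w hw f
  funext i
  have := h i w hw (fun n => f n i)
  rw [Pi.one_apply, ← this]
  exact (lift_comp (Pi.evalMonoidHom G i) f w).symm

theorem Sat.prod (hG : Sat L G) (hH : Sat L H) : Sat L (G × H) := by
  intro w hw f
  refine Prod.ext ?_ ?_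
  · have := hG w hw (fun n => (f n).1)
    rw [Prod.fst_one, ← this]
    exact (lift_comp (MonoidHom.fst G H) f w).symm
  · have := hH w hw (fun n => (f n).2)
    rw [Prod.snd_one, ← this]
    exact (lift_comp (MonoidHom.snd G H) f w).symm

variable (L G) in
/-- The verbal subgroup. -/
def verbal : Subgroup G :=
  Subgroup.closure {x | ∃ w ∈ L, ∃ f : ℕ → G, x = FreeGroup.lift f w}

theorem verbal_map (φ : G →* H) {x : G} (hx : x ∈ verbal L G) : φ x ∈ verbal L H := by
  have h : verbal L G ≤ (verbal L H).comap φ := by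
    rw [verbal, Subgroup.closure_le]
    rintro _ ⟨w, hw, f, rfl⟩
    exact Subgroup.subset_closure ⟨w, hw, fun n => φ (f n), (lift_comp φ f w).symm⟩
  exact h hx

theorem verbal_eq_bot (h : Sat L G) : verbal L G = ⊥ := by
  rw [eq_bot_iff, verbal, Subgroup.closure_le]
  rintro _ ⟨w, hw, f, rfl⟩
  exact Subgroup.mem_bot.2 (h w hw f)

theorem map_verbal_eq_one (h : Sat L H) (φ : G →* H) {x : G} (hx : x ∈ verbal L G) : φ x = 1 := by
  have := verbal_map φ hx
  rwa [verbal_eq_bot h, Subgroup.mem_bot] at this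

theorem Sat.of_verbal_le (φ : G →* H) (hφ : Function.Surjective φ)
    (h : ∀ x ∈ verbal L G, φ x = 1) : Sat L H := by
  intro w hw f
  choose g hg using hφ
  have h1 : f = fun n => φ (g (f n)) := by
    funext n
    rw [hg]
  rw [h1, lift_comp]
  exact h _ (Subgroup.subset_closure ⟨w, hw, _, rfl⟩)

instance verbal_normal : (verbal L G).Normal where
  conj_mem x hx g := verbal_map (MulAut.conj g).toMonoidHom hx

theorem verbal_comm_left {x : G} (hx : x ∈ verbal L G) (y : G) :
    x * y * x⁻¹ * y⁻¹ ∈ verbal L G := by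
  have h := mul_mem hx (inv_mem (verbal_normal.conj_mem x hx y))
  convert h using 1
  group

theorem verbal_comm_right {x : G} (hx : x ∈ verbal L G) (y : G) :
    y * x * y⁻¹ * x⁻¹ ∈ verbal L G :=
  mul_mem (verbal_normal.conj_mem x hx y) (inv_mem hx)

end Sat

/-! ### Split extensions -/

/-- The split extension of the additive group `M` by the group `Γ`, which acts on `M`. -/
@[ext]
structure SD (M : Type u) (Γ : Type v) where
  m : M
  g : Γ

namespace SD

variable {M : Type u} {Γ : Type v} [AddCommGroup M] [Group Γ] [DistribMulAction Γ M]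

instance : Mul (SD M Γ) := ⟨fun x y => ⟨x.m + x.g • y.m, x.g * y.g⟩⟩
instance : One (SD M Γ) := ⟨⟨0, 1⟩⟩
instance : Inv (SD M Γ) := ⟨fun x => ⟨-(x.g⁻¹ • x.m), x.g⁻¹⟩⟩

@[simp] theorem mul_m (x y : SD M Γ) : (x * y).m = x.m + x.g • y.m := rfl
@[simp] theorem mul_g (x y : SD M Γ) : (x * y).g = x.g * y.g := rfl
@[simp] theorem one_m : (1 : SD M Γ).m = 0 := rfl
@[simp] theorem one_g : (1 : SD M Γ).g = 1 := rfl
@[simp] theorem inv_m (x : SD M Γ) : x⁻¹.m = -(x.g⁻¹ • x.m) := rfl
@[simp] theorem inv_g (x : SD M Γ) : x⁻¹.g = x.g⁻¹ := rfl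

instance : Group (SD M Γ) where
  mul_assoc x y z := by ext <;> simp [mul_assoc, add_assoc, mul_smul]
  one_mul x := by ext <;> simp
  mul_one x := by ext <;> simp
  inv_mul_cancel x := by ext <;> simp

/-- the projection -/
def projg : SD M Γ →* Γ where
  toFun x := x.g
  map_one' := rfl
  map_mul' _ _ := rfl

/-- the section -/
def inr : Γ →* SD M Γ where
  toFun g := ⟨0, g⟩
  map_one' := rfl
  map_mul' x y := by ext <;> simp

/-- the inclusion of the module -/
def inl : Multiplicative M →* SD M Γ where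
  toFun m := ⟨m.toAdd, 1⟩
  map_one' := rfl
  map_mul' x y := by ext <;> simp

/-- functoriality of the split extension -/
def map {M' : Type*} {Γ' : Type*} [AddCommGroup M'] [Group Γ'] [DistribMulAction Γ' M']
    (α : M →+ M') (φ : Γ →* Γ') (h : ∀ (g : Γ) (m : M), α (g • m) = φ g • α m) :
    SD M Γ →* SD M' Γ' where
  toFun x := ⟨α x.m, φ x.g⟩
  map_one' := by ext <;> simp
  map_mul' x y := by ext <;> simp [h]

end SD

end Pool.Agent.FGRF
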