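import Mathlib
import Pool.Agent.Lib_helper35.FGRF.Sat

/-!
# The differencing lemma
-/

set_option autoImplicit false

namespace Pool.Agent.FGRF

universe u v w

open LaurentPolynomial

/-! ### the lamplighter groups and their group rings -/

/-- The ring `(ℤ/p)[T, T⁻¹]`. -/
abbrev Lam (p : ℕ) := (ZMod p)[T;T⁻¹]

/-- The infinite cyclic group acts on `(ℤ/p)[T, T⁻¹]` by multiplication by `T`. -/
noncomputable instance actLam (p : ℕ) : DistribMulAction (Multiplicative ℤ) (Lam p) where
  smul k v := T k.toAdd * v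
  one_smul v := by
    show T (0 : ℤ) * v = v
    rw [T_zero, one_mul]
  mul_smul x y v := by
    show T (x.toAdd + y.toAdd) * v = T x.toAdd * (T y.toAdd * v)
    rw [T_add, mul_assoc]
  smul_zero x := mul_zero _
  smul_add x a b := mul_add _ _ _

theorem actLam_def (p : ℕ) (k : Multiplicative ℤ) (v : Lam p) : k • v = T k.toAdd * v := rfl

/-- The lamplighter group `(ℤ/p) ≀ ℤ`. -/
abbrev Lamp (p : ℕ) := SD (Lam p) (Multiplicative ℤ)

/-- A group acts on its group ring by left multiplication. -/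
noncomputable instance actMA {k : Type*} [CommRing k] {Γ : Type*} [Group Γ] :
    DistribMulAction Γ (MonoidAlgebra k Γ) where
  smul g x := MonoidAlgebra.single g 1 * x
  one_smul x := by
    show MonoidAlgebra.single (1 : Γ) (1 : k) * x = x
    rw [← MonoidAlgebra.one_def, one_mul]
  mul_smul g h x := by
    show MonoidAlgebra.single (g * h) (1 : k) * x =
      MonoidAlgebra.single g 1 * (MonoidAlgebra.single h 1 * x)
    rw [← mul_assoc, MonoidAlgebra.single_mul_single, one_mul]
  smul_zero g := mul_zero _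
  smul_add g a b := mul_add _ _ _

theorem actMA_def {k : Type*} [CommRing k] {Γ : Type*} [Group Γ] (g : Γ) (x : MonoidAlgebra k Γ) :
    g • x = MonoidAlgebra.single g 1 * x := rfl

/-- The group `U(p, q) = (ℤ/q) ≀ ((ℤ/p) ≀ ℤ)`. -/
abbrev UG (p q : ℕ) := SD (MonoidAlgebra (ZMod q) (Lamp p)) (Lamp p)

variable {L : Set (FreeGroup ℕ)}

/-- A nontrivial verbal element of the base group. -/
theorem exists_verbal_base {p q : ℕ} [Nontrivial (ZMod q)] (h : ¬ Sat L (UG p q)) :
    ∃ ξ : MonoidAlgebra (ZMod q) (Lamp p), ξ ≠ 0 ∧ (⟨ξ, 1⟩ : UG p q) ∈ verbal L (UG p q) := by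
  have h1 : ∃ x ∈ verbal L (UG p q), x ≠ 1 := by
    by_contra hcon
    refine h (Sat.of_verbal_le (MonoidHom.id _) (fun x => ⟨x, rfl⟩) fun x hx => ?_)
    by_contra hne
    exact hcon ⟨x, hx, hne⟩
  obtain ⟨⟨ξ, γ⟩, hx, hne⟩ := h1
  by_cases hγ : γ = 1
  · subst hγ
    refine ⟨ξ, ?_, hx⟩
    rintro rfl
    exact hne rfl
  · refine ⟨MonoidAlgebra.single γ 1 - 1, ?_, ?_⟩
    · intro h0
      rw [sub_eq_zero, MonoidAlgebra.one_def] at h0
      exact hγ (MonoidAlgebra.of_injective (R := ZMod q) (by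
        simpa [MonoidAlgebra.of_apply] using h0))
    · have := verbal_comm_left hx (⟨1, 1⟩ : UG p q)
      convert this using 1
      ext1
      · simp only [SD.mul_m, SD.mul_g, SD.inv_m, SD.inv_g, actMA_def, mul_one, mul_inv_cancel,
          ← MonoidAlgebra.one_def, inv_one, one_mul]
        rw [mul_neg, ← mul_assoc, MonoidAlgebra.single_mul_single, mul_inv_cancel, one_mul,
          ← MonoidAlgebra.one_def, one_mul]
        abel
      · simp only [SD.mul_g, SD.inv_g, mul_one, inv_one, mul_inv_cancel]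

/-! ### the differencing argument in a ring -/

section Ring

variable {R : Type*} [Ring R] {p : ℕ} {A : Type*} [AddCommGroup A] [Module (Lam p) A]

/-- the product `∏ (e(δ • g) - 1)` -/
noncomputable def dprod (e : A → R) (l : List (Lam p)) (gs : List A) : R :=
  (List.zipWith (fun δ g => e (δ • g) - 1) l gs).prod

theorem dprod_cons (e : A → R) (δ : Lam p) (l : List (Lam p)) (g : A)
    (gs : List A) : dprod e (δ :: l) (g :: gs) = (e (δ • g) - 1) * dprod e l gs := by
  simp [dprod]

theorem dprod_nil (e : A → R) : dprod e ([] : List (Lam p)) [] = 1 := by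
  simp [dprod]

theorem dprod_commute (e : A → R) (hadd : ∀ a b, e (a + b) = e a * e b) (a : A) :
    ∀ (l : List (Lam p)) (gs : List A), Commute (e a) (dprod e l gs)
  | [], gs => by simp [dprod]
  | _ :: _, [] => by simp [dprod]
  | δ :: l, g :: gs => by
    rw [dprod_cons]
    refine Commute.mul_right ?_ (dprod_commute e hadd a l gs)
    refine Commute.sub_right ?_ (Commute.one_right _)
    show _ * _ = _ * _
    rw [← hadd, ← hadd, add_comm]

/-- the difference attached to two monomials -/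
noncomputable def delta (j₀ : ℤ) (σ σ' : Lam p × ℤ) : Lam p :=
  if σ'.2 = j₀ then σ.1 - σ'.1 else T σ.2 - T σ'.2

theorem delta_self (j₀ : ℤ) (σ : Lam p × ℤ) : delta j₀ σ σ = 0 := by
  unfold delta
  split_ifs <;> simp

theorem differencing_aux {k : Type*} [CommRing k] [Algebra k R] (e : A → R) (he0 : e 0 = 1)
    (hadd : ∀ a b, e (a + b) = e a * e b) (τ : ℤ → R)
    (hτ : ∀ j a, τ j * e a = e ((T j : Lam p) • a) * τ j)
    (S : Finset (Lam p × ℤ)) (c : Lam p × ℤ → k)
    (h0 : ∀ a, ∑ σ ∈ S, c σ • (e (σ.1 • a) * τ σ.2) = 0) (j₀ : ℤ) :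
    ∀ (l : List (Lam p × ℤ)), l.Nodup → (∀ σ ∈ l, σ ∈ S) → ∀ gs : List A, gs.length = l.length →
      ∀ a, ∑ σ ∈ S \ l.toFinset,
        c σ • (dprod e (l.map (delta j₀ σ)) gs * (e (σ.1 • a) * τ σ.2)) = 0
  | [], _, _, gs, hgs, a => by
    have : gs = [] := List.length_eq_zero_iff.1 hgs
    subst this
    simpa [dprod_nil] using h0 a
  | σ₁ :: l, hnd, hS, gs, hgs, a => by
    obtain ⟨g, gs, rfl⟩ : ∃ g gs', gs = g :: gs' := by
      cases gs with
      | nil => simp at hgs
      | cons g gs => exact ⟨g, gs, rfl⟩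
    have hlen : gs.length = l.length := by simpa using hgs
    have hnd' := List.nodup_cons.1 hnd
    have ih := differencing_aux e he0 hadd τ hτ S c h0 j₀ l hnd'.2
      (fun σ hσ => hS σ (List.mem_cons_of_mem _ hσ)) gs hlen
    -- the shifted identity
    have key : ∑ σ ∈ S \ l.toFinset, c σ • (e (delta j₀ σ σ₁ • g) *
        (dprod e (l.map (delta j₀ σ)) gs * (e (σ.1 • a) * τ σ.2))) = 0 := by
      by_cases hj : σ₁.2 = j₀
      · have h1 := ih (a + g)
        have h2 : e (-(σ₁.1 • g)) * ∑ σ ∈ S \ l.toFinset,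
            c σ • (dprod e (l.map (delta j₀ σ)) gs * (e (σ.1 • (a + g)) * τ σ.2)) = 0 := by
          rw [h1, mul_zero]
        rw [Finset.mul_sum] at h2
        rw [← h2]
        refine Finset.sum_congr rfl fun σ _ => ?_
        rw [mul_smul_comm]
        congr 1
        have h3 : delta j₀ σ σ₁ • g = -(σ₁.1 • g) + σ.1 • g := by
          rw [delta, if_pos hj, sub_smul]
          abel
        rw [h3, hadd, smul_add, add_comm (σ.1 • a), hadd (σ.1 • g)]
        have h4 := (dprod_commute e hadd (σ.1 • g) (l.map (delta j₀ σ)) gs).eq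
        simp only [mul_assoc]
        rw [← mul_assoc (e (σ.1 • g)) (dprod e (l.map (delta j₀ σ)) gs), h4, mul_assoc]
      · have h1 := ih a
        have h2 : e (-((T σ₁.2 : Lam p) • g)) * (∑ σ ∈ S \ l.toFinset,
            c σ • (dprod e (l.map (delta j₀ σ)) gs * (e (σ.1 • a) * τ σ.2))) * e g = 0 := by
          rw [h1, mul_zero, zero_mul]
        rw [Finset.mul_sum, Finset.sum_mul] at h2
        rw [← h2]
        refine Finset.sum_congr rfl fun σ _ => ?_
        rw [mul_smul_comm, smul_mul_assoc]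
        congr 1
        have h3 : delta j₀ σ σ₁ • g = -((T σ₁.2 : Lam p) • g) + (T σ.2 : Lam p) • g := by
          rw [delta, if_neg hj, sub_smul]
          abel
        rw [h3, hadd]
        have h4 := (dprod_commute e hadd ((T σ.2 : Lam p) • g) (l.map (delta j₀ σ)) gs).eq
        have h5 : e ((T σ.2 : Lam p) • g) * e (σ.1 • a) = e (σ.1 • a) * e ((T σ.2 : Lam p) • g) := by
          rw [← hadd, ← hadd, add_comm]
        simp only [mul_assoc]
        rw [hτ, ← mul_assoc (e ((T σ.2 : Lam p) • g)) (dprod e (l.map (delta j₀ σ)) gs), h4,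
          mul_assoc, ← mul_assoc (e ((T σ.2 : Lam p) • g)) (e (σ.1 • a)), h5, mul_assoc]
    have h1 := ih a
    have h2 : ∑ σ ∈ S \ l.toFinset, c σ • ((e (delta j₀ σ σ₁ • g) - 1) *
        (dprod e (l.map (delta j₀ σ)) gs * (e (σ.1 • a) * τ σ.2))) = 0 := by
      rw [← sub_zero (0 : R)]
      nth_rewrite 1 [← key]
      rw [← h1, ← Finset.sum_sub_distrib]
      refine Finset.sum_congr rfl fun σ _ => ?_
      rw [sub_mul, one_mul, smul_sub]
    have hmem : σ₁ ∈ S \ l.toFinset := by
      rw [Finset.mem_sdiff, List.mem_toFinset]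
      exact ⟨hS σ₁ (List.mem_cons_self), hnd'.1⟩
    have h3 : S \ (σ₁ :: l).toFinset = (S \ l.toFinset).erase σ₁ := by
      ext σ
      simp only [List.toFinset_cons, Finset.mem_sdiff, Finset.mem_insert, List.mem_toFinset,
        Finset.mem_erase]
      tauto
    rw [h3]
    rw [← Finset.add_sum_erase _ _ hmem, delta_self, zero_smul, he0, sub_self, zero_mul, smul_zero,
      zero_add] at h2
    rw [← h2]
    refine Finset.sum_congr rfl fun σ _ => ?_
    rw [List.map_cons, dprod_cons, mul_assoc]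

theorem exists_dprod_eq (e : A → R) (w : Lam p) :
    ∀ (l : List (Lam p)), (∀ δ ∈ l, δ ∣ w) → ∀ gs : List A, gs.length = l.length →
      ∃ gs' : List A, gs'.length = l.length ∧
        dprod e l gs' = (gs.map fun g => e (w • g) - 1).prod
  | [], _, gs, hgs => by
    have : gs = [] := List.length_eq_zero_iff.1 hgs
    subst this
    exact ⟨[], rfl, by simp [dprod_nil]⟩
  | δ :: l, hl, gs, hgs => by
    obtain ⟨g, gs, rfl⟩ : ∃ g gs', gs = g :: gs' := by
      cases gs with
      | nil => simp at hgs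
      | cons g gs => exact ⟨g, gs, rfl⟩
    have hlen : gs.length = l.length := by simpa using hgs
    obtain ⟨gs', h1, h2⟩ := exists_dprod_eq e w l
      (fun δ hδ => hl δ (List.mem_cons_of_mem _ hδ)) gs hlen
    obtain ⟨v, hv⟩ := hl δ (List.mem_cons_self)
    refine ⟨(v • g) :: gs', by simp [h1], ?_⟩
    rw [dprod_cons, h2, smul_smul, ← hv, List.map_cons, List.prod_cons]

/-- the product of the differences -/
noncomputable def wprod (S : Finset (Lam p × ℤ)) (σ₀ : Lam p × ℤ) : Lam p :=
  ((S.erase σ₀).toList.map (delta σ₀.2 σ₀)).prod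

theorem wprod_ne_zero [IsDomain (Lam p)] [Nontrivial (ZMod p)] (S : Finset (Lam p × ℤ))
    (σ₀ : Lam p × ℤ) : wprod S σ₀ ≠ 0 := by
  unfold wprod
  refine List.prod_ne_zero ?_
  intro h
  obtain ⟨σ, hσ, h0⟩ := List.mem_map.1 h
  rw [Finset.mem_toList, Finset.mem_erase] at hσ
  apply hσ.1
  unfold delta at h0
  split_ifs at h0 with hj
  · exact Prod.ext (sub_eq_zero.1 h0).symm hj
  · exfalso
    apply hj
    rw [sub_eq_zero] at h0
    by_contra hne
    have h1 := congrArg (fun f => AddMonoidAlgebra.coeff f σ.2) h0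
    simp only [LaurentPolynomial.T_apply] at h1
    rw [if_neg (fun h => hne h.symm), if_pos trivial] at h1
    exact zero_ne_one h1

theorem differencing {k : Type*} [CommRing k] [Algebra k R] (e : A → R) (he0 : e 0 = 1)
    (hadd : ∀ a b, e (a + b) = e a * e b) (τ : ℤ → R) (hτu : ∀ j, IsUnit (τ j))
    (hτ : ∀ j a, τ j * e a = e ((T j : Lam p) • a) * τ j)
    (S : Finset (Lam p × ℤ)) (c : Lam p × ℤ → k)
    (h0 : ∀ a, ∑ σ ∈ S, c σ • (e (σ.1 • a) * τ σ.2) = 0) (σ₀ : Lam p × ℤ) (hσ₀ : σ₀ ∈ S)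
    (gs : List A) (hgs : gs.length = (S.erase σ₀).toList.length) :
    c σ₀ • (gs.map fun g => e (wprod S σ₀ • g) - 1).prod = 0 := by
  obtain ⟨gs', h1, h2⟩ := exists_dprod_eq e (wprod S σ₀)
    ((S.erase σ₀).toList.map (delta σ₀.2 σ₀)) (fun δ hδ => List.dvd_prod hδ) gs
    (by rw [hgs, List.length_map])
  rw [List.length_map] at h1
  have h3 := differencing_aux e he0 hadd τ hτ S c h0 σ₀.2 (S.erase σ₀).toList
    (Finset.nodup_toList _) (fun σ hσ => Finset.mem_of_mem_erase (Finset.mem_toList.1 hσ)) gs' h1 0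
  have h4 : S \ (S.erase σ₀).toList.toFinset = {σ₀} := by
    rw [Finset.toList_toFinset]
    ext σ
    simp only [Finset.mem_sdiff, Finset.mem_erase, Finset.mem_singleton]
    constructor
    · rintro ⟨h, h'⟩
      by_contra hne
      exact h' ⟨hne, h⟩
    · rintro rfl
      exact ⟨hσ₀, fun h => h.1 rfl⟩
  rw [h4, Finset.sum_singleton, h2, smul_zero, he0, one_mul, ← smul_mul_assoc] at h3
  exact (hτu σ₀.2).mul_left_eq_zero.1 h3

end Ring

end Pool.Agent.FGRF
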