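import Mathlib

/-!
# Central chains of subgroups above a normal subgroup

`CCov P H`: there is a chain `P = H₀ ≤ H₁ ≤ … ≤ H_m = H` with `H_{i+1} = H_i ⊔ ⟨t_{i+1}⟩` and
`[G, t_{i+1}] ⊆ H_i`.  For `P` normal, `CCov P ⊤` says that `G ⧸ P` is a finitely generated
nilpotent group.
-/

set_option autoImplicit false

namespace Pool.Agent.FGRF

universe u

variable {G : Type u} [Group G]

/-- `H` is reached from `P` by a chain of central extensions by cyclic groups. -/
inductive CCov (P : Subgroup G) : Subgroup G → Prop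
  | base : CCov P P
  | step {H : Subgroup G} (t : G) (hH : CCov P H) (ht : ∀ g : G, g * t * g⁻¹ * t⁻¹ ∈ H) :
      CCov P (H ⊔ Subgroup.zpowers t)

theorem CCov.normal {P H : Subgroup G} (hP : P.Normal) (h : CCov P H) : H.Normal := by
  induction h with
  | base => exact hP
  | @step H t _ ht ih =>
    constructor
    intro x hx g
    have hle : H ≤ H ⊔ Subgroup.zpowers t := le_sup_left
    obtain ⟨y, hy, z, hz, rfl⟩ := Subgroup.mem_sup_of_normal_left.1 hx
    obtain ⟨k, rfl⟩ := Subgroup.mem_zpowers_iff.1 hz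
    have h2 : g * (y * t ^ k) * g⁻¹ = (g * y * g⁻¹) * (g * t * g⁻¹) ^ k := by
      rw [conj_zpow]; group
    rw [h2]
    refine mul_mem (hle (ih.conj_mem y hy g)) (zpow_mem ?_ k)
    have h3 : g * t * g⁻¹ = (g * t * g⁻¹ * t⁻¹) * t := by group
    rw [h3]
    exact mul_mem (hle (ht g)) (Subgroup.mem_sup_right (Subgroup.mem_zpowers t))

theorem CCov.le {P H : Subgroup G} (h : CCov P H) : P ≤ H := by
  induction h with
  | base => exact le_rfl
  | step t _ _ ih => exact ih.trans le_sup_left

/-- The `J`-submodule of `M` generated by the `H`-translates of the elements of `S`. -/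
def hspan (J : Type*) [CommRing J] {M : Type*} [AddCommGroup M] [Module J M]
    [DistribMulAction G M] (H : Subgroup G) (S : Set M) : Submodule J M :=
  Submodule.span J {x | ∃ h ∈ H, ∃ s ∈ S, x = h • s}

end Pool.Agent.FGRF
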