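import Mathlib
import Pool.Agent.Lib_helper35.FGRF.Chain

/-!
Interface: statements of the two self-contained blocks (P. Hall's module theorems; ideals of
`ℤ[s^±1, u^±1]`).  Not a hand-in; the proofs go to other files.
-/

set_option autoImplicit false

namespace Pool.Agent.FGRF.Interface

open Pool.Agent.FGRF

universe u v w

/-! ### Block PH (P. Hall) -/

/-- Block PH, part 1: P. Hall's maximal condition. -/
def NoethStatement : Prop :=
  ∀ (J : Type v) [CommRing J] [IsNoetherianRing J] (G : Type u) [Group G] (P : Subgroup G),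
    P.Normal → CCov P ⊤ →
    ∀ (M : Type w) [AddCommGroup M] [Module J M] [DistribMulAction G M] [SMulCommClass G J M],
      (∀ g ∈ P, ∀ x : M, g • x = x) → ∀ S : Set M, S.Finite → hspan J (⊤ : Subgroup G) S = ⊤ →
      ∀ N : Submodule J M, (∀ (g : G), ∀ x ∈ N, g • x ∈ N) →
        ∃ S' : Set M, S'.Finite ∧ N = hspan J (⊤ : Subgroup G) S'

/-- Block PH, part 2: a finitely generated monolithic module over a finitely generated nilpotent
group is finite. -/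
def MonoStatement : Prop :=
  ∀ (G : Type u) [Group G] (P : Subgroup G), P.Normal → CCov P ⊤ →
    ∀ (M : Type w) [AddCommGroup M] [DistribMulAction G M],
      (∀ g ∈ P, ∀ x : M, g • x = x) →
      (∃ S : Set M, S.Finite ∧ AddSubgroup.closure {x | ∃ g : G, ∃ s ∈ S, x = g • s} = ⊤) →
      ∀ x₀ : M, x₀ ≠ 0 →
        (∀ N : AddSubgroup M, (∀ (g : G), ∀ x ∈ N, g • x ∈ N) → N ≠ ⊥ → x₀ ∈ N) → Finite M

/-! ### Block LI (ideals of Laurent polynomials in two variables) -/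

/-- `ℤ[s^±1, u^±1]`; the monomial `s^i u^j` is `single (i, j) 1`. -/
abbrev R2 := AddMonoidAlgebra ℤ (ℤ × ℤ)

/-- the substitution `s ↦ s^k, u ↦ u^k` -/
noncomputable def phi (k : ℤ) : R2 →+* R2 :=
  AddMonoidAlgebra.mapDomainRingHom ℤ (k • AddMonoidHom.id (ℤ × ℤ))

/-- the substitution `u ↦ s^{-1}`, together with reduction mod `p` -/
noncomputable def ev (p : ℕ) : R2 →+* AddMonoidAlgebra (ZMod p) ℤ :=
  (AddMonoidAlgebra.mapDomainRingHom (ZMod p)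
    (AddMonoidHom.fst ℤ ℤ - AddMonoidHom.snd ℤ ℤ)).comp
    (AddMonoidAlgebra.mapRingHom (ℤ × ℤ) (Int.castRingHom (ZMod p)))

/-- Block LI, part (a), with `v = s u`: `W` contains a product of elements `s^a v^b - 1`, `a ≥ 1`. -/
def LIa : Prop :=
  ∀ W : Ideal R2, (∀ k : ℕ, 1 ≤ k → ∀ f ∈ W, phi k f ∈ W) →
    (∀ p : ℕ, p.Prime → ∃ f ∈ W, ev p f ≠ 0) →
    ∃ l : List (ℕ × ℤ), (∀ x ∈ l, 1 ≤ x.1) ∧
      (l.map fun x => (AddMonoidAlgebra.single (((x.1 : ℤ) + x.2, x.2) : ℤ × ℤ) (1 : ℤ) - 1 : R2)).prod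
        ∈ W

/-- Block LI, part (b). -/
def LIb : Prop :=
  ∀ W : Ideal R2, (∀ k : ℕ, 1 ≤ k → ∀ f ∈ W, phi k f ∈ W) →
    (∀ p : ℕ, p.Prime → ∃ f ∈ W, ev p f ≠ 0) →
    ∀ n r : ℕ, 1 ≤ n → ∃ n' r' : ℕ, 1 ≤ n' ∧
      (AddMonoidAlgebra.single (((n' : ℤ), 0) : ℤ × ℤ) (1 : ℤ) - 1 : R2) ^ r' ∈
        W ⊔ Ideal.span {(AddMonoidAlgebra.single (((n : ℤ), (n : ℤ)) : ℤ × ℤ) (1 : ℤ) - 1 : R2) ^ r}

end Pool.Agent.FGRF.Interface
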