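import Mathlib

/-!
# Abelian normal sections of a group as modules
-/

set_option autoImplicit false

namespace Pool.Agent.FGRF

universe u

/-- A pair `B ≤ A` of normal subgroups of `G` with `A / B` abelian. -/
structure NSec (G : Type u) [Group G] where
  A : Subgroup G
  B : Subgroup G
  hA : A.Normal
  hB : B.Normal
  le : B ≤ A
  comm : ∀ x ∈ A, ∀ y ∈ A, x * y * x⁻¹ * y⁻¹ ∈ B

namespace NSec

variable {G : Type u} [Group G] (S : NSec G)

instance : (S.B.subgroupOf S.A).Normal := by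
  have := S.hB
  infer_instance

/-- The abelian group `A / B`, written additively. -/
def Mod : Type u := Additive (S.A ⧸ S.B.subgroupOf S.A)

instance : AddCommGroup S.Mod :=
  { (inferInstance : AddGroup (Additive (S.A ⧸ S.B.subgroupOf S.A))) with
    add_comm := by
      intro a b
      show (Additive.ofMul (a.toMul * b.toMul) : Additive (S.A ⧸ S.B.subgroupOf S.A)) =
        Additive.ofMul (b.toMul * a.toMul)
      obtain ⟨x, hx⟩ := QuotientGroup.mk'_surjective _ a.toMul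
      obtain ⟨y, hy⟩ := QuotientGroup.mk'_surjective _ b.toMul
      rw [← hx, ← hy, ← map_mul, ← map_mul]
      congr 1
      rw [QuotientGroup.mk'_apply, QuotientGroup.mk'_apply, QuotientGroup.eq]
      show ((x * y)⁻¹ * (y * x) : S.A).1 ∈ S.B
      have h := S.comm y⁻¹.1 (y⁻¹).2 x⁻¹.1 (x⁻¹).2
      have h2 : ((x * y)⁻¹ * (y * x) : S.A).1 = y⁻¹.1 * x⁻¹.1 * (y⁻¹.1)⁻¹ * (x⁻¹.1)⁻¹ := by
        simp [mul_assoc]
      rw [h2]
      exact h }

variable {S}

/-- The class in `A / B` of an element of `A`. -/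
def cl (x : G) (hx : x ∈ S.A) : S.Mod := Additive.ofMul (QuotientGroup.mk ⟨x, hx⟩)

theorem cl_surjective (m : S.Mod) : ∃ (x : G) (hx : x ∈ S.A), m = cl x hx := by
  obtain ⟨⟨x, hx⟩, h⟩ := QuotientGroup.mk'_surjective _ (Additive.toMul m)
  exact ⟨x, hx, (congrArg Additive.ofMul h).symm⟩

theorem cl_mul {x y : G} (hx : x ∈ S.A) (hy : y ∈ S.A) :
    cl (S := S) (x * y) (mul_mem hx hy) = cl x hx + cl y hy := rfl

theorem cl_inv {x : G} (hx : x ∈ S.A) : cl (S := S) x⁻¹ (inv_mem hx) = -cl x hx := rfl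

theorem cl_one : cl (S := S) 1 (one_mem _) = 0 := rfl

theorem cl_eq_zero {x : G} {hx : x ∈ S.A} : cl (S := S) x hx = 0 ↔ x ∈ S.B := by
  have h : (QuotientGroup.mk ⟨x, hx⟩ : S.A ⧸ S.B.subgroupOf S.A) = 1 ↔ x ∈ S.B :=
    QuotientGroup.eq_one_iff _
  exact h

theorem cl_eq_iff {x y : G} {hx : x ∈ S.A} {hy : y ∈ S.A} :
    cl (S := S) x hx = cl y hy ↔ x * y⁻¹ ∈ S.B := by
  rw [← sub_eq_zero, sub_eq_add_neg, ← cl_inv, ← cl_mul, cl_eq_zero]

theorem cl_congr {x y : G} (h : x = y) {hx : x ∈ S.A} :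
    cl (S := S) x hx = cl y (h ▸ hx) := by
  subst h
  rfl

theorem cl_npow {x : G} (hx : x ∈ S.A) (n : ℕ) :
    cl (S := S) (x ^ n) (pow_mem hx n) = n • cl x hx := rfl

theorem cl_zpow {x : G} (hx : x ∈ S.A) (n : ℤ) :
    cl (S := S) (x ^ n) (zpow_mem hx n) = n • cl x hx := rfl

variable (S)

/-- the class map as a homomorphism -/
def clHom : S.A →* Multiplicative S.Mod where
  toFun x := Multiplicative.ofAdd (cl x.1 x.2)
  map_one' := rfl
  map_mul' _ _ := rfl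

/-- lift of a homomorphism from `A` to an additive group which kills `B` -/
def lift {M : Type*} [AddGroup M] (f : S.A → M) (hf : ∀ x y, f (x * y) = f x + f y)
    (h0 : ∀ x : S.A, x.1 ∈ S.B → f x = 0) : S.Mod →+ M :=
  MonoidHom.toAdditiveLeft (QuotientGroup.lift (S.B.subgroupOf S.A)
    (MonoidHom.mk' (fun x => Multiplicative.ofAdd (f x)) fun x y => by
      rw [hf, ofAdd_add]) (fun x hx => h0 x hx))

theorem lift_cl {M : Type*} [AddGroup M] (f : S.A → M) (hf : ∀ x y, f (x * y) = f x + f y)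
    (h0 : ∀ x : S.A, x.1 ∈ S.B → f x = 0) (x : G) (hx : x ∈ S.A) :
    S.lift f hf h0 (cl x hx) = f ⟨x, hx⟩ := rfl

theorem lift_unique {M : Type*} [AddGroup M] (f g : S.Mod →+ M)
    (h : ∀ x hx, f (cl x hx) = g (cl x hx)) : f = g := by
  ext m
  obtain ⟨x, hx, rfl⟩ := cl_surjective m
  exact h x hx

variable {S}

theorem conj_mem {x : G} (hx : x ∈ S.A) (g : G) : g * x * g⁻¹ ∈ S.A := S.hA.conj_mem x hx g

/-- conjugation by `g` on the section -/
def conjMod (g : G) : S.Mod →+ S.Mod :=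
  S.lift (fun x => cl (g * x.1 * g⁻¹) (conj_mem x.2 g))
    (fun x y => by
      rw [← cl_mul]
      apply cl_congr
      simp [mul_assoc])
    (fun x hx => cl_eq_zero.2 (S.hB.conj_mem x.1 hx g))

theorem conjMod_cl (g : G) (x : G) (hx : x ∈ S.A) :
    conjMod (S := S) g (cl x hx) = cl (g * x * g⁻¹) (conj_mem hx g) := rfl

instance : DistribMulAction G S.Mod where
  smul g m := conjMod g m
  one_smul m := by
    obtain ⟨x, hx, rfl⟩ := cl_surjective m
    show conjMod 1 (cl x hx) = _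
    rw [conjMod_cl]
    exact cl_congr (by simp)
  mul_smul g h m := by
    obtain ⟨x, hx, rfl⟩ := cl_surjective m
    show conjMod (g * h) (cl x hx) = conjMod g (conjMod h (cl x hx))
    rw [conjMod_cl, conjMod_cl, conjMod_cl]
    exact cl_congr (by simp [mul_assoc])
  smul_zero g := map_zero _
  smul_add g := map_add _

theorem smul_cl (g : G) {x : G} (hx : x ∈ S.A) :
    g • (cl x hx : S.Mod) = cl (g * x * g⁻¹) (conj_mem hx g) := rfl

/-- The subgroup of `G` corresponding to a subgroup of `A / B`. -/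
def toSub (N : AddSubgroup S.Mod) : Subgroup G where
  carrier := {x | ∃ hx : x ∈ S.A, cl x hx ∈ N}
  mul_mem' := by
    rintro x y ⟨hx, hx'⟩ ⟨hy, hy'⟩
    exact ⟨mul_mem hx hy, by rw [cl_mul hx hy]; exact N.add_mem hx' hy'⟩
  one_mem' := ⟨one_mem _, by rw [cl_one]; exact N.zero_mem⟩
  inv_mem' := by
    rintro x ⟨hx, hx'⟩
    exact ⟨inv_mem hx, by rw [cl_inv hx]; exact N.neg_mem hx'⟩

theorem mem_toSub {N : AddSubgroup S.Mod} {x : G} :
    x ∈ toSub N ↔ ∃ hx : x ∈ S.A, cl x hx ∈ N := Iff.rfl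

theorem toSub_le (N : AddSubgroup S.Mod) : toSub N ≤ S.A := fun _ hx => hx.1

theorem le_toSub (N : AddSubgroup S.Mod) : S.B ≤ toSub N := fun x hx =>
  ⟨S.le hx, by rw [cl_eq_zero.2 hx]; exact N.zero_mem⟩

theorem toSub_normal {N : AddSubgroup S.Mod} (h : ∀ g : G, ∀ x ∈ N, g • x ∈ N) :
    (toSub N).Normal where
  conj_mem := by
    rintro x ⟨hx, hx'⟩ g
    exact ⟨conj_mem hx g, h g _ hx'⟩

/-- The subgroup of `A / B` corresponding to a subgroup of `G`. -/
def ofSub (K : Subgroup G) : AddSubgroup S.Mod where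
  carrier := {m | ∃ (x : G) (hx : x ∈ S.A), x ∈ K ∧ m = cl x hx}
  add_mem' := by
    rintro _ _ ⟨x, hx, hK, rfl⟩ ⟨y, hy, hK', rfl⟩
    exact ⟨x * y, mul_mem hx hy, mul_mem hK hK', (cl_mul hx hy).symm⟩
  zero_mem' := ⟨1, one_mem _, one_mem _, cl_one.symm⟩
  neg_mem' := by
    rintro _ ⟨x, hx, hK, rfl⟩
    exact ⟨x⁻¹, inv_mem hx, inv_mem hK, (cl_inv hx).symm⟩

theorem mem_ofSub {K : Subgroup G} {m : S.Mod} :
    m ∈ ofSub K ↔ ∃ (x : G) (hx : x ∈ S.A), x ∈ K ∧ m = cl x hx := Iff.rfl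

theorem smul_mem_ofSub {K : Subgroup G} (hK : K.Normal) (g : G) (m : S.Mod)
    (hm : m ∈ ofSub K) : g • m ∈ ofSub (S := S) K := by
  obtain ⟨x, hx, hxK, rfl⟩ := hm
  exact ⟨g * x * g⁻¹, conj_mem hx g, hK.conj_mem x hxK g, smul_cl g hx⟩

theorem cl_mem_ofSub {K : Subgroup G} (hK : S.B ≤ K) {x : G} (hx : x ∈ S.A) :
    cl x hx ∈ ofSub (S := S) K ↔ x ∈ K := by
  constructor
  · rintro ⟨y, hy, hyK, h⟩
    rw [cl_eq_iff] at h
    have := mul_mem (hK h) hyK
    simpa using this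
  · intro h
    exact ⟨x, hx, h, rfl⟩

theorem toSub_ofSub {K : Subgroup G} (hBK : S.B ≤ K) (hKA : K ≤ S.A) :
    toSub (S := S) (ofSub K) = K := by
  ext x
  constructor
  · rintro ⟨hx, h⟩
    exact (cl_mem_ofSub hBK hx).1 h
  · intro h
    exact ⟨hKA h, (cl_mem_ofSub hBK (hKA h)).2 h⟩

theorem ofSub_toSub (N : AddSubgroup S.Mod) : ofSub (S := S) (toSub N) = N := by
  ext m
  obtain ⟨x, hx, rfl⟩ := cl_surjective m
  rw [cl_mem_ofSub (le_toSub N)]
  exact ⟨fun h => h.2, fun h => ⟨hx, h⟩⟩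

end NSec

end Pool.Agent.FGRF
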