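import Mathlib
import Pool.Agent.Lib_helper35.FGRF.Sat
import Pool.Agent.Lib_helper35.FGRF.NSec

/-!
# Groups attached to equivariant pairings
-/

set_option autoImplicit false

namespace Pool.Agent.FGRF

universe u v w x y

/-- An equivariant biadditive pairing. -/
structure PairD (Γ : Type u) (D : Type v) (B : Type w) (C : Type x) [Group Γ] [AddCommGroup D]
    [AddCommGroup B] [AddCommGroup C] [DistribMulAction Γ D] [DistribMulAction Γ B]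
    [DistribMulAction Γ C] where
  β : D →+ B →+ C
  equi : ∀ (g : Γ) (d : D) (b : B), g • β d b = β (g • d) (g • b)

section

variable {Γ : Type u} {D : Type v} {B : Type w} {C : Type x} [Group Γ] [AddCommGroup D]
    [AddCommGroup B] [AddCommGroup C] [DistribMulAction Γ D] [DistribMulAction Γ B]
    [DistribMulAction Γ C]

/-- The group attached to a pairing: `[b, d] = β(d, b)` is central in `D B C`. -/
@[ext]
structure Trip (P : PairD Γ D B C) where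
  g : Γ
  d : D
  b : B
  c : C

namespace Trip

variable (P : PairD Γ D B C)

instance : Mul (Trip P) :=
  ⟨fun x y => ⟨x.g * y.g, x.d + x.g • y.d, x.b + x.g • y.b,
    x.c + x.g • y.c + P.β (x.g • y.d) x.b⟩⟩
instance : One (Trip P) := ⟨⟨1, 0, 0, 0⟩⟩
instance : Inv (Trip P) :=
  ⟨fun x => ⟨x.g⁻¹, -(x.g⁻¹ • x.d), -(x.g⁻¹ • x.b),
    -(x.g⁻¹ • x.c) + P.β (x.g⁻¹ • x.d) (x.g⁻¹ • x.b)⟩⟩

variable {P}

@[simp] theorem mul_g (x y : Trip P) : (x * y).g = x.g * y.g := rfl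
@[simp] theorem mul_d (x y : Trip P) : (x * y).d = x.d + x.g • y.d := rfl
@[simp] theorem mul_b (x y : Trip P) : (x * y).b = x.b + x.g • y.b := rfl
@[simp] theorem mul_c (x y : Trip P) :
    (x * y).c = x.c + x.g • y.c + P.β (x.g • y.d) x.b := rfl
@[simp] theorem one_g : (1 : Trip P).g = 1 := rfl
@[simp] theorem one_d : (1 : Trip P).d = 0 := rfl
@[simp] theorem one_b : (1 : Trip P).b = 0 := rfl
@[simp] theorem one_c : (1 : Trip P).c = 0 := rfl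
@[simp] theorem inv_g (x : Trip P) : x⁻¹.g = x.g⁻¹ := rfl
@[simp] theorem inv_d (x : Trip P) : x⁻¹.d = -(x.g⁻¹ • x.d) := rfl
@[simp] theorem inv_b (x : Trip P) : x⁻¹.b = -(x.g⁻¹ • x.b) := rfl
@[simp] theorem inv_c (x : Trip P) :
    x⁻¹.c = -(x.g⁻¹ • x.c) + P.β (x.g⁻¹ • x.d) (x.g⁻¹ • x.b) := rfl

instance : Group (Trip P) where
  mul_assoc x y z := by
    ext
    · simp [mul_assoc]
    · simp [mul_smul, add_assoc]
    · simp [mul_smul, add_assoc]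
    · simp only [mul_c, mul_g, mul_d, mul_b, smul_add, mul_smul, P.equi, map_add,
        AddMonoidHom.add_apply]
      abel
  one_mul x := by
    ext <;> simp
  mul_one x := by
    ext <;> simp
  inv_mul_cancel x := by
    ext
    · simp
    · simp
    · simp
    · simp

/-- functoriality -/
def map {Γ' : Type*} {D' : Type*} {B' : Type*} {C' : Type*} [Group Γ'] [AddCommGroup D']
    [AddCommGroup B'] [AddCommGroup C'] [DistribMulAction Γ' D'] [DistribMulAction Γ' B']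
    [DistribMulAction Γ' C'] {P' : PairD Γ' D' B' C'} (φ : Γ →* Γ') (fD : D →+ D') (fB : B →+ B')
    (fC : C →+ C') (hD : ∀ (g : Γ) (d : D), fD (g • d) = φ g • fD d)
    (hB : ∀ (g : Γ) (d : B), fB (g • d) = φ g • fB d)
    (hC : ∀ (g : Γ) (d : C), fC (g • d) = φ g • fC d)
    (hβ : ∀ d b, fC (P.β d b) = P'.β (fD d) (fB b)) : Trip P →* Trip P' where
  toFun x := ⟨φ x.g, fD x.d, fB x.b, fC x.c⟩
  map_one' := by ext <;> simp
  map_mul' x y := by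
    ext
    · simp
    · simp [hD]
    · simp [hB]
    · simp [hC, hβ, hD]

end Trip

end

/-! ### Pairings of sections -/

/-- The data of a commutator pairing of sections. -/
structure SecPair (G : Type u) [Group G] where
  D : NSec G
  N : NSec G
  C : NSec G
  h1 : ∀ d ∈ D.A, ∀ n ∈ N.A, n * d * n⁻¹ * d⁻¹ ∈ C.A
  h2 : ∀ d ∈ D.B, ∀ n ∈ N.A, n * d * n⁻¹ * d⁻¹ ∈ C.B
  h3 : ∀ d ∈ D.A, ∀ n ∈ N.B, n * d * n⁻¹ * d⁻¹ ∈ C.B
  h4 : ∀ c ∈ C.A, ∀ n ∈ N.A, n * c * n⁻¹ * c⁻¹ ∈ C.B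
  h5 : ∀ c ∈ C.A, ∀ d ∈ D.A, d * c * d⁻¹ * c⁻¹ ∈ C.B

namespace SecPair

variable {G : Type u} [Group G] (S : SecPair G)

theorem smul_C_of_N {n : G} (hn : n ∈ S.N.A) (m : S.C.Mod) : n • m = m := by
  obtain ⟨x, hx, rfl⟩ := NSec.cl_surjective m
  rw [NSec.smul_cl, NSec.cl_eq_iff]
  exact S.h4 x hx n hn

theorem smul_C_of_D {n : G} (hn : n ∈ S.D.A) (m : S.C.Mod) : n • m = m := by
  obtain ⟨x, hx, rfl⟩ := NSec.cl_surjective m
  rw [NSec.smul_cl, NSec.cl_eq_iff]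
  exact S.h5 x hx n hn

/-- the class of the commutator -/
def comm (d : S.D.A) (n : S.N.A) : S.C.Mod :=
  NSec.cl (n.1 * d.1 * n.1⁻¹ * d.1⁻¹) (S.h1 d.1 d.2 n.1 n.2)

theorem comm_mul_right (d : S.D.A) (n n' : S.N.A) :
    S.comm d (n * n') = S.comm d n + S.comm d n' := by
  rw [← S.smul_C_of_N n.2 (S.comm d n'), add_comm]
  unfold comm
  rw [NSec.smul_cl, ← NSec.cl_mul]
  apply NSec.cl_congr
  simp [mul_assoc]

theorem comm_mul_left (d d' : S.D.A) (n : S.N.A) :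
    S.comm (d * d') n = S.comm d n + S.comm d' n := by
  rw [← S.smul_C_of_D d.2 (S.comm d' n)]
  unfold comm
  rw [NSec.smul_cl, ← NSec.cl_mul]
  apply NSec.cl_congr
  simp [mul_assoc]

theorem comm_zero_left (d : S.D.A) (n : S.N.A) (h : d.1 ∈ S.D.B) : S.comm d n = 0 :=
  NSec.cl_eq_zero.2 (S.h2 d.1 h n.1 n.2)

theorem comm_zero_right (d : S.D.A) (n : S.N.A) (h : n.1 ∈ S.N.B) : S.comm d n = 0 :=
  NSec.cl_eq_zero.2 (S.h3 d.1 d.2 n.1 h)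

/-- the pairing -/
def β : S.D.Mod →+ S.N.Mod →+ S.C.Mod :=
  S.D.lift (fun d => S.N.lift (fun n => S.comm d n) (S.comm_mul_right d)
    (S.comm_zero_right d))
    (fun d d' => NSec.lift_unique _ _ _ fun x hx => by
      rw [NSec.lift_cl, AddMonoidHom.add_apply, NSec.lift_cl, NSec.lift_cl, comm_mul_left])
    (fun d hd => NSec.lift_unique _ _ _ fun x hx => by
      rw [NSec.lift_cl, comm_zero_left S _ _ hd]
      rfl)

theorem β_cl {d n : G} (hd : d ∈ S.D.A) (hn : n ∈ S.N.A) :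
    S.β (NSec.cl d hd) (NSec.cl n hn) =
      NSec.cl (n * d * n⁻¹ * d⁻¹) (S.h1 d hd n hn) := rfl

/-- the pairing as an equivariant pairing -/
def pairD : PairD G S.D.Mod S.N.Mod S.C.Mod where
  β := S.β
  equi g d b := by
    obtain ⟨x, hx, rfl⟩ := NSec.cl_surjective d
    obtain ⟨y, hy, rfl⟩ := NSec.cl_surjective b
    rw [NSec.smul_cl, NSec.smul_cl, β_cl, β_cl, NSec.smul_cl]
    apply NSec.cl_congr
    simp [mul_assoc]

/-- the subgroup of `G⁴` used to see that the group of the pairing lies in the variety of `G` -/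
def sub : Subgroup (G × G × G × G) where
  carrier := {x | x.2.2.1 * x.1⁻¹ ∈ S.D.A ∧ x.2.2.2 * x.1⁻¹ ∈ S.N.A ∧
    x.2.1 * x.1⁻¹ * (x.2.2.2 * x.1⁻¹)⁻¹ * (x.2.2.1 * x.1⁻¹)⁻¹ ∈ S.C.A}
  mul_mem' := by
    rintro ⟨g, x1, x2, x3⟩ ⟨g', y1, y2, y3⟩ ⟨h1, h2, h3⟩ ⟨h1', h2', h3'⟩
    simp only at h1 h2 h3 h1' h2' h3'
    have hd := mul_mem h1 (S.D.hA.conj_mem _ h1' g)
    have hn := mul_mem h2 (S.N.hA.conj_mem _ h2' g)
    refine ⟨?_, ?_, ?_⟩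
    · simp only [Prod.mk_mul_mk]
      convert hd using 1
      group
    · simp only [Prod.mk_mul_mk]
      convert hn using 1
      group
    · simp only [Prod.mk_mul_mk]
      -- `c'' = c * d * (b C₁ b⁻¹) * (b D₁ b⁻¹ D₁⁻¹) * d⁻¹`
      have hc1 : g * (y1 * g'⁻¹ * (y3 * g'⁻¹)⁻¹ * (y2 * g'⁻¹)⁻¹) * g⁻¹ ∈ S.C.A :=
        S.C.hA.conj_mem _ h3' g
      have hc2 := S.C.hA.conj_mem _ hc1 (x3 * g⁻¹)
      have hc3 := S.h1 _ (S.D.hA.conj_mem _ h1' g) _ h2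
      have hc4 := S.C.hA.conj_mem _ (mul_mem hc2 hc3) (x2 * g⁻¹)
      convert mul_mem h3 hc4 using 1
      group
  one_mem' := by simp
  inv_mem' := by
    rintro ⟨g, x1, x2, x3⟩ ⟨h1, h2, h3⟩
    simp only at h1 h2 h3
    refine ⟨?_, ?_, ?_⟩
    · simp only [Prod.inv_mk]
      convert S.D.hA.conj_mem _ (inv_mem h1) g⁻¹ using 1
      group
    · simp only [Prod.inv_mk]
      convert S.N.hA.conj_mem _ (inv_mem h2) g⁻¹ using 1
      group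
    · simp only [Prod.inv_mk]
      have hc1 := S.C.hA.conj_mem _ (inv_mem h3) ((x3 * g⁻¹)⁻¹ * (x2 * g⁻¹)⁻¹)
      have hc2 := S.h1 _ (inv_mem h1) _ (inv_mem h2)
      convert S.C.hA.conj_mem _ (mul_mem hc1 hc2) g⁻¹ using 1
      group

theorem mem_sub (x : G × G × G × G) : x ∈ S.sub ↔
    (x.2.2.1 * x.1⁻¹ ∈ S.D.A ∧ x.2.2.2 * x.1⁻¹ ∈ S.N.A ∧
    x.2.1 * x.1⁻¹ * (x.2.2.2 * x.1⁻¹)⁻¹ * (x.2.2.1 * x.1⁻¹)⁻¹ ∈ S.C.A) := Iff.rfl

theorem comp_cl {c C₁ d b D₁ : G} (hc : c ∈ S.C.A) (hC₁ : C₁ ∈ S.C.A) (hd : d ∈ S.D.A)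
    (hb : b ∈ S.N.A) (hD₁ : D₁ ∈ S.D.A)
    (h : c * (d * (b * C₁ * b⁻¹ * (b * D₁ * b⁻¹ * D₁⁻¹)) * d⁻¹) ∈ S.C.A) :
    (NSec.cl (c * (d * (b * C₁ * b⁻¹ * (b * D₁ * b⁻¹ * D₁⁻¹)) * d⁻¹)) h : S.C.Mod) =
      NSec.cl c hc + NSec.cl C₁ hC₁ + S.β (NSec.cl D₁ hD₁) (NSec.cl b hb) := by
  rw [β_cl]
  have h1 : b * C₁ * b⁻¹ ∈ S.C.A := S.C.hA.conj_mem _ hC₁ b
  have h2 := S.h1 D₁ hD₁ b hb
  have h3 : d * (b * C₁ * b⁻¹ * (b * D₁ * b⁻¹ * D₁⁻¹)) * d⁻¹ ∈ S.C.A :=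
    S.C.hA.conj_mem _ (mul_mem h1 h2) d
  rw [NSec.cl_mul hc h3, add_assoc]
  congr 1
  have h4 : (NSec.cl (d * (b * C₁ * b⁻¹ * (b * D₁ * b⁻¹ * D₁⁻¹)) * d⁻¹) h3 : S.C.Mod) =
      d • NSec.cl (b * C₁ * b⁻¹ * (b * D₁ * b⁻¹ * D₁⁻¹)) (mul_mem h1 h2) := rfl
  rw [h4, S.smul_C_of_D hd, NSec.cl_mul h1 h2]
  congr 1
  have h5 : (NSec.cl (b * C₁ * b⁻¹) h1 : S.C.Mod) = b • NSec.cl C₁ hC₁ := rfl
  rw [h5, S.smul_C_of_N hb]

/-- the homomorphism onto the group of the pairing -/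
def toTrip : S.sub →* Trip S.pairD :=
  MonoidHom.mk' (fun x => ⟨x.1.1, NSec.cl _ x.2.1, NSec.cl _ x.2.2.1, NSec.cl _ x.2.2.2⟩) (by
    rintro ⟨⟨g, x1, x2, x3⟩, h1, h2, h3⟩ ⟨⟨g', y1, y2, y3⟩, h1', h2', h3'⟩
    simp only at h1 h2 h3 h1' h2' h3'
    ext
    · rfl
    · show NSec.cl _ _ = NSec.cl _ _ + g • NSec.cl _ _
      rw [NSec.smul_cl, ← NSec.cl_mul]
      apply NSec.cl_congr
      simp [mul_assoc]
    · show NSec.cl _ _ = NSec.cl _ _ + g • NSec.cl _ _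
      rw [NSec.smul_cl, ← NSec.cl_mul]
      apply NSec.cl_congr
      simp [mul_assoc]
    · have hC₁ := S.C.hA.conj_mem _ h3' g
      have hD₁ := S.D.hA.conj_mem _ h1' g
      have h4 := mul_mem h3 (S.C.hA.conj_mem _ (mul_mem (S.C.hA.conj_mem _ hC₁ (x3 * g⁻¹))
        (S.h1 _ hD₁ _ h2)) (x2 * g⁻¹))
      refine Eq.trans ?_ (S.comp_cl h3 hC₁ h1 h2 hD₁ h4)
      apply NSec.cl_congr
      show x1 * y1 * (g * g')⁻¹ * (x3 * y3 * (g * g')⁻¹)⁻¹ * (x2 * y2 * (g * g')⁻¹)⁻¹ = _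
      group)

theorem toTrip_surjective : Function.Surjective S.toTrip := by
  rintro ⟨g, d, b, c⟩
  obtain ⟨d, hd, rfl⟩ := NSec.cl_surjective d
  obtain ⟨b, hb, rfl⟩ := NSec.cl_surjective b
  obtain ⟨c, hc, rfl⟩ := NSec.cl_surjective c
  refine ⟨⟨(g, c * d * b * g, d * g, b * g), ?_, ?_, ?_⟩, ?_⟩
  · simpa using hd
  · simpa using hb
  · have : c * d * b * g * g⁻¹ * (b * g * g⁻¹)⁻¹ * (d * g * g⁻¹)⁻¹ = c := by group
    rw [this]
    exact hc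
  · ext
    · rfl
    · exact NSec.cl_congr (by simp)
    · exact NSec.cl_congr (by simp)
    · exact NSec.cl_congr (by show c * d * b * g * g⁻¹ * (b * g * g⁻¹)⁻¹ * (d * g * g⁻¹)⁻¹ = c; group)

theorem sat_trip {L : Set (FreeGroup ℕ)} (h : Sat L G) : Sat L (Trip S.pairD) :=
  ((h.prod (h.prod (h.prod h))).subgroup S.sub).of_surjective S.toTrip S.toTrip_surjective

end SecPair

end Pool.Agent.FGRF
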