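import Mathlib
import Pool.Agent.Lib_helper35.FGRF.Trip
import Pool.Agent.Lib_helper35.FGRF.Diff
import Pool.Agent.Lib_helper35.FGRF.Interface

/-!
# The universal pairing and the ideal of relations
-/

set_option autoImplicit false

namespace Pool.Agent.FGRF

universe u v w x y

open LaurentPolynomial Interface

variable {L : Set (FreeGroup ℕ)}

/-- additive map from prescribed values on monomials -/
noncomputable def monEval {ι : Type*} {C : Type*} [AddCommGroup C] (F : ι → C) :
    AddMonoidAlgebra ℤ ι →+ C :=
  (Finsupp.liftAddHom fun i => zmultiplesHom C (F i)).comp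
    AddMonoidAlgebra.coeffAddEquiv.toAddMonoidHom

theorem monEval_single {ι : Type*} {C : Type*} [AddCommGroup C] (F : ι → C) (i : ι) (r : ℤ) :
    monEval F (AddMonoidAlgebra.single i r) = r • F i := by
  simp [monEval]

theorem monEval_apply {ι : Type*} {C : Type*} [AddCommGroup C] (F : ι → C)
    (f : AddMonoidAlgebra ℤ ι) : monEval F f = f.coeff.sum fun i r => r • F i := by
  simp only [monEval, AddMonoidHom.comp_apply]
  rfl

/-- a type with trivial action -/
def TrivMod (C : Type*) := C

instance (C : Type*) [AddCommGroup C] : AddCommGroup (TrivMod C) := inferInstanceAs (AddCommGroup C)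

instance (Γ : Type*) [Group Γ] (C : Type*) [AddCommGroup C] : DistribMulAction Γ (TrivMod C) where
  smul _ c := c
  one_smul _ := rfl
  mul_smul _ _ _ := rfl
  smul_zero _ := rfl
  smul_add _ _ _ := rfl

/-- The infinite cyclic group acts on `ℤ[s^±1, u^±1]` by multiplication by `s u`. -/
noncomputable instance actR2 : DistribMulAction (Multiplicative ℤ) R2 where
  smul k v := AddMonoidAlgebra.single (k.toAdd, k.toAdd) 1 * v
  one_smul v := by
    show AddMonoidAlgebra.single ((0 : ℤ), (0 : ℤ)) (1 : ℤ) * v = v
    rw [← Prod.zero_eq_mk, ← AddMonoidAlgebra.one_def, one_mul]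
  mul_smul x y v := by
    show AddMonoidAlgebra.single (x.toAdd + y.toAdd, x.toAdd + y.toAdd) (1 : ℤ) * v =
      AddMonoidAlgebra.single (x.toAdd, x.toAdd) 1 *
        (AddMonoidAlgebra.single (y.toAdd, y.toAdd) 1 * v)
    rw [← mul_assoc, AddMonoidAlgebra.single_mul_single, one_mul, Prod.mk_add_mk]
  smul_zero x := mul_zero _
  smul_add x a b := mul_add _ _ _

theorem actR2_def (k : Multiplicative ℤ) (v : R2) :
    k • v = AddMonoidAlgebra.single (k.toAdd, k.toAdd) 1 * v := rfl

/-- The infinite cyclic group acts on `ℤ[T, T⁻¹]` by multiplication by `T`. -/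
noncomputable instance actZT : DistribMulAction (Multiplicative ℤ) ℤ[T;T⁻¹] where
  smul k v := T k.toAdd * v
  one_smul v := by
    show T (0 : ℤ) * v = v
    rw [T_zero, one_mul]
  mul_smul x y v := by
    show T (x.toAdd + y.toAdd) * v = T x.toAdd * (T y.toAdd * v)
    rw [T_add, mul_assoc]
  smul_zero x := mul_zero _
  smul_add x a b := mul_add _ _ _

theorem actZT_def (k : Multiplicative ℤ) (v : ℤ[T;T⁻¹]) : k • v = T k.toAdd * v := rfl

/-- `T ↦ s` -/
noncomputable def iS : ℤ[T;T⁻¹] →+* R2 :=
  AddMonoidAlgebra.mapDomainRingHom ℤ (AddMonoidHom.inl ℤ ℤ)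

/-- `T ↦ u` -/
noncomputable def iU : ℤ[T;T⁻¹] →+* R2 :=
  AddMonoidAlgebra.mapDomainRingHom ℤ (AddMonoidHom.inr ℤ ℤ)

theorem iS_single (i r : ℤ) : iS (AddMonoidAlgebra.single i r) = AddMonoidAlgebra.single (i, 0) r := by
  simp only [iS, AddMonoidAlgebra.mapDomainRingHom_apply, AddMonoidAlgebra.mapDomain_single]
  rfl

theorem iU_single (i r : ℤ) : iU (AddMonoidAlgebra.single i r) = AddMonoidAlgebra.single (0, i) r := by
  simp only [iU, AddMonoidAlgebra.mapDomainRingHom_apply, AddMonoidAlgebra.mapDomain_single]
  rfl

theorem T_eq_single (i : ℤ) : (T i : ℤ[T;T⁻¹]) = AddMonoidAlgebra.single i 1 := rfl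

/-- The universal pairing `ℤ[T^±1] × ℤ[T^±1] → ℤ[s^±1, u^±1]`. -/
noncomputable def univP : PairD (Multiplicative ℤ) ℤ[T;T⁻¹] ℤ[T;T⁻¹] R2 where
  β := AddMonoidHom.mk' (fun d => AddMonoidHom.mk' (fun b => iS d * iU b)
      (fun b b' => by rw [map_add, mul_add]))
      (fun d d' => AddMonoidHom.ext fun b => by
        show iS (d + d') * iU b = iS d * iU b + iS d' * iU b
        rw [map_add, add_mul])
  equi g d b := by
    show AddMonoidAlgebra.single (g.toAdd, g.toAdd) 1 * (iS d * iU b) =
      iS (T g.toAdd * d) * iU (T g.toAdd * b)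
    rw [map_mul, map_mul, T_eq_single, iS_single, iU_single]
    have h : (AddMonoidAlgebra.single (g.toAdd, g.toAdd) 1 : R2) =
      AddMonoidAlgebra.single (g.toAdd, 0) 1 * AddMonoidAlgebra.single (0, g.toAdd) 1 := by
      rw [AddMonoidAlgebra.single_mul_single, one_mul, Prod.mk_add_mk, add_zero, zero_add]
    rw [h]
    ring

theorem univP_β (d b : ℤ[T;T⁻¹]) : univP.β d b = iS d * iU b := rfl

/-! ### Relations -/

section relations

variable {Γ : Type u} {D : Type v} {B : Type w} {C : Type x} [Group Γ] [AddCommGroup D]
    [AddCommGroup B] [AddCommGroup C] [DistribMulAction Γ D] [DistribMulAction Γ B]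
    [DistribMulAction Γ C]

theorem act_zsmul {Γ : Type*} {M : Type*} [Group Γ] [AddCommGroup M] [DistribMulAction Γ M]
    (g : Γ) (n : ℤ) (x : M) : g • n • x = n • g • x :=
  map_zsmul (DistribSMul.toAddMonoidHom M g) n x

/-- the value `∑ c_ij β(t^i d, t^j b)` -/
noncomputable def evT (P : PairD Γ D B C) (t : Γ) (d : D) (b : B) : R2 →+ C :=
  monEval fun ij => P.β (t ^ ij.1 • d) (t ^ ij.2 • b)

theorem evT_single (P : PairD Γ D B C) (t : Γ) (d : D) (b : B) (i j r : ℤ) :
    evT P t d b (AddMonoidAlgebra.single (i, j) r) = r • P.β (t ^ i • d) (t ^ j • b) :=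
  monEval_single _ _ _

/-- the homomorphism from the group of the universal pairing -/
noncomputable def univMap (P : PairD Γ D B C) (t : Γ) (d : D) (b : B) :
    Trip univP →* Trip P :=
  Trip.map (zpowersHom Γ t) (monEval fun i => t ^ i • d) (monEval fun i => t ^ i • b)
    (evT P t d b)
    (by
      intro g v
      rw [actZT_def]
      induction v using AddMonoidAlgebra.induction_linear with
      | zero => simp
      | add x y hx hy => rw [mul_add, map_add, hx, hy, map_add, smul_add]
      | single i r =>
        rw [T_eq_single, AddMonoidAlgebra.single_mul_single, monEval_single, monEval_single,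
          one_mul, act_zsmul, smul_smul, zpow_add]
        rfl)
    (by
      intro g v
      rw [actZT_def]
      induction v using AddMonoidAlgebra.induction_linear with
      | zero => simp
      | add x y hx hy => rw [mul_add, map_add, hx, hy, map_add, smul_add]
      | single i r =>
        rw [T_eq_single, AddMonoidAlgebra.single_mul_single, monEval_single, monEval_single,
          one_mul, act_zsmul, smul_smul, zpow_add]
        rfl)
    (by
      intro g v
      rw [actR2_def]
      induction v using AddMonoidAlgebra.induction_linear with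
      | zero => simp
      | add x y hx hy => rw [mul_add, map_add, hx, hy, map_add, smul_add]
      | single ij r =>
        obtain ⟨i, j⟩ := ij
        rw [AddMonoidAlgebra.single_mul_single, Prod.mk_add_mk, evT_single, evT_single,
          one_mul, act_zsmul, P.equi, smul_smul, smul_smul, zpow_add, zpow_add]
        rfl)
    (by
      intro d' b'
      rw [univP_β]
      induction d' using AddMonoidAlgebra.induction_linear with
      | zero => simp
      | add x y hx hy =>
        rw [map_add, add_mul, map_add, hx, hy, map_add, map_add, AddMonoidHom.add_apply]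
      | single i r =>
        induction b' using AddMonoidAlgebra.induction_linear with
        | zero => simp
        | add x y hx hy =>
          rw [map_add, mul_add, map_add, hx, hy, map_add, map_add]
        | single j r' =>
          rw [iS_single, iU_single, AddMonoidAlgebra.single_mul_single, Prod.mk_add_mk,
            add_zero, zero_add, evT_single, monEval_single, monEval_single, map_zsmul,
            map_zsmul, AddMonoidHom.zsmul_apply, smul_smul, mul_comm])

variable (L) in
/-- the ideal of relations -/
noncomputable def Wid : Ideal R2 where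
  carrier := {f | (⟨1, 0, 0, f⟩ : Trip univP) ∈ verbal L (Trip univP)}
  add_mem' := by
    intro f g hf hg
    have hf' : (⟨1, 0, 0, f⟩ : Trip univP) ∈ verbal L (Trip univP) := hf
    have hg' : (⟨1, 0, 0, g⟩ : Trip univP) ∈ verbal L (Trip univP) := hg
    show (⟨1, 0, 0, f + g⟩ : Trip univP) ∈ verbal L (Trip univP)
    have := mul_mem hf' hg'
    convert this using 1
    ext1 <;> simp
  zero_mem' := by
    show (⟨1, 0, 0, 0⟩ : Trip univP) ∈ verbal L (Trip univP)
    exact one_mem _
  smul_mem' := by
    intro c f hf
    show (⟨1, 0, 0, c * f⟩ : Trip univP) ∈ verbal L (Trip univP)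
    induction c using AddMonoidAlgebra.induction_linear with
    | zero =>
      rw [zero_mul]
      exact one_mem _
    | add x y hx hy =>
      have := mul_mem hx hy
      convert this using 1
      rw [add_mul]
      ext1 <;> simp
    | single ij r =>
      obtain ⟨i, j⟩ := ij
      -- the endomorphism `d ↦ T^i d`, `b ↦ T^j b`
      let ψ : Trip univP →* Trip univP :=
        Trip.map (MonoidHom.id _) (AddMonoidHom.mulLeft (T i)) (AddMonoidHom.mulLeft (T j))
          (AddMonoidHom.mulLeft (AddMonoidAlgebra.single (i, j) 1))
          (by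
            intro g d
            simp only [AddMonoidHom.coe_mulLeft, actZT_def, MonoidHom.id_apply]
            ring)
          (by
            intro g d
            simp only [AddMonoidHom.coe_mulLeft, actZT_def, MonoidHom.id_apply]
            ring)
          (by
            intro g d
            simp only [AddMonoidHom.coe_mulLeft, actR2_def, MonoidHom.id_apply]
            ring)
          (by
            intro d b
            simp only [AddMonoidHom.coe_mulLeft, univP_β, map_mul, T_eq_single, iS_single,
              iU_single]
            have h : (AddMonoidAlgebra.single (i, j) 1 : R2) =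
              AddMonoidAlgebra.single (i, 0) 1 * AddMonoidAlgebra.single (0, j) 1 := by
              rw [AddMonoidAlgebra.single_mul_single, one_mul, Prod.mk_add_mk, add_zero, zero_add]
            rw [h]
            ring)
      have h1 := verbal_map ψ hf
      have h2 : ψ (⟨1, 0, 0, f⟩ : Trip univP) =
          ⟨1, 0, 0, AddMonoidAlgebra.single (i, j) 1 * f⟩ := by
        ext1
        · rfl
        · exact mul_zero _
        · exact mul_zero _
        · rfl
      rw [h2] at h1
      have h3 := zpow_mem h1 r
      have h4 : ∀ (n : ℤ) (g : R2), (⟨1, 0, 0, g⟩ : Trip univP) ^ n = ⟨1, 0, 0, n • g⟩ := by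
        intro n g
        let κ : Multiplicative R2 →* Trip univP :=
          MonoidHom.mk' (fun x => ⟨1, 0, 0, x.toAdd⟩) (by
            intro a b
            ext1 <;> simp)
        exact (map_zpow κ (Multiplicative.ofAdd g) n).symm
      rw [h4] at h3
      convert h3 using 2
      rw [← smul_mul_assoc, AddMonoidAlgebra.smul_single, smul_eq_mul, mul_one]

theorem mem_Wid {f : R2} : f ∈ Wid L ↔ (⟨1, 0, 0, f⟩ : Trip univP) ∈ verbal L (Trip univP) :=
  Iff.rfl

theorem relation {P : PairD Γ D B C} (h : Sat L (Trip P)) (t : Γ) (d : D) (b : B) {f : R2}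
    (hf : f ∈ Wid L) : evT P t d b f = 0 :=
  congrArg Trip.c (map_verbal_eq_one h (univMap P t d b) hf)

theorem phi_mem_Wid (k : ℕ) {f : R2} (hf : f ∈ Wid L) : phi k f ∈ Wid L := by
  let mk : ℤ[T;T⁻¹] →+* ℤ[T;T⁻¹] :=
    AddMonoidAlgebra.mapDomainRingHom ℤ ((k : ℤ) • AddMonoidHom.id ℤ)
  have hmk : ∀ i r : ℤ, mk (AddMonoidAlgebra.single i r) = AddMonoidAlgebra.single (k * i) r := by
    intro i r
    simp only [mk, AddMonoidAlgebra.mapDomainRingHom_apply, AddMonoidAlgebra.mapDomain_single]
    simp
  have hphi : ∀ i j r : ℤ, phi k (AddMonoidAlgebra.single (i, j) r) =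
      AddMonoidAlgebra.single ((k : ℤ) * i, (k : ℤ) * j) r := by
    intro i j r
    simp only [phi, AddMonoidAlgebra.mapDomainRingHom_apply, AddMonoidAlgebra.mapDomain_single]
    simp
  let ψ : Trip univP →* Trip univP :=
    Trip.map (powMonoidHom k) mk.toAddMonoidHom mk.toAddMonoidHom (phi k).toAddMonoidHom
      (by
        intro g d
        show mk (T g.toAdd * d) = T (g ^ k).toAdd * mk d
        rw [map_mul, T_eq_single, hmk, T_eq_single, toAdd_pow, nsmul_eq_mul])
      (by
        intro g d
        show mk (T g.toAdd * d) = T (g ^ k).toAdd * mk d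
        rw [map_mul, T_eq_single, hmk, T_eq_single, toAdd_pow, nsmul_eq_mul])
      (by
        intro g d
        show phi k (AddMonoidAlgebra.single (g.toAdd, g.toAdd) 1 * d) =
          AddMonoidAlgebra.single ((g ^ k).toAdd, (g ^ k).toAdd) 1 * phi k d
        rw [map_mul, hphi, toAdd_pow, nsmul_eq_mul])
      (by
        intro d b
        show phi k (iS d * iU b) = iS (mk d) * iU (mk b)
        rw [map_mul]
        congr 1
        · induction d using AddMonoidAlgebra.induction_linear with
          | zero => simp
          | add x y hx hy => simp only [map_add, hx, hy]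
          | single i r => rw [iS_single, hphi, hmk, iS_single, mul_zero]
        · induction b using AddMonoidAlgebra.induction_linear with
          | zero => simp
          | add x y hx hy => simp only [map_add, hx, hy]
          | single i r => rw [iU_single, hphi, hmk, iU_single, mul_zero])
  have h1 := verbal_map ψ hf
  have h2 : ψ (⟨1, 0, 0, f⟩ : Trip univP) = ⟨1, 0, 0, phi k f⟩ := by
    ext1
    · exact map_one _
    · exact map_zero _
    · exact map_zero _
    · rfl
  rw [h2] at h1
  exact h1

end relations

end Pool.Agent.FGRF
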