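import Mathlib
import Pool.Agent.Lib_helper35.FGRF.Rel

/-!
# Division by products of `s^a v^b - 1`, and evaluation of relations on pairings
-/

set_option autoImplicit false

namespace Pool.Agent.FGRF

open LaurentPolynomial Interface

/-- the span of `s^i v^j`, `0 ≤ i < n`, with `v = s u` -/
noncomputable def PN (n : ℕ) : AddSubgroup R2 :=
  AddSubgroup.closure {f | ∃ (i : ℕ) (j : ℤ), i < n ∧
    f = AddMonoidAlgebra.single ((i : ℤ) + j, j) (1 : ℤ)}

theorem single_mem_PN {n i : ℕ} (hi : i < n) (j : ℤ) :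
    (AddMonoidAlgebra.single ((i : ℤ) + j, j) (1 : ℤ) : R2) ∈ PN n :=
  AddSubgroup.subset_closure ⟨i, j, hi, rfl⟩

theorem PN_mono {m n : ℕ} (h : m ≤ n) : PN m ≤ PN n := by
  rw [PN, AddSubgroup.closure_le]
  rintro _ ⟨i, j, hi, rfl⟩
  exact single_mem_PN (lt_of_lt_of_le hi h) j

theorem PN_mul {m n : ℕ} {f g : R2} (hf : f ∈ PN (m + 1)) (hg : g ∈ PN n) : f * g ∈ PN (m + n) := by
  induction hf using AddSubgroup.closure_induction with
  | zero => rw [zero_mul]; exact zero_mem _
  | add x y _ _ hx hy => rw [add_mul]; exact add_mem hx hy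
  | neg x _ hx => rw [neg_mul]; exact neg_mem hx
  | mem x hx =>
    obtain ⟨i, j, hi, rfl⟩ := hx
    induction hg using AddSubgroup.closure_induction with
    | zero => rw [mul_zero]; exact zero_mem _
    | add x y _ _ hx hy => rw [mul_add]; exact add_mem hx hy
    | neg x _ hx => rw [mul_neg]; exact neg_mem hx
    | mem y hy =>
      obtain ⟨i', j', hi', rfl⟩ := hy
      rw [AddMonoidAlgebra.single_mul_single, one_mul, Prod.mk_add_mk]
      have h : (i : ℤ) + j + (i' + j') = ((i + i' : ℕ) : ℤ) + (j + j') := by push_cast; ring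
      rw [h]
      exact single_mem_PN (by omega) _

/-- the element `s^a v^b - 1` -/
noncomputable def gel (x : ℕ × ℤ) : R2 :=
  AddMonoidAlgebra.single (((x.1 : ℤ) + x.2, x.2) : ℤ × ℤ) (1 : ℤ) - 1

theorem gel_mem (x : ℕ × ℤ) : gel x ∈ PN (x.1 + 1) := by
  refine sub_mem (single_mem_PN (Nat.lt_succ_self _) _) ?_
  have h : (1 : R2) = AddMonoidAlgebra.single (((0 : ℕ) : ℤ) + 0, 0) (1 : ℤ) := by
    rw [Nat.cast_zero, add_zero]; rfl
  rw [h]
  exact single_mem_PN (Nat.succ_pos _) 0

theorem prod_gel_mem (l : List (ℕ × ℤ)) : (l.map gel).prod ∈ PN ((l.map Prod.fst).sum + 1) := by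
  induction l with
  | nil =>
    simp only [List.map_nil, List.prod_nil, List.sum_nil]
    have h : (1 : R2) = AddMonoidAlgebra.single (((0 : ℕ) : ℤ) + 0, 0) (1 : ℤ) := by
      rw [Nat.cast_zero, add_zero]; rfl
    rw [h]
    exact single_mem_PN (Nat.succ_pos _) 0
  | cons x l ih =>
    simp only [List.map_cons, List.prod_cons, List.sum_cons]
    rw [add_assoc]
    exact PN_mul (gel_mem x) ih

theorem quot_zsmul {I : Ideal R2} {x : ℤ × ℤ}
    (h : Ideal.Quotient.mk I (AddMonoidAlgebra.single x (1 : ℤ)) = 1) (q : ℤ) :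
    Ideal.Quotient.mk I (AddMonoidAlgebra.single (q • x) (1 : ℤ)) = 1 := by
  have hneg : Ideal.Quotient.mk I (AddMonoidAlgebra.single (-x) (1 : ℤ)) = 1 := by
    have h1 : Ideal.Quotient.mk I (AddMonoidAlgebra.single (-x) (1 : ℤ)) *
        Ideal.Quotient.mk I (AddMonoidAlgebra.single x (1 : ℤ)) = 1 := by
      rw [← map_mul, AddMonoidAlgebra.single_mul_single, one_mul, neg_add_cancel,
        ← AddMonoidAlgebra.one_def, map_one]
    rwa [h, mul_one] at h1
  induction q using Int.induction_on with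
  | zero => rw [zero_smul, ← AddMonoidAlgebra.one_def, map_one]
  | succ i ih =>
    have h1 : (AddMonoidAlgebra.single (((i : ℤ) + 1) • x) (1 : ℤ) : R2) =
        AddMonoidAlgebra.single ((i : ℤ) • x) (1 : ℤ) * AddMonoidAlgebra.single x (1 : ℤ) := by
      rw [AddMonoidAlgebra.single_mul_single, one_mul, add_smul, one_smul]
    rw [h1, map_mul, ih, h, one_mul]
  | pred i ih =>
    have h1 : (AddMonoidAlgebra.single ((-(i : ℤ) - 1) • x) (1 : ℤ) : R2) =
        AddMonoidAlgebra.single (-(i : ℤ) • x) (1 : ℤ) * AddMonoidAlgebra.single (-x) (1 : ℤ) := by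
      rw [AddMonoidAlgebra.single_mul_single, one_mul, sub_smul, one_smul, sub_eq_add_neg]
    rw [h1, map_mul, ih, hneg, one_mul]

/-- division by `s^a v^b - 1` -/
theorem div_gel {x : ℕ × ℤ} (hx : 1 ≤ x.1) (f : R2) :
    ∃ p ∈ PN x.1, ∃ g : R2, f = p + gel x * g := by
  induction f using AddMonoidAlgebra.induction_linear with
  | zero => exact ⟨0, zero_mem _, 0, by simp⟩
  | add f g hf hg =>
    obtain ⟨p, hp, h, rfl⟩ := hf
    obtain ⟨p', hp', h', rfl⟩ := hg
    exact ⟨p + p', add_mem hp hp', h + h', by ring⟩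
  | single ij r =>
    obtain ⟨i, j⟩ := ij
    obtain ⟨a, b⟩ := x
    simp only at hx ⊢
    -- `i - j = a q + e`
    have ha : (0 : ℤ) < a := by exact_mod_cast hx
    set q : ℤ := (i - j) / a with hq
    set e : ℤ := (i - j) % a with he
    have he0 : 0 ≤ e := Int.emod_nonneg _ ha.ne'
    have hea : e < a := Int.emod_lt_of_pos _ ha
    have hdiv : (i - j) = a * q + e := (Int.mul_ediv_add_emod (i - j) a).symm
    obtain ⟨m, hm⟩ := Int.eq_ofNat_of_zero_le he0
    have hma : m < a := by
      have : (m : ℤ) < a := by rw [← hm]; exact hea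
      exact_mod_cast this
    have key : (AddMonoidAlgebra.single (i, j) (1 : ℤ) : R2) -
        AddMonoidAlgebra.single ((m : ℤ) + (j - q * b), j - q * b) (1 : ℤ) ∈
        Ideal.span {gel (a, b)} := by
      rw [← Ideal.Quotient.eq_zero_iff_mem, map_sub, sub_eq_zero]
      have h1 : Ideal.Quotient.mk (Ideal.span {gel (a, b)})
          (AddMonoidAlgebra.single ((a : ℤ) + b, b) (1 : ℤ)) = 1 := by
        rw [← sub_eq_zero, ← map_one (Ideal.Quotient.mk _), ← map_sub,
          Ideal.Quotient.eq_zero_iff_mem]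
        exact Ideal.subset_span rfl
      have h2 := quot_zsmul h1 q
      have h3 : (AddMonoidAlgebra.single (i, j) (1 : ℤ) : R2) =
          AddMonoidAlgebra.single (q • ((a : ℤ) + b, b)) (1 : ℤ) *
          AddMonoidAlgebra.single ((m : ℤ) + (j - q * b), j - q * b) (1 : ℤ) := by
        rw [AddMonoidAlgebra.single_mul_single, one_mul]
        congr 1
        ext
        · show i = q * (a + b) + (m + (j - q * b))
          have hm' : (m : ℤ) = e := hm.symm
          rw [hm']
          linarith [hdiv, mul_comm (a : ℤ) q, mul_add q (a : ℤ) b]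
        · show j = q * b + (j - q * b)
          ring
      rw [h3, map_mul, h2, one_mul]
    rw [Ideal.mem_span_singleton'] at key
    obtain ⟨g, hg⟩ := key
    refine ⟨r • AddMonoidAlgebra.single ((m : ℤ) + (j - q * b), j - q * b) (1 : ℤ),
      zsmul_mem (single_mem_PN hma _) r, r • g, ?_⟩
    have h4 : (AddMonoidAlgebra.single (i, j) r : R2) = r • AddMonoidAlgebra.single (i, j) (1 : ℤ) := by
      rw [AddMonoidAlgebra.smul_single, smul_eq_mul, mul_one]
    rw [h4, mul_smul_comm, ← smul_add, mul_comm (gel (a, b)) g, hg]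
    congr 1
    ring

/-- division by a product of elements `s^a v^b - 1` -/
theorem div_prod_gel (l : List (ℕ × ℤ)) (hl : ∀ x ∈ l, 1 ≤ x.1) (f : R2) :
    ∃ p ∈ PN (l.map Prod.fst).sum, ∃ g : R2, f = p + (l.map gel).prod * g := by
  induction l generalizing f with
  | nil => exact ⟨0, zero_mem _, f, by simp⟩
  | cons x l ih =>
    obtain ⟨p, hp, g, rfl⟩ := ih (fun y hy => hl y (List.mem_cons_of_mem _ hy)) f
    obtain ⟨p', hp', g', rfl⟩ := div_gel (hl x List.mem_cons_self) g
    refine ⟨p + (l.map gel).prod * p', add_mem (PN_mono ?_ hp) ?_, g', ?_⟩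
    · rw [List.map_cons, List.sum_cons]
      exact Nat.le_add_left _ _
    · rw [List.map_cons, List.sum_cons, add_comm x.1]
      exact PN_mul (prod_gel_mem l) hp'
    · rw [List.map_cons, List.prod_cons]
      ring

/-! ### Evaluation -/

universe u v w x

variable {Γ : Type u} {D : Type v} {B : Type w} {C : Type x} [Group Γ] [AddCommGroup D]
    [AddCommGroup B] [AddCommGroup C] [DistribMulAction Γ D] [DistribMulAction Γ B]
    [DistribMulAction Γ C]

theorem evT_v (P : PairD Γ D B C) (t : Γ) (d : D) (b : B) (n : ℤ) (f : R2) :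
    evT P t d b (AddMonoidAlgebra.single (n, n) 1 * f) = t ^ n • evT P t d b f := by
  induction f using AddMonoidAlgebra.induction_linear with
  | zero => simp
  | add x y hx hy => rw [mul_add, map_add, hx, hy, map_add, smul_add]
  | single ij r =>
    obtain ⟨i, j⟩ := ij
    rw [AddMonoidAlgebra.single_mul_single, Prod.mk_add_mk, evT_single, evT_single, one_mul,
      act_zsmul, P.equi, smul_smul, smul_smul, zpow_add, zpow_add]

theorem evT_s (P : PairD Γ D B C) (t : Γ) (d : D) (b : B) (n : ℤ) (f : R2) :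
    evT P t d b (AddMonoidAlgebra.single (n, 0) 1 * f) = evT P t (t ^ n • d) b f := by
  induction f using AddMonoidAlgebra.induction_linear with
  | zero => simp
  | add x y hx hy => rw [mul_add, map_add, hx, hy, map_add]
  | single ij r =>
    obtain ⟨i, j⟩ := ij
    rw [AddMonoidAlgebra.single_mul_single, Prod.mk_add_mk, evT_single, evT_single, one_mul,
      smul_smul, ← zpow_add, zero_add, add_comm]

theorem evT_sub (P : PairD Γ D B C) (t : Γ) (d d' : D) (b : B) (f : R2) :
    evT P t (d - d') b f = evT P t d b f - evT P t d' b f := by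
  induction f using AddMonoidAlgebra.induction_linear with
  | zero => simp
  | add x y hx hy => rw [map_add, hx, hy, map_add, map_add]; abel
  | single ij r =>
    obtain ⟨i, j⟩ := ij
    rw [evT_single, evT_single, evT_single, smul_sub, map_sub, AddMonoidHom.sub_apply, smul_sub]

/-- the operator `t^n - 1` -/
def opn {M : Type*} [AddCommGroup M] [DistribMulAction Γ M] (t : Γ) (n : ℕ) (m : M) : M :=
  t ^ n • m - m

theorem opn_iterate_zero {M : Type*} [AddCommGroup M] [DistribMulAction Γ M] (t : Γ) (n r : ℕ) :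
    (opn t n)^[r] (0 : M) = 0 := by
  induction r with
  | zero => rfl
  | succ r ih =>
    rw [Function.iterate_succ_apply]
    have : opn t n (0 : M) = 0 := by simp [opn]
    rw [this, ih]

theorem evT_v_pow (P : PairD Γ D B C) (t : Γ) (d : D) (b : B) (n r : ℕ) (f : R2) :
    evT P t d b ((AddMonoidAlgebra.single ((n : ℤ), (n : ℤ)) 1 - 1) ^ r * f) =
      (opn t n)^[r] (evT P t d b f) := by
  induction r generalizing f with
  | zero => rw [pow_zero, one_mul]; rfl
  | succ r ih =>
    rw [pow_succ, mul_assoc, ih, Function.iterate_succ_apply]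
    congr 1
    rw [sub_mul, one_mul, map_sub, evT_v, opn, zpow_natCast]

theorem evT_s_pow (P : PairD Γ D B C) (t : Γ) (d : D) (b : B) (n r : ℕ) (f : R2) :
    evT P t d b ((AddMonoidAlgebra.single ((n : ℤ), (0 : ℤ)) 1 - 1) ^ r * f) =
      evT P t ((opn t n)^[r] d) b f := by
  induction r generalizing d with
  | zero => rw [pow_zero, one_mul]; rfl
  | succ r ih =>
    rw [pow_succ', mul_assoc, sub_mul, one_mul, map_sub, evT_s, Function.iterate_succ_apply,
      ← evT_sub, ih, opn, zpow_natCast]

theorem evT_one (P : PairD Γ D B C) (t : Γ) (d : D) (b : B) : evT P t d b 1 = P.β d b := by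
  have : (1 : R2) = AddMonoidAlgebra.single ((0 : ℤ), (0 : ℤ)) (1 : ℤ) := rfl
  rw [this, evT_single, zpow_zero, one_smul, one_smul, one_smul]

theorem evT_mem_PN (P : PairD Γ D B C) (t : Γ) (d : D) (b : B) {n : ℕ} {f : R2}
    (hf : f ∈ PN n) (U : AddSubgroup C)
    (hU : ∀ (j : ℤ) (i : ℕ), i < n → t ^ j • P.β (t ^ i • d) b ∈ U) : evT P t d b f ∈ U := by
  induction hf using AddSubgroup.closure_induction with
  | zero => rw [map_zero]; exact zero_mem _
  | add x y _ _ hx hy => rw [map_add]; exact add_mem hx hy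
  | neg x _ hx => rw [map_neg]; exact neg_mem hx
  | mem x hx =>
    obtain ⟨i, j, hi, rfl⟩ := hx
    have h : (AddMonoidAlgebra.single ((i : ℤ) + j, j) (1 : ℤ) : R2) =
        AddMonoidAlgebra.single (j, j) 1 * (AddMonoidAlgebra.single ((i : ℤ), 0) 1 * 1) := by
      rw [mul_one, AddMonoidAlgebra.single_mul_single, one_mul, Prod.mk_add_mk, add_zero, add_comm]
    rw [h, evT_v, evT_s, evT_one, zpow_natCast]
    exact hU j i hi

end Pool.Agent.FGRF
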