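import Mathlib
import Pool.Agent.Lib_helper35.FGRF.Rel
import Pool.Agent.Lib_helper46.FGRF.GroupX

/-!
# If `X p` does not satisfy the laws, then some relation does not vanish under `ev p`
-/

set_option autoImplicit false

namespace Pool.Agent.FGRF

open LaurentPolynomial Interface

variable {L : Set (FreeGroup ℕ)}

theorem ev_single (p : ℕ) (i j r : ℤ) :
    ev p (AddMonoidAlgebra.single (i, j) r) = AddMonoidAlgebra.single (i - j) (r : ZMod p) := by
  simp only [ev, RingHom.comp_apply]
  rw [AddMonoidAlgebra.mapRingHom_single, AddMonoidAlgebra.mapDomainRingHom_apply,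
    AddMonoidAlgebra.mapDomain_single]
  simp

/-- reduction mod `p` -/
noncomputable def redp (p : ℕ) : ℤ[T;T⁻¹] →+ (ℤ →₀ ZMod p) :=
  monEval fun i => Finsupp.single i (1 : ZMod p)

theorem redp_single (p : ℕ) (i r : ℤ) :
    redp p (AddMonoidAlgebra.single i r) = Finsupp.single i (r : ZMod p) := by
  rw [redp, monEval_single, Finsupp.smul_single, zsmul_one]

/-- the coefficient map -/
noncomputable def cofp (p : ℕ) : R2 →+ ZMod p :=
  AddMonoidHom.mk' (fun f => (ev p f).coeff 0) (fun f g => by
    rw [map_add, AddMonoidAlgebra.coeff_add, Finsupp.add_apply])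

theorem cofp_apply (p : ℕ) (f : R2) : cofp p f = (ev p f).coeff 0 := rfl

theorem cofp_single (p : ℕ) (i j r : ℤ) :
    cofp p (AddMonoidAlgebra.single (i, j) r) = if i = j then (r : ZMod p) else 0 := by
  rw [cofp_apply, ev_single, AddMonoidAlgebra.coeff_single, Finsupp.single_apply]
  simp only [sub_eq_zero]

theorem ev_iS (p : ℕ) (d : ℤ[T;T⁻¹]) : (ev p (iS d)).coeff = redp p d := by
  induction d using AddMonoidAlgebra.induction_linear with
  | zero => simp
  | add x y hx hy => rw [map_add, map_add, AddMonoidAlgebra.coeff_add, hx, hy, map_add]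
  | single i r =>
    rw [iS_single, ev_single, redp_single, sub_zero, AddMonoidAlgebra.coeff_single]

theorem ev_iU (p : ℕ) (d : ℤ[T;T⁻¹]) (i : ℤ) : (ev p (iU d)).coeff (-i) = redp p d i := by
  induction d using AddMonoidAlgebra.induction_linear with
  | zero => simp
  | add x y hx hy =>
    rw [map_add, map_add, AddMonoidAlgebra.coeff_add, Finsupp.add_apply, hx, hy, map_add,
      Finsupp.add_apply]
  | single j r =>
    rw [iU_single, ev_single, redp_single, zero_sub, AddMonoidAlgebra.coeff_single,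
      Finsupp.single_apply, Finsupp.single_apply]
    simp only [neg_inj]

theorem redp_T_mul (p : ℕ) (k : ℤ) (d : ℤ[T;T⁻¹]) : redp p (T k * d) = shift k (redp p d) := by
  induction d using AddMonoidAlgebra.induction_linear with
  | zero => simp
  | add x y hx hy => rw [mul_add, map_add, map_add, hx, hy, shift_add]
  | single i r =>
    rw [T_eq_single, AddMonoidAlgebra.single_mul_single, redp_single, redp_single, shift_single,
      one_mul, add_comm]

theorem cofp_mul (p : ℕ) (k : ℤ) (c : R2) :
    cofp p (AddMonoidAlgebra.single (k, k) 1 * c) = cofp p c := by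
  rw [cofp_apply, map_mul, ev_single, cofp_apply, sub_self, Int.cast_one,
    ← AddMonoidAlgebra.one_def, one_mul]

theorem cofp_pair (p : ℕ) (d b : ℤ[T;T⁻¹]) :
    cofp p (iS d * iU b) = pair (redp p b) (redp p d) := by
  induction d using AddMonoidAlgebra.induction_linear with
  | zero => simp
  | add x y hx hy => rw [map_add, add_mul, map_add, hx, hy, map_add, pair_add_right]
  | single i r =>
    induction b using AddMonoidAlgebra.induction_linear with
    | zero => simp
    | add x y hx hy => rw [map_add, mul_add, map_add, hx, hy, map_add, pair_add_left]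
    | single j r' =>
      rw [iS_single, iU_single, AddMonoidAlgebra.single_mul_single, Prod.mk_add_mk, add_zero,
        zero_add, cofp_single, redp_single, redp_single, pair_single_left, Finsupp.single_apply]
      by_cases h : i = j
      · rw [if_pos h, if_pos h, Int.cast_mul, mul_comm]
      · rw [if_neg h, if_neg h, mul_zero]

/-- the homomorphism from the universal group onto `X p` -/
noncomputable def toX (p : ℕ) : Trip univP →* X p :=
  MonoidHom.mk' (fun x => ⟨x.g.toAdd, redp p x.d, redp p x.b, cofp p x.c⟩) (by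
    intro x y
    refine X.ext ?_ ?_ ?_ ?_
    · rfl
    · show redp p (x.d + T x.g.toAdd * y.d) = _
      rw [map_add, redp_T_mul]
      rfl
    · show redp p (x.b + T x.g.toAdd * y.b) = _
      rw [map_add, redp_T_mul]
      rfl
    · show cofp p (x.c + AddMonoidAlgebra.single (x.g.toAdd, x.g.toAdd) 1 * y.c +
        iS (T x.g.toAdd * y.d) * iU x.b) = _
      rw [map_add, map_add, cofp_mul, cofp_pair, redp_T_mul]
      rfl)

theorem redp_surjective (p : ℕ) : Function.Surjective (redp p) := by
  intro a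
  induction a using Finsupp.induction_linear with
  | zero => exact ⟨0, map_zero _⟩
  | add x y hx hy =>
    obtain ⟨x, rfl⟩ := hx
    obtain ⟨y, rfl⟩ := hy
    exact ⟨x + y, map_add _ _ _⟩
  | single i r =>
    obtain ⟨n, rfl⟩ := ZMod.intCast_surjective r
    exact ⟨AddMonoidAlgebra.single i n, redp_single p i n⟩

theorem toX_surjective (p : ℕ) : Function.Surjective (toX p) := by
  rintro ⟨k, a, b, c⟩
  obtain ⟨a, rfl⟩ := redp_surjective p a
  obtain ⟨b, rfl⟩ := redp_surjective p b
  obtain ⟨n, rfl⟩ := ZMod.intCast_surjective c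
  refine ⟨⟨Multiplicative.ofAdd k, a, b, AddMonoidAlgebra.single (0, 0) n⟩, ?_⟩
  refine X.ext rfl rfl rfl ?_
  show cofp p _ = _
  rw [cofp_single, if_pos rfl]

theorem iS_mem_Wid {d b : ℤ[T;T⁻¹]} {c : R2}
    (hx : (⟨1, d, b, c⟩ : Trip univP) ∈ verbal L (Trip univP)) : iS d ∈ Wid L := by
  rw [mem_Wid]
  have h := verbal_comm_right hx (⟨1, 0, 1, 0⟩ : Trip univP)
  convert h using 1
  ext1
  · simp
  · simp
  · simp
  · simp [univP_β]
    try ring

theorem iU_mem_Wid {d b : ℤ[T;T⁻¹]} {c : R2}
    (hx : (⟨1, d, b, c⟩ : Trip univP) ∈ verbal L (Trip univP)) : iU b ∈ Wid L := by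
  rw [mem_Wid]
  have h := verbal_comm_left hx (⟨1, 1, 0, 0⟩ : Trip univP)
  convert h using 1
  ext1
  · simp
  · simp
  · simp
  · simp [univP_β]
    try ring

theorem c_mem_Wid {d b : ℤ[T;T⁻¹]} {c : R2}
    (hx : (⟨1, d, b, c⟩ : Trip univP) ∈ verbal L (Trip univP)) : c ∈ Wid L := by
  have h1 : (⟨1, d, 0, 0⟩ : Trip univP) ∈ verbal L (Trip univP) := by
    let ψ : Trip univP →* Trip univP :=
      Trip.map (MonoidHom.id _) (AddMonoidHom.id _) 0 0 (by intro g d; rfl)
        (by intro g d; simp) (by intro g d; simp) (by intro d b; simp)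
    have := verbal_map ψ hx
    exact this
  have h2 : (⟨1, 0, b, 0⟩ : Trip univP) ∈ verbal L (Trip univP) := by
    let ψ : Trip univP →* Trip univP :=
      Trip.map (MonoidHom.id _) 0 (AddMonoidHom.id _) 0 (by intro g d; simp)
        (by intro g d; rfl) (by intro g d; simp) (by intro d b; simp)
    have := verbal_map ψ hx
    exact this
  rw [mem_Wid]
  have h3 := mul_mem (inv_mem (mul_mem h1 h2)) hx
  convert h3 using 1
  rw [eq_inv_mul_iff_mul_eq]
  ext1 <;> simp

/-- Block XR. -/
theorem exists_ev_ne_zero (p : ℕ) [Fact p.Prime] (h : ¬ Sat L (X p)) :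
    ∃ f ∈ Wid L, ev p f ≠ 0 := by
  by_contra hcon
  push Not at hcon
  apply h
  apply Sat.of_verbal_le (toX p) (toX_surjective p)
  rintro ⟨g, d, b, c⟩ hx
  have hg : g = 1 := by
    have h1 := verbal_comm_left hx (⟨1, 1, 0, 0⟩ : Trip univP)
    have h2 : (⟨g, d, b, c⟩ : Trip univP) * ⟨1, 1, 0, 0⟩ * (⟨g, d, b, c⟩ : Trip univP)⁻¹ *
        (⟨1, 1, 0, 0⟩ : Trip univP)⁻¹ = ⟨1, T g.toAdd - 1, 0,
          ((⟨g, d, b, c⟩ : Trip univP) * ⟨1, 1, 0, 0⟩ * (⟨g, d, b, c⟩ : Trip univP)⁻¹ *
        (⟨1, 1, 0, 0⟩ : Trip univP)⁻¹).c⟩ := by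
      ext1
      · simp
      · simp [actZT_def]
        ring
      · simp
      · rfl
    rw [h2] at h1
    have h3 := hcon _ (iS_mem_Wid h1)
    have h4 : ev p (iS (T g.toAdd - 1)) =
        AddMonoidAlgebra.single g.toAdd (1 : ZMod p) - AddMonoidAlgebra.single 0 (1 : ZMod p) := by
      rw [map_sub, map_sub, T_eq_single, iS_single, ev_single, sub_zero, Int.cast_one, map_one,
        map_one, ← AddMonoidAlgebra.one_def]
    rw [h4, sub_eq_zero] at h3
    have h5 := congrArg (fun f => AddMonoidAlgebra.coeff f 0) h3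
    simp only [AddMonoidAlgebra.coeff_single, Finsupp.single_eq_same] at h5
    by_contra hne
    have h6 : g.toAdd ≠ 0 := fun h => hne (by rwa [toAdd_eq_zero] at h)
    rw [Finsupp.single_apply, if_neg h6] at h5
    exact zero_ne_one h5
  subst hg
  have hd : redp p d = 0 := by
    rw [← ev_iS, hcon _ (iS_mem_Wid hx)]
    rfl
  have hb : redp p b = 0 := by
    ext i
    rw [← ev_iU, hcon _ (iU_mem_Wid hx)]
    rfl
  have hc : cofp p c = 0 := by
    rw [cofp_apply, hcon _ (c_mem_Wid hx)]
    rfl
  exact X.ext rfl hd hb hc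

end Pool.Agent.FGRF
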