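import Mathlib
import Pool.Agent.Lib_helper35.FGRF.PairAlg
import Pool.Agent.Lib_helper35.FGRF.XR
import Pool.Agent.Lib_helper46.FGRF.LI
import Pool.Agent.Lib_helper93.FGRF.PairDef

/-!
# Proof of `PBa` and `PBb`
-/

set_option autoImplicit false

namespace Pool.Agent.FGRF

open LaurentPolynomial Interface

universe u

namespace Pair

variable {G : Type u} [Group G] (S : Pair G)

instance : S.C₀.Normal := S.hC₀

/-- class modulo `C₀` -/
def q : G →* G ⧸ S.C₀ := QuotientGroup.mk' S.C₀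

theorem q_eq_one {x : G} : S.q x = 1 ↔ x ∈ S.C₀ := QuotientGroup.eq_one_iff x

theorem q_comm {x y : G} (h : cm x y ∈ S.C₀) : S.q x * S.q y = S.q y * S.q x := by
  have h1 : S.q (cm x y) = 1 := S.q_eq_one.2 h
  have h2 : S.q (cm x y) * (S.q y * S.q x) = S.q x * S.q y := by
    rw [← map_mul, ← map_mul, ← map_mul]
    congr 1
    unfold cm
    group
  rw [← h2, h1, one_mul]

theorem q_cm_mul_left {x x' d : G} (hx : x ∈ S.N) (hx' : x' ∈ S.N) (hd : d ∈ S.D) :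
    S.q (cm (x * x') d) = S.q (cm x d) * S.q (cm x' d) := by
  have h1 : S.q x * S.q (cm x' d) = S.q (cm x' d) * S.q x := S.q_comm (S.nc x hx _ (S.nd x' hx' d hd))
  have h2 : S.q (cm x' d) * S.q (cm x d) = S.q (cm x d) * S.q (cm x' d) :=
    S.q_comm (S.cc _ (S.nd x' hx' d hd) _ (S.nd x hx d hd))
  have h3 : cm (x * x') d = x * cm x' d * x⁻¹ * cm x d := by unfold cm; group
  rw [h3, map_mul, map_mul, map_mul, h1, map_inv, mul_inv_cancel_right, h2]

theorem q_cm_mul_right {x d d' : G} (hx : x ∈ S.N) (hd : d ∈ S.D) (hd' : d' ∈ S.D) :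
    S.q (cm x (d * d')) = S.q (cm x d) * S.q (cm x d') := by
  have h1 : S.q d * S.q (cm x d') = S.q (cm x d') * S.q d := S.q_comm (S.dc d hd _ (S.nd x hx d' hd'))
  have h3 : cm x (d * d') = cm x d * (d * cm x d' * d⁻¹) := by unfold cm; group
  rw [h3, map_mul, map_mul, map_mul, h1, map_inv, mul_inv_cancel_right]

theorem q_cm_comm {x x' d d' : G} (hx : x ∈ S.N) (hx' : x' ∈ S.N) (hd : d ∈ S.D) (hd' : d' ∈ S.D) :
    S.q (cm x d) * S.q (cm x' d') = S.q (cm x' d') * S.q (cm x d) :=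
  S.q_comm (S.cc _ (S.nd x hx d hd) _ (S.nd x' hx' d' hd'))

theorem cm_one_left (d : G) : cm 1 d = 1 := by simp [cm]
theorem cm_one_right (d : G) : cm d 1 = 1 := by simp [cm]

theorem q_cm_inv_left {x d : G} (hx : x ∈ S.N) (hd : d ∈ S.D) :
    S.q (cm x⁻¹ d) = (S.q (cm x d))⁻¹ := by
  have h := S.q_cm_mul_left (inv_mem hx) hx hd
  rw [inv_mul_cancel, cm_one_left, map_one] at h
  exact eq_inv_of_mul_eq_one_left h.symm

theorem q_cm_inv_right {x d : G} (hx : x ∈ S.N) (hd : d ∈ S.D) :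
    S.q (cm x d⁻¹) = (S.q (cm x d))⁻¹ := by
  have h := S.q_cm_mul_right hx (inv_mem hd) hd
  rw [inv_mul_cancel, cm_one_right, map_one] at h
  exact eq_inv_of_mul_eq_one_left h.symm

/-- the kernel in `D` -/
def kerD : Subgroup G where
  carrier := {d | d ∈ S.D ∧ ∀ x ∈ S.N, S.q (cm x d) = 1}
  mul_mem' := by
    rintro a b ⟨ha, ha'⟩ ⟨hb, hb'⟩
    exact ⟨mul_mem ha hb, fun x hx => by rw [S.q_cm_mul_right hx ha hb, ha' x hx, hb' x hx, one_mul]⟩
  one_mem' := ⟨one_mem _, fun x hx => by rw [cm_one_right, map_one]⟩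
  inv_mem' := by
    rintro a ⟨ha, ha'⟩
    exact ⟨inv_mem ha, fun x hx => by rw [S.q_cm_inv_right hx ha, ha' x hx, inv_one]⟩

/-- the kernel in `N` -/
def kerN : Subgroup G where
  carrier := {x | x ∈ S.N ∧ ∀ d ∈ S.D, S.q (cm x d) = 1}
  mul_mem' := by
    rintro a b ⟨ha, ha'⟩ ⟨hb, hb'⟩
    exact ⟨mul_mem ha hb, fun x hx => by rw [S.q_cm_mul_left ha hb hx, ha' x hx, hb' x hx, one_mul]⟩
  one_mem' := ⟨one_mem _, fun x hx => by rw [cm_one_left, map_one]⟩
  inv_mem' := by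
    rintro a ⟨ha, ha'⟩
    exact ⟨inv_mem ha, fun x hx => by rw [S.q_cm_inv_left ha hx, ha' x hx, inv_one]⟩

theorem cm_conj (g x d : G) : cm x (g * d * g⁻¹) = g * cm (g⁻¹ * x * g) d * g⁻¹ := by
  unfold cm
  group

theorem cm_conj' (g x d : G) : cm (g * x * g⁻¹) d = g * cm x (g⁻¹ * d * g) * g⁻¹ := by
  unfold cm
  group

theorem kerD_normal : S.kerD.Normal where
  conj_mem := by
    rintro d ⟨hd, hd'⟩ g
    refine ⟨S.hD.conj_mem d hd g, fun x hx => ?_⟩
    rw [cm_conj, S.q_eq_one]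
    apply S.hC₀.conj_mem
    rw [← S.q_eq_one]
    have := S.hN.conj_mem x hx g⁻¹
    rw [inv_inv] at this
    exact hd' _ this

theorem kerN_normal : S.kerN.Normal where
  conj_mem := by
    rintro x ⟨hx, hx'⟩ g
    refine ⟨S.hN.conj_mem x hx g, fun d hd => ?_⟩
    rw [cm_conj', S.q_eq_one]
    apply S.hC₀.conj_mem
    rw [← S.q_eq_one]
    have := S.hD.conj_mem d hd g⁻¹
    rw [inv_inv] at this
    exact hx' _ this

/-- the associated pairing of sections -/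
def sec : SecPair G where
  D :=
    { A := S.D
      B := S.kerD
      hA := S.hD
      hB := S.kerD_normal
      le := fun _ h => h.1
      comm := fun d hd d' hd' =>
        ⟨mul_mem (mul_mem (mul_mem hd hd') (inv_mem hd)) (inv_mem hd'), fun x hx => by
          rw [S.q_cm_mul_right hx (mul_mem (mul_mem hd hd') (inv_mem hd)) (inv_mem hd'),
            S.q_cm_mul_right hx (mul_mem hd hd') (inv_mem hd), S.q_cm_mul_right hx hd hd',
            S.q_cm_inv_right hx hd, S.q_cm_inv_right hx hd', S.q_cm_comm hx hx hd hd']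
          group⟩ }
  N :=
    { A := S.N
      B := S.kerN
      hA := S.hN
      hB := S.kerN_normal
      le := fun _ h => h.1
      comm := fun x hx x' hx' =>
        ⟨mul_mem (mul_mem (mul_mem hx hx') (inv_mem hx)) (inv_mem hx'), fun d hd => by
          rw [S.q_cm_mul_left (mul_mem (mul_mem hx hx') (inv_mem hx)) (inv_mem hx') hd,
            S.q_cm_mul_left (mul_mem hx hx') (inv_mem hx) hd, S.q_cm_mul_left hx hx' hd,
            S.q_cm_inv_left hx hd, S.q_cm_inv_left hx' hd, S.q_cm_comm hx hx' hd hd]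
          group⟩ }
  C :=
    { A := S.C
      B := S.C₀
      hA := S.hC
      hB := S.hC₀
      le := S.le
      comm := S.cc }
  h1 := fun d hd x hx => S.nd x hx d hd
  h2 := fun d hd x hx => S.q_eq_one.1 (hd.2 x hx)
  h3 := fun d hd x hx => S.q_eq_one.1 (hx.2 d hd)
  h4 := fun c hc x hx => S.nc x hx c hc
  h5 := fun c hc d hd => S.dc d hd c hc

end Pair

theorem cg_mem {G : Type u} [Group G] {S : NSec G} (t : G) (n r : ℕ) {c : G} (hc : c ∈ S.A) :
    (cg t n)^[r] c ∈ S.A := by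
  induction r generalizing c with
  | zero => exact hc
  | succ r ih =>
    rw [Function.iterate_succ_apply]
    exact ih (mul_mem (S.hA.conj_mem c hc _) (inv_mem hc))

theorem cl_cg {G : Type u} [Group G] {S : NSec G} (t : G) (n r : ℕ) {c : G} (hc : c ∈ S.A) :
    (NSec.cl ((cg t n)^[r] c) (cg_mem t n r hc) : S.Mod) = (opn t n)^[r] (NSec.cl c hc) := by
  induction r generalizing c with
  | zero => rfl
  | succ r ih =>
    have h : cg t n c ∈ S.A := mul_mem (S.hA.conj_mem c hc _) (inv_mem hc)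
    have h1 := ih h
    rw [Function.iterate_succ_apply (opn t n)]
    have h2 : opn t n (NSec.cl c hc : S.Mod) = NSec.cl (cg t n c) h := by
      rw [opn, NSec.smul_cl, sub_eq_add_neg, ← NSec.cl_inv, ← NSec.cl_mul]
      rfl
    rw [h2, ← h1]
    apply NSec.cl_congr
    rw [Function.iterate_succ_apply]

theorem pba_sec {L : Set (FreeGroup ℕ)} {l : List (ℕ × ℤ)} (hl : ∀ x ∈ l, 1 ≤ x.1)
    (hW : (l.map gel).prod ∈ Wid L) {G : Type u} [Group G] (hG : Sat L G) (S : SecPair G)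
    (t : G) {d x : G} (hd : d ∈ S.D.A) (hx : x ∈ S.N.A) (k : ℤ) (K : Subgroup G)
    (hK0 : S.C.B ≤ K)
    (hK : ∀ (j : ℤ) (i : ℕ), i < (l.map Prod.fst).sum →
      t ^ j * cm x (t ^ i * d * (t ^ i)⁻¹) * (t ^ j)⁻¹ ∈ K) :
    cm x (t ^ k * d * (t ^ k)⁻¹) ∈ K := by
  have hsat := S.sat_trip hG
  have hmem : ∀ i : ℤ, cm x (t ^ i * d * (t ^ i)⁻¹) ∈ S.C.A := fun i =>
    S.h1 _ (S.D.hA.conj_mem d hd _) x hx
  -- the value as an element of the section
  have hval : ∀ (i : ℤ), (S.pairD.β (t ^ i • NSec.cl d hd) (NSec.cl x hx) : S.C.Mod) =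
      NSec.cl (cm x (t ^ i * d * (t ^ i)⁻¹)) (hmem i) := by
    intro i
    rw [NSec.smul_cl]
    exact S.β_cl (S.D.hA.conj_mem d hd _) hx
  obtain ⟨p, hp, g, hg⟩ := div_prod_gel l hl (AddMonoidAlgebra.single (k, 0) (1 : ℤ))
  have h1 : evT S.pairD t (NSec.cl d hd) (NSec.cl x hx) (AddMonoidAlgebra.single (k, 0) (1 : ℤ)) =
      evT S.pairD t (NSec.cl d hd) (NSec.cl x hx) p := by
    rw [hg, map_add, relation hsat t _ _ ((Wid L).mul_mem_right g hW), add_zero]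
  have h2 : evT S.pairD t (NSec.cl d hd) (NSec.cl x hx) p ∈ NSec.ofSub (S := S.C) K := by
    apply evT_mem_PN S.pairD t _ _ hp
    intro j i hi
    have h3 : S.pairD.β (t ^ i • NSec.cl d hd) (NSec.cl x hx) =
        NSec.cl (cm x (t ^ (i : ℤ) * d * (t ^ (i : ℤ))⁻¹)) (hmem i) := by
      rw [← hval, zpow_natCast]
    have h4 : (NSec.cl (cm x (t ^ (i : ℤ) * d * (t ^ (i : ℤ))⁻¹)) (hmem i) : S.C.Mod) =
      NSec.cl (cm x (t ^ i * d * (t ^ i)⁻¹)) (by simpa using hmem i) :=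
      NSec.cl_congr (by rw [zpow_natCast])
    rw [h3, h4, NSec.smul_cl]
    exact (NSec.cl_mem_ofSub hK0 _).2 (hK j i hi)
  rw [← h1, evT_single, one_smul, zpow_zero, one_smul, hval] at h2
  exact (NSec.cl_mem_ofSub hK0 _).1 h2

theorem pbb_sec {L : Set (FreeGroup ℕ)} {n r n' r' : ℕ}
    (hW : (AddMonoidAlgebra.single (((n' : ℤ), 0) : ℤ × ℤ) (1 : ℤ) - 1 : R2) ^ r' ∈
        Wid L ⊔ Ideal.span {(AddMonoidAlgebra.single (((n : ℤ), (n : ℤ)) : ℤ × ℤ) (1 : ℤ) - 1 : R2) ^ r})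
    {G : Type u} [Group G] (hG : Sat L G) (S : SecPair G)
    (t : G) (hC : ∀ c ∈ S.C.A, (cg t n)^[r] c ∈ S.C.B) {d x : G} (hd : d ∈ S.D.A)
    (hx : x ∈ S.N.A) : cm x ((cg t n')^[r'] d) ∈ S.C.B := by
  have hsat := S.sat_trip hG
  obtain ⟨w, hw, f, hf, hwf⟩ := Submodule.mem_sup.1 hW
  rw [Ideal.mem_span_singleton'] at hf
  obtain ⟨g, rfl⟩ := hf
  have h1 : evT S.pairD t (NSec.cl d hd) (NSec.cl x hx)
      ((AddMonoidAlgebra.single ((n' : ℤ), (0 : ℤ)) (1 : ℤ) - 1 : R2) ^ r' * 1) = 0 := by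
    rw [mul_one, ← hwf, map_add, relation hsat t _ _ hw, zero_add, mul_comm, evT_v_pow]
    obtain ⟨c, hc, h⟩ := NSec.cl_surjective
      (evT S.pairD t (NSec.cl d hd) (NSec.cl x hx) g)
    rw [h, ← cl_cg t n r hc, NSec.cl_eq_zero]
    exact hC c hc
  rw [evT_s_pow, evT_one, ← cl_cg t n' r' hd] at h1
  have h2 : (S.pairD.β (NSec.cl ((cg t n')^[r'] d) (cg_mem t n' r' hd)) (NSec.cl x hx) :
      S.C.Mod) = NSec.cl (cm x ((cg t n')^[r'] d)) (S.h1 _ (cg_mem (S := S.D) t n' r' hd) x hx) :=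
    S.β_cl _ _
  have h3 := h2.symm.trans h1
  exact NSec.cl_eq_zero.1 h3

theorem pba (L : Set (FreeGroup ℕ)) (hX : ∀ p : ℕ, p.Prime → ¬ Sat L (X p)) : PBa.{u} L := by
  obtain ⟨l, hl, hW⟩ := LI.lia (Wid L) (fun k _ f hf => phi_mem_Wid k hf)
    (fun p hp => by
      have : Fact p.Prime := ⟨hp⟩
      exact exists_ev_ne_zero p (hX p hp))
  refine ⟨(l.map Prod.fst).sum + 1, Nat.le_add_left _ _, ?_⟩
  intro G _ hG S t d hd x hx k
  exact pba_sec hl hW hG S.sec t hd hx k _ le_sup_left fun j i hi =>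
    Subgroup.mem_sup_right (Subgroup.subset_closure ⟨j, i, by omega, rfl⟩)

theorem pbb (L : Set (FreeGroup ℕ)) (hX : ∀ p : ℕ, p.Prime → ¬ Sat L (X p)) : PBb.{u} L := by
  intro n r hn
  obtain ⟨n', r', hn', hW⟩ := LI.lib (Wid L) (fun k _ f hf => phi_mem_Wid k hf)
    (fun p hp => by
      have : Fact p.Prime := ⟨hp⟩
      exact exists_ev_ne_zero p (hX p hp)) n r hn
  exact ⟨n', r', hn', fun G _ hG S t hC d hd x hx => pbb_sec hW hG S.sec t hC hd hx⟩

end Pool.Agent.FGRF
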