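import Mathlib

/-!
# Evaluation of Laurent polynomials at an automorphism
-/

set_option autoImplicit false

namespace Pool.Agent.FGRF

open LaurentPolynomial

section

variable {k : Type*} [CommRing k] {A : Type*} [AddCommGroup A] [Module k A]

/-- The algebra homomorphism `k[T, T⁻¹] → End_k(A)` sending `T` to the automorphism `τ`. -/
noncomputable def evL (τ : A ≃ₗ[k] A) : k[T;T⁻¹] →ₐ[k] Module.End k A :=
  AddMonoidAlgebra.lift k _ ℤ
    ((LinearEquiv.automorphismGroup.toLinearMapMonoidHom).comp (zpowersHom (A ≃ₗ[k] A) τ))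

theorem evL_T (τ : A ≃ₗ[k] A) (j : ℤ) (a : A) : evL τ (T j) a = (τ ^ j) a := by
  unfold evL T
  rw [AddMonoidAlgebra.lift_single, one_smul]
  rfl

theorem evL_apply (τ : A ≃ₗ[k] A) (w : k[T;T⁻¹]) (a : A) :
    evL τ w a = w.coeff.sum fun j r => r • (τ ^ j) a := by
  unfold evL
  rw [AddMonoidAlgebra.lift_apply]
  simp only [Finsupp.sum, LinearMap.sum_apply, LinearMap.smul_apply]
  rfl

theorem evL_single (τ : A ≃ₗ[k] A) (j : ℤ) (r : k) (a : A) :
    evL τ (AddMonoidAlgebra.single j r) a = r • (τ ^ j) a := by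
  unfold evL
  rw [AddMonoidAlgebra.lift_single]
  rfl

/-- functoriality of the evaluation -/
theorem evL_map {k' : Type*} [CommRing k'] {B : Type*} [AddCommGroup B] [Module k' B]
    (f : k →+* k') (τ : A ≃ₗ[k] A) (σ : B ≃ₗ[k'] B) (φ : A →+ B)
    (hφ : ∀ (r : k) (a : A), φ (r • a) = f r • φ a) (hτ : ∀ a, φ (τ a) = σ (φ a))
    (w : k[T;T⁻¹]) (a : A) :
    φ (evL τ w a) = evL σ (AddMonoidAlgebra.mapRingHom ℤ f w) (φ a) := by
  have hτ' : ∀ (j : ℤ) (a : A), φ ((τ ^ j) a) = (σ ^ j) (φ a) := by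
    have hinv : ∀ a, φ (τ⁻¹ a) = σ⁻¹ (φ a) := by
      intro a
      have h1 := hτ (τ⁻¹ a)
      have h2 : τ (τ⁻¹ a) = a := τ.apply_symm_apply a
      rw [h2] at h1
      rw [h1]
      exact (σ.symm_apply_apply _).symm
    intro j
    induction j using Int.induction_on with
    | zero => intro a; simp
    | succ n ih =>
      intro a
      rw [zpow_add_one, zpow_add_one]
      show φ ((τ ^ (n : ℤ)) (τ a)) = (σ ^ (n : ℤ)) (σ (φ a))
      rw [ih, hτ]
    | pred n ih =>
      intro a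
      rw [zpow_sub_one, zpow_sub_one]
      show φ ((τ ^ (-(n : ℤ))) (τ⁻¹ a)) = (σ ^ (-(n : ℤ))) (σ⁻¹ (φ a))
      rw [ih, hinv]
  induction w using AddMonoidAlgebra.induction_linear with
  | zero => simp
  | add x y hx hy => rw [map_add, LinearMap.add_apply, map_add, hx, hy, map_add, map_add,
      LinearMap.add_apply]
  | single j r =>
    rw [AddMonoidAlgebra.mapRingHom_single, evL_single, evL_single, hφ, hτ']

end

end Pool.Agent.FGRF
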