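import Mathlib
import Pool.Agent.Lib_helper35.FGRF.Diff

/-!
# Modules in a variety that does not contain `U(p, q)`
-/

set_option autoImplicit false

namespace Pool.Agent.FGRF

universe u v w x

open LaurentPolynomial

variable {L : Set (FreeGroup ℕ)}

/-- iterated differences `(x₁ - 1)(x₂ - 1)⋯(x_k - 1) m` -/
def dl {Γ : Type*} {M : Type*} [AddCommGroup M] [Group Γ] [DistribMulAction Γ M]
    (xs : List Γ) (m : M) : M :=
  xs.foldr (fun x m => x • m - m) m

@[simp] theorem dl_nil {Γ : Type*} {M : Type*} [AddCommGroup M] [Group Γ] [DistribMulAction Γ M]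
    (m : M) : dl ([] : List Γ) m = m := rfl

@[simp] theorem dl_cons {Γ : Type*} {M : Type*} [AddCommGroup M] [Group Γ] [DistribMulAction Γ M]
    (x : Γ) (xs : List Γ) (m : M) : dl (x :: xs) m = x • dl xs m - dl xs m := rfl

theorem dl_append {Γ : Type*} {M : Type*} [AddCommGroup M] [Group Γ] [DistribMulAction Γ M]
    (xs ys : List Γ) (m : M) : dl (xs ++ ys) m = dl xs (dl ys m) := by
  simp [dl, List.foldr_append]

theorem prod_sub_one_apply {k : Type*} [CommRing k] {Γ : Type*} {M : Type*} [AddCommGroup M]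
    [Module k M] [Group Γ] [DistribMulAction Γ M] [SMulCommClass Γ k M] (xs : List Γ) (m : M) :
    ((xs.map fun x => DistribMulAction.toModuleEnd k M x - 1).prod) m = dl xs m := by
  induction xs with
  | nil => simp
  | cons x xs ih =>
    rw [List.map_cons, List.prod_cons, Module.End.mul_apply, ih, dl_cons]
    rfl

theorem conj_zpow_act {p : ℕ} {Γ : Type*} [Group Γ] {A : Type*} [AddCommGroup A]
    [Module (Lam p) A] (α : Multiplicative A →* Γ) (t : Γ)
    (ht : ∀ a : A, t * α (Multiplicative.ofAdd a) * t⁻¹ =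
      α (Multiplicative.ofAdd ((T 1 : Lam p) • a))) (j : ℤ) (a : A) :
    t ^ j * α (Multiplicative.ofAdd a) = α (Multiplicative.ofAdd ((T j : Lam p) • a)) * t ^ j := by
  have h1 : ∀ a : A, t * α (Multiplicative.ofAdd a) =
      α (Multiplicative.ofAdd ((T 1 : Lam p) • a)) * t := by
    intro a
    rw [← ht]
    group
  induction j using Int.induction_on generalizing a with
  | zero => simp
  | succ n ih =>
    rw [zpow_add_one, mul_assoc, h1, ← mul_assoc, ih, mul_assoc, smul_smul, ← T_add]
  | pred n ih =>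
    have h2 : t⁻¹ * α (Multiplicative.ofAdd a) =
        α (Multiplicative.ofAdd ((T (-1) : Lam p) • a)) * t⁻¹ := by
      have := h1 ((T (-1) : Lam p) • a)
      rw [smul_smul, ← T_add] at this
      norm_num at this
      rw [eq_mul_inv_iff_mul_eq, mul_assoc, ← this]
      group
    rw [zpow_sub_one, mul_assoc, h2, ← mul_assoc, ih, mul_assoc, smul_smul, ← T_add]
    rfl

theorem lemmaI (p q : ℕ) [IsDomain (Lam p)] [Nontrivial (ZMod p)] [Nontrivial (ZMod q)]
    (h : ¬ Sat L (UG p q)) :
    ∃ (c : ZMod q) (w : Lam p) (K : ℕ), c ≠ 0 ∧ w ≠ 0 ∧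
      ∀ (M : Type v) [AddCommGroup M] [Module (ZMod q) M] (Γ : Type w) [Group Γ]
        [DistribMulAction Γ M] [SMulCommClass Γ (ZMod q) M], Sat L (SD M Γ) →
      ∀ (A : Type x) [AddCommGroup A] [Module (Lam p) A] (α : Multiplicative A →* Γ) (t : Γ),
        (∀ a : A, t * α (Multiplicative.ofAdd a) * t⁻¹ =
          α (Multiplicative.ofAdd ((T 1 : Lam p) • a))) →
        ∀ gs : List A, gs.length = K → ∀ m : M,
          c • dl (gs.map fun g => α (Multiplicative.ofAdd (w • g))) m = 0 := by
  classical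
  obtain ⟨ξ, hξ, hv⟩ := exists_verbal_base h
  -- the support
  let E : Lamp p ≃ Lam p × ℤ :=
    { toFun := fun γ => (γ.m, γ.g.toAdd)
      invFun := fun σ => ⟨σ.1, Multiplicative.ofAdd σ.2⟩
      left_inv := fun γ => rfl
      right_inv := fun σ => rfl }
  let S : Finset (Lam p × ℤ) := ξ.coeff.support.map E.toEmbedding
  let c : Lam p × ℤ → ZMod q := fun σ => ξ.coeff (E.symm σ)
  obtain ⟨γ₀, hγ₀⟩ : ∃ γ, ξ.coeff γ ≠ 0 := by
    by_contra hcon
    apply hξ
    ext γ
    by_contra hne
    exact hcon ⟨γ, hne⟩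
  refine ⟨ξ.coeff γ₀, wprod S (E γ₀), (S.erase (E γ₀)).toList.length, hγ₀, wprod_ne_zero _ _, ?_⟩
  intro M _ _ Γ _ _ _ hsat A _ _ α t ht gs hgs m
  let e : A → Module.End (ZMod q) M := fun a =>
    DistribMulAction.toModuleEnd (ZMod q) M (α (Multiplicative.ofAdd a))
  let τ : ℤ → Module.End (ZMod q) M := fun j => DistribMulAction.toModuleEnd (ZMod q) M (t ^ j)
  have hconj := conj_zpow_act α t ht
  have he0 : e 0 = 1 := by
    show DistribMulAction.toModuleEnd (ZMod q) M (α (Multiplicative.ofAdd 0)) = 1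
    rw [ofAdd_zero, map_one, map_one]
  have hadd : ∀ a b, e (a + b) = e a * e b := by
    intro a b
    simp only [e]
    rw [ofAdd_add, map_mul, map_mul]
  have hτu : ∀ j, IsUnit (τ j) := fun j => by
    refine ⟨⟨τ j, τ (-j), ?_, ?_⟩, rfl⟩
    · simp only [τ]
      rw [← map_mul, ← zpow_add, add_neg_cancel, zpow_zero, map_one]
    · simp only [τ]
      rw [← map_mul, ← zpow_add, neg_add_cancel, zpow_zero, map_one]
  have hτ : ∀ j a, τ j * e a = e ((T j : Lam p) • a) * τ j := by
    intro j a
    simp only [τ, e]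
    rw [← map_mul, ← map_mul, hconj]
  have h0 : ∀ a, ∑ σ ∈ S, c σ • (e (σ.1 • a) * τ σ.2) = 0 := by
    intro a
    let φ : Lamp p →* Γ :=
      { toFun := fun γ => α (Multiplicative.ofAdd (γ.m • a)) * t ^ γ.g.toAdd
        map_one' := by simp
        map_mul' := by
          intro x y
          simp only [SD.mul_m, SD.mul_g, toAdd_mul, zpow_add, actLam_def, add_smul, ofAdd_add,
            map_mul, mul_smul]
          rw [mul_assoc, mul_assoc, ← mul_assoc (α _) (t ^ _) (t ^ _), ← hconj]
          simp only [mul_assoc] }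
    let Φ : MonoidAlgebra (ZMod q) (Lamp p) →ₐ[ZMod q] Module.End (ZMod q) M :=
      MonoidAlgebra.lift (ZMod q) _ _ ((DistribMulAction.toModuleEnd (ZMod q) M).comp φ)
    have hΦ : Φ ξ = 0 := by
      apply LinearMap.ext
      intro m
      let β : MonoidAlgebra (ZMod q) (Lamp p) →+ M :=
        { toFun := fun x => Φ x m
          map_zero' := by simp
          map_add' := by intro x y; simp }
      let ψ : UG p q →* SD M Γ := SD.map β φ (by
        intro g x
        show Φ (MonoidAlgebra.single g 1 * x) m = φ g • Φ x m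
        rw [map_mul, Module.End.mul_apply, MonoidAlgebra.lift_single, one_smul]
        rfl)
      have h1 := map_verbal_eq_one hsat ψ hv
      exact congrArg SD.m h1
    rw [MonoidAlgebra.lift_apply] at hΦ
    rw [← hΦ]
    simp only [S, Finset.sum_map, Finsupp.sum]
    refine Finset.sum_congr rfl fun γ _ => ?_
    simp only [c, Equiv.coe_toEmbedding, e, τ, φ, E, Equiv.coe_fn_mk,
      MonoidHom.comp_apply, MonoidHom.coe_mk, OneHom.coe_mk, map_mul]
    rfl
  have h1 := differencing e he0 hadd τ hτu hτ S c h0 (E γ₀)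
    (Finset.mem_map.2 ⟨γ₀, Finsupp.mem_support_iff.2 hγ₀, rfl⟩) gs hgs
  have h2 := congrArg (fun f : Module.End (ZMod q) M => f m) h1
  simp only [LinearMap.smul_apply, LinearMap.zero_apply] at h2
  have h3 : (gs.map fun g => e (wprod S (E γ₀) • g) - 1) =
      ((gs.map fun g => α (Multiplicative.ofAdd (wprod S (E γ₀) • g))).map fun x =>
        DistribMulAction.toModuleEnd (ZMod q) M x - 1) := by
    rw [List.map_map]
    rfl
  rw [h3, prod_sub_one_apply] at h2
  simpa [c] using h2

end Pool.Agent.FGRF
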