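import Mathlib
import Pool.Agent.Lib_helper35.FGRF.LemI
import Pool.Agent.Lib_helper35.FGRF.EvL

/-!
# Sections of modules in a variety that does not contain `U(p, q)`
-/

set_option autoImplicit false

namespace Pool.Agent.FGRF

universe u v w x

open LaurentPolynomial

variable {L : Set (FreeGroup ℕ)}

section act

variable {M : Type v} [AddCommGroup M] {Γ : Type w} [Group Γ] [DistribMulAction Γ M]

/-- the action on an invariant subgroup -/
@[reducible] def subAct (N : AddSubgroup M) (h : ∀ (g : Γ), ∀ x ∈ N, g • x ∈ N) :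
    DistribMulAction Γ N where
  smul g x := ⟨g • x.1, h g x.1 x.2⟩
  one_smul x := Subtype.ext (one_smul Γ x.1)
  mul_smul g g' x := Subtype.ext (mul_smul g g' x.1)
  smul_zero g := Subtype.ext (smul_zero g)
  smul_add g x y := Subtype.ext (smul_add g x.1 y.1)

/-- the action on the quotient by an invariant subgroup -/
@[reducible] def quotAct (N : AddSubgroup M) (h : ∀ (g : Γ), ∀ x ∈ N, g • x ∈ N) :
    DistribMulAction Γ (M ⧸ N) where
  smul g := QuotientAddGroup.map N N (DistribSMul.toAddMonoidHom M g) (fun x hx => h g x hx)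
  one_smul x := by
    induction x using QuotientAddGroup.induction_on with
    | H x => exact congrArg _ (one_smul Γ x)
  mul_smul g g' x := by
    induction x using QuotientAddGroup.induction_on with
    | H x => exact congrArg _ (mul_smul g g' x)
  smul_zero g := map_zero _
  smul_add g x y := map_add _ x y

end act

theorem dl_map {Γ : Type*} {M : Type*} [AddCommGroup M] [Group Γ] [DistribMulAction Γ M]
    {Γ' : Type*} {M' : Type*} [AddCommGroup M'] [Group Γ'] [DistribMulAction Γ' M']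
    (φ : M →+ M') (xs : List Γ) (f : Γ → Γ') (h : ∀ g ∈ xs, ∀ m, φ (g • m) = f g • φ m) (m : M) :
    φ (dl xs m) = dl (xs.map f) (φ m) := by
  induction xs with
  | nil => rfl
  | cons x xs ih =>
    rw [dl_cons, List.map_cons, dl_cons, map_sub, h x List.mem_cons_self,
      ih fun g hg => h g (List.mem_cons_of_mem _ hg)]

section modp

variable (p : ℕ) (A : Type x) [AddCommGroup A]

/-- the subgroup `p A` -/
def pSub : AddSubgroup A := (nsmulAddMonoidHom (α := A) p).range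

/-- the group `A / p A` -/
def ModP : Type x := A ⧸ pSub p A

instance : AddCommGroup (ModP p A) := inferInstanceAs (AddCommGroup (A ⧸ pSub p A))

/-- the projection -/
def toModP : A →+ ModP p A := QuotientAddGroup.mk' (pSub p A)

theorem toModP_surjective : Function.Surjective (toModP p A) :=
  QuotientAddGroup.mk'_surjective _

theorem nsmul_modP (b : ModP p A) : p • b = 0 := by
  obtain ⟨a, rfl⟩ := toModP_surjective p A b
  rw [← map_nsmul]
  exact (QuotientAddGroup.eq_zero_iff _).2 ⟨a, rfl⟩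

instance : Module (ZMod p) (ModP p A) := AddCommGroup.zmodModule (nsmul_modP p A)

variable {A}

/-- the induced additive automorphism -/
def autModP₀ (τ : A ≃ₗ[ℤ] A) : ModP p A ≃+ ModP p A :=
  QuotientAddGroup.congr (pSub p A) (pSub p A) τ.toAddEquiv (by
    ext a
    constructor
    · rintro ⟨_, ⟨b, rfl⟩, rfl⟩
      exact ⟨τ b, by simp⟩
    · rintro ⟨b, rfl⟩
      exact ⟨p • τ.symm b, ⟨τ.symm b, rfl⟩, by simp⟩)

/-- the induced automorphism -/
def autModP (τ : A ≃ₗ[ℤ] A) : ModP p A ≃ₗ[ZMod p] ModP p A :=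
  { autModP₀ p τ with
    map_smul' := fun r b => ZMod.map_smul (autModP₀ p τ).toAddMonoidHom r b }

theorem autModP_mk (τ : A ≃ₗ[ℤ] A) (a : A) :
    autModP p τ (toModP p A a) = toModP p A (τ a) := rfl

end modp

theorem lemmaI_act (p q : ℕ) [IsDomain (Lam p)] [Nontrivial (ZMod p)] [Nontrivial (ZMod q)]
    (h : ¬ Sat L (UG p q)) :
    ∃ (c : ℤ) (w : ℤ[T;T⁻¹]) (K : ℕ), (c : ZMod q) ≠ 0 ∧
      AddMonoidAlgebra.mapRingHom ℤ (Int.castRingHom (ZMod p)) w ≠ 0 ∧
      ∀ (M : Type v) [AddCommGroup M] (Γ : Type w) [Group Γ] [DistribMulAction Γ M],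
        Sat L (SD M Γ) →
      ∀ (A : Type x) [AddCommGroup A] (α : Multiplicative A →* Γ) (t : Γ) (τ : A ≃ₗ[ℤ] A),
        (∀ a : A, t * α (Multiplicative.ofAdd a) * t⁻¹ = α (Multiplicative.ofAdd (τ a))) →
        (∀ x : M, q • x = 0) →
        (∀ (a : A) (x : M), α (Multiplicative.ofAdd (p • a)) • x = x) →
      ∀ gs : List A, gs.length = K → ∀ x : M,
        c • dl (gs.map fun g => α (Multiplicative.ofAdd (evL τ w g))) x = 0 := by
  obtain ⟨c', w', K, hc, hw, H⟩ := lemmaI.{v, v, x} p q h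
  obtain ⟨c, rfl⟩ := ZMod.intCast_surjective c'
  obtain ⟨w, hww⟩ := AddMonoidAlgebra.map_surjective (M := ℤ)
    (Int.castRingHom (ZMod p)).toAddMonoidHom (ZMod.intCast_surjective) w'
  have hww' : AddMonoidAlgebra.mapRingHom ℤ (Int.castRingHom (ZMod p)) w = w' := hww
  refine ⟨c, w, K, hc, hww'.symm ▸ hw, ?_⟩
  intro M _ Γ _ _ hsat A _ α t τ ht hq hp gs hgs x
  -- the image group
  let κ : Γ →* (M ≃ₗ[ℤ] M) := DistribMulAction.toModuleAut ℤ M
  have hκ : ∀ (g : Γ) (m : M), κ g m = g • m := fun _ _ => rfl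
  let ψ : SD M Γ →* SD M κ.range := SD.map (AddMonoidHom.id M) κ.rangeRestrict (fun g m => rfl)
  have hψ : Function.Surjective ψ := by
    rintro ⟨m, ⟨g, g', rfl⟩⟩
    exact ⟨⟨m, g'⟩, rfl⟩
  have hsat' : Sat L (SD M κ.range) := hsat.of_surjective ψ hψ
  let mq : Module (ZMod q) M := AddCommGroup.zmodModule hq
  have scc : SMulCommClass κ.range (ZMod q) M := ⟨fun g r m => by
    exact ZMod.map_smul (DistribSMul.toAddMonoidHom M g) r m⟩
  let ml : Module (Lam p) (ModP p A) := Module.compHom _ (evL (autModP p τ)).toRingHom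
  have hml : ∀ (w : Lam p) (b : ModP p A), w • b = evL (autModP p τ) w b := fun _ _ => rfl
  -- the homomorphism to the image group
  let α₀ : A →+ Additive κ.range :=
    { toFun := fun a => Additive.ofMul (κ.rangeRestrict (α (Multiplicative.ofAdd a)))
      map_zero' := by simp
      map_add' := fun a b => by simp [ofAdd_add] }
  have hα₀ : pSub p A ≤ α₀.ker := by
    rintro _ ⟨a, rfl⟩
    rw [AddMonoidHom.mem_ker]
    show Additive.ofMul _ = 0
    rw [ofMul_eq_zero]
    ext m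
    exact hp a m
  let α₁ : ModP p A →+ Additive κ.range := QuotientAddGroup.lift (pSub p A) α₀ hα₀
  let α₂ : Multiplicative (ModP p A) →* κ.range :=
    { toFun := fun b => (α₁ b.toAdd).toMul
      map_one' := by simp
      map_mul' := fun a b => by simp }
  have hα₂ : ∀ a : A, α₂ (Multiplicative.ofAdd (toModP p A a)) =
      κ.rangeRestrict (α (Multiplicative.ofAdd a)) := fun a => rfl
  have h1 := H M κ.range hsat' (ModP p A) α₂ (κ.rangeRestrict t) (by
    intro b
    obtain ⟨a, rfl⟩ := toModP_surjective p A b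
    rw [hml, evL_T, zpow_one, autModP_mk, hα₂, hα₂, ← map_inv, ← map_mul, ← map_mul, ht])
    (gs.map (toModP p A)) (by rw [List.length_map, hgs]) x
  rw [List.map_map] at h1
  have h2 : (gs.map fun g => α (Multiplicative.ofAdd (evL τ w g))).map κ.rangeRestrict =
      gs.map ((fun g : ModP p A => α₂ (Multiplicative.ofAdd (w' • g))) ∘ toModP p A) := by
    rw [List.map_map]
    refine List.map_congr_left fun g _ => ?_
    show κ.rangeRestrict (α (Multiplicative.ofAdd (evL τ w g))) =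
      α₂ (Multiplicative.ofAdd (w' • (toModP p A g : ModP p A)))
    rw [hml, ← hα₂, ← hww']
    congr 2
    exact evL_map (Int.castRingHom (ZMod p)) τ (autModP p τ) (toModP p A)
      (fun r a => by
        rw [map_zsmul, eq_intCast, Int.cast_smul_eq_zsmul (ZMod p)]) (fun a => rfl) w g
  rw [← h2] at h1
  have h3 := dl_map (AddMonoidHom.id M)
    (gs.map fun g => α (Multiplicative.ofAdd (evL τ w g))) κ.rangeRestrict (fun g _ m => rfl) x
  rw [AddMonoidHom.id_apply, AddMonoidHom.id_apply] at h3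
  rw [← h3, Int.cast_smul_eq_zsmul (ZMod q)] at h1
  exact h1

section sections

variable {M : Type v} [AddCommGroup M] {Γ : Type w} [Group Γ] [DistribMulAction Γ M]

/-- A section of a module in the variety is a module in the variety. -/
theorem sat_section (hsat : Sat L (SD M Γ)) (N₁ : AddSubgroup M)
    (h₁ : ∀ (g : Γ), ∀ x ∈ N₁, g • x ∈ N₁) (N : AddSubgroup N₁)
    (h : letI := subAct N₁ h₁; ∀ (g : Γ), ∀ x ∈ N, g • x ∈ N) :
    letI := subAct N₁ h₁
    letI := quotAct N h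
    Sat L (SD (N₁ ⧸ N) Γ) := by
  let i1 : DistribMulAction Γ N₁ := subAct N₁ h₁
  let i2 : DistribMulAction Γ (N₁ ⧸ N) := quotAct N h
  show Sat L (SD (N₁ ⧸ N) Γ)
  have hs1 : Sat L (SD N₁ Γ) := by
    refine hsat.of_injective (SD.map N₁.subtype (MonoidHom.id Γ) (fun g m => rfl)) ?_
    rintro ⟨m, g⟩ ⟨m', g'⟩ hh
    have h1 := congrArg SD.m hh
    have h2 := congrArg SD.g hh
    have h3 : m = m' := Subtype.ext h1
    have h4 : g = g' := h2
    rw [h3, h4]
  refine hs1.of_surjective (SD.map (QuotientAddGroup.mk' N) (MonoidHom.id Γ) (fun g m => rfl)) ?_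
  rintro ⟨m, g⟩
  obtain ⟨m', rfl⟩ := QuotientAddGroup.mk'_surjective N m
  exact ⟨⟨m', g⟩, rfl⟩

end sections

/-- `Lemma I` for sections. -/
theorem SLI (p q : ℕ) [IsDomain (Lam p)] [Nontrivial (ZMod p)] [Nontrivial (ZMod q)]
    (h : ¬ Sat L (UG p q)) :
    ∃ (c : ℤ) (w : ℤ[T;T⁻¹]) (K : ℕ), (c : ZMod q) ≠ 0 ∧
      AddMonoidAlgebra.mapRingHom ℤ (Int.castRingHom (ZMod p)) w ≠ 0 ∧
      ∀ (M : Type v) [AddCommGroup M] (Γ : Type w) [Group Γ] [DistribMulAction Γ M],
        Sat L (SD M Γ) →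
      ∀ (A : Type x) [AddCommGroup A] (α : Multiplicative A →* Γ) (t : Γ) (τ : A ≃ₗ[ℤ] A),
        (∀ a : A, t * α (Multiplicative.ofAdd a) * t⁻¹ = α (Multiplicative.ofAdd (τ a))) →
      ∀ (N₁ N₂ : AddSubgroup M), N₂ ≤ N₁ → (∀ (g : Γ), ∀ x ∈ N₁, g • x ∈ N₁) →
        (∀ (g : Γ), ∀ x ∈ N₂, g • x ∈ N₂) → (∀ x ∈ N₁, q • x ∈ N₂) →
        (∀ (a : A), ∀ x ∈ N₁, α (Multiplicative.ofAdd (p • a)) • x - x ∈ N₂) →
      ∀ gs : List A, gs.length = K → ∀ x ∈ N₁,
        c • dl (gs.map fun g => α (Multiplicative.ofAdd (evL τ w g))) x ∈ N₂ := by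
  obtain ⟨c, w, K, hc, hw, H⟩ := lemmaI_act.{v, w, x} p q h
  refine ⟨c, w, K, hc, hw, ?_⟩
  intro M _ Γ _ _ hsat A _ α t τ ht N₁ N₂ hN h₁ h₂ hq hp gs hgs x hx
  let i1 : DistribMulAction Γ N₁ := subAct N₁ h₁
  have h₂' : ∀ (g : Γ), ∀ x ∈ N₂.addSubgroupOf N₁, g • x ∈ N₂.addSubgroupOf N₁ :=
    fun g x hx => h₂ g x.1 hx
  let i2 : DistribMulAction Γ (N₁ ⧸ N₂.addSubgroupOf N₁) := quotAct (N₂.addSubgroupOf N₁) h₂'
  have hs := sat_section hsat N₁ h₁ (N₂.addSubgroupOf N₁) h₂'
  have h1 := H (N₁ ⧸ N₂.addSubgroupOf N₁) Γ hs A α t τ ht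
    (by
      intro y
      obtain ⟨y, rfl⟩ := QuotientAddGroup.mk'_surjective _ y
      rw [← map_nsmul]
      exact (QuotientAddGroup.eq_zero_iff _).2 (hq y.1 y.2))
    (by
      intro a y
      obtain ⟨y, rfl⟩ := QuotientAddGroup.mk'_surjective _ y
      rw [← sub_eq_zero]
      exact (QuotientAddGroup.eq_zero_iff _).2 (hp a y.1 y.2))
    gs hgs (QuotientAddGroup.mk' _ ⟨x, hx⟩)
  have h2 := dl_map (QuotientAddGroup.mk' (N₂.addSubgroupOf N₁))
    (gs.map fun g => α (Multiplicative.ofAdd (evL τ w g))) id (fun g _ m => rfl) ⟨x, hx⟩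
  rw [List.map_id] at h2
  rw [← h2, ← map_zsmul] at h1
  have h3 := (QuotientAddGroup.eq_zero_iff _).1 h1
  have h4 := dl_map N₁.subtype
    (gs.map fun g => α (Multiplicative.ofAdd (evL τ w g))) id (fun g _ m => rfl) ⟨x, hx⟩
  rw [List.map_id] at h4
  have h5 : (c • dl (gs.map fun g => α (Multiplicative.ofAdd (evL τ w g))) (⟨x, hx⟩ : N₁)).1 ∈ N₂ :=
    h3
  have h6 : (dl (gs.map fun g => α (Multiplicative.ofAdd (evL τ w g))) (⟨x, hx⟩ : N₁)).1 =
    dl (gs.map fun g => α (Multiplicative.ofAdd (evL τ w g))) x := h4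
  rw [← h6]
  exact h5

end Pool.Agent.FGRF
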