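import Mathlib
import Pool.Agent.Lib_helper35.FGRF.NSec
import Pool.Agent.Lib_helper35.FGRF.SLI

/-!
# Steps D and E: from modules to soluble groups
-/

set_option autoImplicit false

namespace Pool.Agent.FGRF

universe u v

open scoped commutatorElement

/-- Step B: finitely generated nilpotent-by-nilpotent groups in the variety are residually finite. -/
def StepB (L : Set (FreeGroup ℕ)) : Prop :=
  ∀ (G : Type u) [Group G], Group.FG G → Sat L G → ∀ P : Subgroup G, P.Normal →
    (∃ k, P.lowerCentralSeries k = ⊥) → (∃ c, (⊤ : Subgroup G).lowerCentralSeries c ≤ P) →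
    Group.ResiduallyFinite G

/-- Step C. -/
def StepC (L : Set (FreeGroup ℕ)) : Prop :=
  ∀ (G : Type u) [Group G] (M : Type v) [AddCommGroup M] [DistribMulAction G M],
    Group.FG G → Sat L (SD M G) → ∀ P : Subgroup G, P.Normal →
    (∃ k, P.lowerCentralSeries k = ⊥) → (∃ c, (⊤ : Subgroup G).lowerCentralSeries c ≤ P) →
    ∃ B : Subgroup G, B.Normal ∧ B ≤ P ∧
      (∃ K : ℕ, ∀ xs : List G, (∀ x ∈ xs, x ∈ B) → xs.length = K → ∀ m : M, dl xs m = 0) ∧
      ∃ H : Subgroup G, H.FiniteIndex ∧ ∃ c, H.lowerCentralSeries c ≤ B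

/-- some lower central term of a subgroup of finite index is nilpotent -/
def VMN (G : Type u) [Group G] : Prop :=
  ∃ H : Subgroup G, H.FiniteIndex ∧ ∃ c k, (H.lowerCentralSeries c).lowerCentralSeries k = ⊥

/-! ### The action of the quotient on an abelian normal section -/

namespace NSec

variable {G : Type u} [Group G] (S : NSec G)

instance : S.A.Normal := S.hA

theorem triv_smul {x : G} (hx : x ∈ S.A) (m : S.Mod) : x • m = m := by
  obtain ⟨y, hy, rfl⟩ := cl_surjective m
  rw [smul_cl, cl_eq_iff]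
  exact S.comm x hx y hy

/-- the action of the quotient as a homomorphism -/
def quotHom : G ⧸ S.A →* AddMonoid.End S.Mod :=
  QuotientGroup.lift S.A (DistribMulAction.toAddMonoidEnd G S.Mod) (fun x hx => by
    ext m
    exact S.triv_smul hx m)

instance quotAction : DistribMulAction (G ⧸ S.A) S.Mod :=
  DistribMulAction.compHom _ S.quotHom

theorem mk_smul (g : G) (m : S.Mod) : (QuotientGroup.mk g : G ⧸ S.A) • m = g • m := rfl

/-- the subgroup `{(g, h) | h g⁻¹ ∈ A}` -/
def pairs : Subgroup (G × G) where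
  carrier := {x | x.2 * x.1⁻¹ ∈ S.A}
  mul_mem' := by
    rintro ⟨a, b⟩ ⟨c, d⟩ h1 h2
    have h3 := mul_mem h1 (S.hA.conj_mem _ h2 a)
    show b * d * (a * c)⁻¹ ∈ S.A
    convert h3 using 1
    group
  one_mem' := by simp
  inv_mem' := by
    rintro ⟨a, b⟩ h1
    have h3 := S.hA.conj_mem _ (inv_mem h1) a⁻¹
    show b⁻¹ * (a⁻¹)⁻¹ ∈ S.A
    convert h3 using 1
    group

/-- the homomorphism onto the split extension -/
def toSD : S.pairs →* SD S.Mod (G ⧸ S.A) :=
  MonoidHom.mk' (fun x => ⟨NSec.cl _ x.2, QuotientGroup.mk x.1.1⟩) (by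
    rintro ⟨⟨a, b⟩, h1⟩ ⟨⟨c, d⟩, h2⟩
    have h1' : b * a⁻¹ ∈ S.A := h1
    have h2' : d * c⁻¹ ∈ S.A := h2
    ext
    · show NSec.cl _ _ = NSec.cl (b * a⁻¹) h1' +
        (QuotientGroup.mk a : G ⧸ S.A) • NSec.cl (d * c⁻¹) h2'
      rw [mk_smul, smul_cl, ← cl_mul]
      apply NSec.cl_congr
      show b * d * (a * c)⁻¹ = b * a⁻¹ * (a * (d * c⁻¹) * a⁻¹)
      group
    · rfl)

theorem toSD_surjective : Function.Surjective S.toSD := by
  rintro ⟨m, g⟩
  obtain ⟨x, hx, rfl⟩ := cl_surjective m
  obtain ⟨g, rfl⟩ := QuotientGroup.mk_surjective g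
  refine ⟨⟨(g, x * g), ?_⟩, ?_⟩
  · show x * g * g⁻¹ ∈ S.A
    simpa using hx
  · ext
    · exact NSec.cl_congr (by simp)
    · rfl

theorem sat_SD {L : Set (FreeGroup ℕ)} (h : Sat L G) : Sat L (SD S.Mod (G ⧸ S.A)) :=
  ((h.prod h).subgroup S.pairs).of_surjective S.toSD S.toSD_surjective

end NSec

/-! ### Step D -/

theorem fg_quotient' {G : Type u} [Group G] (h : Group.FG G) (N : Subgroup G) [N.Normal] :
    Group.FG (G ⧸ N) := by
  have := h
  infer_instance

/-- a subgroup which is nilpotent modulo the section and acts nilpotently on it is nilpotent -/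
theorem nil_of_action {G : Type u} [Group G] (S : NSec G) (hB : S.B = ⊥) (R : Subgroup G)
    (B : Set (G ⧸ S.A)) (hRB : ∀ x ∈ R, (QuotientGroup.mk x : G ⧸ S.A) ∈ B) (k K : ℕ)
    (hk : R.lowerCentralSeries k ≤ S.A)
    (hK : ∀ xs : List (G ⧸ S.A), (∀ x ∈ xs, x ∈ B) → xs.length = K → ∀ m : S.Mod, dl xs m = 0) :
    R.lowerCentralSeries (k + K) = ⊥ := by
  let U : ℕ → AddSubgroup S.Mod := fun j =>
    AddSubgroup.closure {x | ∃ xs : List (G ⧸ S.A), (∀ x ∈ xs, x ∈ B) ∧ xs.length = j ∧
      ∃ m : S.Mod, x = dl xs m}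
  have hU : ∀ j, ∀ r ∈ B, ∀ m ∈ U j, r • m - m ∈ U (j + 1) := by
    intro j r hr m hm
    induction hm using AddSubgroup.closure_induction with
    | zero => simp
    | add x y _ _ hx hy =>
      have : r • (x + y) - (x + y) = (r • x - x) + (r • y - y) := by
        rw [smul_add]; abel
      rw [this]
      exact add_mem hx hy
    | neg x _ hx =>
      have : r • (-x) - (-x) = -(r • x - x) := by
        rw [smul_neg]; abel
      rw [this]
      exact neg_mem hx
    | mem x hx =>
      obtain ⟨xs, hxs, hlen, m, rfl⟩ := hx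
      refine AddSubgroup.subset_closure ⟨r :: xs, ?_, by simp [hlen], m, rfl⟩
      intro x hx
      rcases List.mem_cons.1 hx with rfl | hx
      · exact hr
      · exact hxs x hx
  have hmain : ∀ j, R.lowerCentralSeries (k + j) ≤ NSec.toSub (S := S) (U j) := by
    intro j
    induction j with
    | zero =>
      intro x hx
      exact ⟨hk hx, AddSubgroup.subset_closure ⟨[], by simp, rfl, NSec.cl x (hk hx), rfl⟩⟩
    | succ j ih =>
      rw [← add_assoc, Subgroup.lowerCentralSeries_succ, Subgroup.commutator_le]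
      intro x hx r hr
      obtain ⟨hxA, hxU⟩ := ih hx
      have h1 : ⁅x, r⁆ ∈ S.A := by
        have := mul_mem hxA (S.hA.conj_mem _ (inv_mem hxA) r)
        convert this using 1
        rw [commutatorElement_def]
        group
      refine ⟨h1, ?_⟩
      have h2 : (NSec.cl ⁅x, r⁆ h1 : S.Mod) =
          -((QuotientGroup.mk r : G ⧸ S.A) • NSec.cl x hxA - NSec.cl x hxA) := by
        rw [NSec.mk_smul, NSec.smul_cl, neg_sub, sub_eq_add_neg, ← NSec.cl_inv, ← NSec.cl_mul]
        apply NSec.cl_congr
        rw [commutatorElement_def]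
        group
      rw [h2]
      exact neg_mem (hU j _ (hRB r hr) _ hxU)
  rw [eq_bot_iff]
  intro x hx
  obtain ⟨hxA, hxU⟩ := hmain K hx
  have h0 : U K = ⊥ := by
    rw [eq_bot_iff]
    show AddSubgroup.closure _ ≤ _
    rw [AddSubgroup.closure_le]
    rintro _ ⟨xs, hxs, hlen, m, rfl⟩
    exact AddSubgroup.mem_bot.2 (hK xs hxs hlen m)
  rw [h0, AddSubgroup.mem_bot, NSec.cl_eq_zero, hB] at hxU
  exact hxU

/-- Step D, the induction step -/
theorem stepD_aux {L : Set (FreeGroup ℕ)} (hC : StepC.{u, u} L) {G : Type u} [Group G]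
    (hfg : Group.FG G) (hsat : Sat L G) (S : NSec G) (hB : S.B = ⊥) (hv : VMN (G ⧸ S.A)) :
    VMN G := by
    obtain ⟨H, hH, c, k, hck⟩ := hv
    have hHfg : Group.FG H := by
      have := fg_quotient' hfg S.A
      infer_instance
    have hsatH : Sat L (SD S.Mod H) := by
      refine Sat.of_injective (SD.map (AddMonoidHom.id _) H.subtype (fun g m => rfl)) ?_
        (S.sat_SD hsat)
      intro x y hxy
      have h1 : x.m = y.m := congrArg (fun z : SD S.Mod (G ⧸ S.A) => z.m) hxy
      have h2 : (x.g : G ⧸ S.A) = y.g := congrArg (fun z : SD S.Mod (G ⧸ S.A) => z.g) hxy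
      exact SD.ext h1 (Subtype.ext h2)
    have hPn : ((⊤ : Subgroup H).lowerCentralSeries c).Normal := inferInstance
    have hPk : ∃ k, ((⊤ : Subgroup H).lowerCentralSeries c).lowerCentralSeries k = ⊥ := by
      refine ⟨k, ?_⟩
      rw [← Subgroup.map_subtype_inj, Subgroup.map_bot, Subgroup.map_lowerCentralSeries,
        Subgroup.top_subtype_lowerCentralSeries, hck]
    obtain ⟨B, hBn, hBP, ⟨K, hK⟩, H₁, hH₁, c', hc'⟩ := hC H S.Mod hHfg hsatH _ hPn hPk ⟨c, le_rfl⟩
    -- back to `G`
    let H₂ : Subgroup (G ⧸ S.A) := H₁.map H.subtype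
    have hH₂ : H₂.FiniteIndex := by
      constructor
      show (H₁.map H.subtype).index ≠ 0
      rw [Subgroup.index_map_subtype]
      exact mul_ne_zero hH₁.index_ne_zero hH.index_ne_zero
    let H₃ : Subgroup G := H₂.comap (QuotientGroup.mk' S.A)
    have hH₃ : H₃.FiniteIndex := by
      constructor
      rw [Subgroup.index_comap_of_surjective _ (QuotientGroup.mk'_surjective S.A)]
      exact hH₂.index_ne_zero
    have hmap : (H₃.lowerCentralSeries c').map (QuotientGroup.mk' S.A) ≤ B.map H.subtype := by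
      rw [Subgroup.map_lowerCentralSeries, Subgroup.map_comap_eq_self_of_surjective
        (QuotientGroup.mk'_surjective S.A)]
      show (H₁.map H.subtype).lowerCentralSeries c' ≤ _
      rw [← Subgroup.map_lowerCentralSeries]
      exact Subgroup.map_mono hc'
    have hRB : ∀ x ∈ H₃.lowerCentralSeries c',
        (QuotientGroup.mk x : G ⧸ S.A) ∈ ((B.map H.subtype : Subgroup (G ⧸ S.A)) : Set (G ⧸ S.A)) :=
      fun x hx => hmap ⟨x, hx, rfl⟩
    have hk : (H₃.lowerCentralSeries c').lowerCentralSeries k ≤ S.A := by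
      intro x hx
      have h1 : (QuotientGroup.mk' S.A x) ∈ (B.map H.subtype).lowerCentralSeries k := by
        have h2 : (QuotientGroup.mk' S.A x) ∈
            ((H₃.lowerCentralSeries c').map (QuotientGroup.mk' S.A)).lowerCentralSeries k := by
          rw [← Subgroup.map_lowerCentralSeries]
          exact ⟨x, hx, rfl⟩
        exact Subgroup.lowerCentralSeries_mono k hmap h2
      have h3 : (B.map H.subtype).lowerCentralSeries k = ⊥ := by
        rw [eq_bot_iff, ← hck]
        apply Subgroup.lowerCentralSeries_mono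
        rw [← Subgroup.top_subtype_lowerCentralSeries]
        exact Subgroup.map_mono hBP
      rw [h3, Subgroup.mem_bot] at h1
      exact (QuotientGroup.eq_one_iff x).1 h1
    refine ⟨H₃, hH₃, c', k + K, nil_of_action S hB _ _ hRB k K hk ?_⟩
    intro xs hxs hlen m
    -- lift the list to `H`
    have hlift : ∃ ys : List H, (∀ y ∈ ys, y ∈ B) ∧ ys.length = xs.length ∧
        ys.map H.subtype = xs := by
      clear hlen
      induction xs with
      | nil => exact ⟨[], by simp, rfl, rfl⟩
      | cons x xs ih' =>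
        obtain ⟨ys, h1, h2, h3⟩ := ih' fun x hx => hxs x (List.mem_cons_of_mem _ hx)
        obtain ⟨y, hy, rfl⟩ := hxs x List.mem_cons_self
        refine ⟨y :: ys, ?_, by simp [h2], by rw [List.map_cons, h3]⟩
        intro z hz
        rcases List.mem_cons.1 hz with rfl | hz
        · exact hy
        · exact h1 z hz
    obtain ⟨ys, h1, h2, h3⟩ := hlift
    have h4 : ∀ ys : List H, dl (ys.map H.subtype) m = dl ys m := by
      intro ys
      induction ys with
      | nil => rfl
      | cons y ys ih' =>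
        rw [List.map_cons, dl_cons, dl_cons, ih']
        rfl
    rw [← h3, h4]
    exact hK ys h1 (h2.trans hlen) m

/-- Step D -/
theorem stepD {L : Set (FreeGroup ℕ)} (hC : StepC.{u, u} L) (n : ℕ) (G : Type u) [Group G]
    (hfg : Group.FG G) (hsat : Sat L G) (hn : derivedSeries G n = ⊥) : VMN G := by
  induction n generalizing G with
  | zero => exact ⟨⊤, inferInstance, 0, 0, hn⟩
  | succ n ih =>
    let S : NSec G :=
      { A := derivedSeries G n
        B := ⊥
        hA := inferInstance
        hB := inferInstance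
        le := bot_le
        comm := by
          intro x hx y hy
          rw [← hn, derivedSeries_succ]
          have := Subgroup.commutator_mem_commutator hx hy
          rwa [commutatorElement_def] at this }
    refine stepD_aux hC hfg hsat S rfl (ih (G ⧸ S.A) (fg_quotient' hfg S.A) (hsat.quotient S.A) ?_)
    rw [← map_derivedSeries_eq (QuotientGroup.mk'_surjective S.A) n]
    exact QuotientGroup.map_mk'_self _

/-! ### Step E -/

theorem rf_of_finiteIndex {G : Type u} [Group G] (H : Subgroup G) [H.FiniteIndex]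
    (h : Group.ResiduallyFinite H) : Group.ResiduallyFinite G := by
  rw [Group.residuallyFinite_iff_exists_finiteIndex]
  intro g hg
  by_cases hgH : g ∈ H
  · obtain ⟨K, hK, hgK⟩ := Group.residuallyFinite_iff_exists_finiteIndex.1 h ⟨g, hgH⟩
      (fun h' => hg (congrArg Subtype.val h'))
    refine ⟨K.map H.subtype, ⟨?_⟩, ?_⟩
    · rw [Subgroup.index_map_subtype]
      exact mul_ne_zero hK.index_ne_zero (Subgroup.FiniteIndex.index_ne_zero)
    · rintro ⟨x, hx, hxg⟩
      apply hgK
      have hxg' : x = ⟨g, hgH⟩ := Subtype.ext hxg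
      rwa [← hxg']
  · exact ⟨H, inferInstance, hgH⟩

theorem rf_of_VMN {L : Set (FreeGroup ℕ)} (hB : StepB.{u} L) (G : Type u) [Group G]
    (hfg : Group.FG G) (hsat : Sat L G) (h : VMN G) : Group.ResiduallyFinite G := by
  obtain ⟨H, hH, c, k, hck⟩ := h
  apply rf_of_finiteIndex H
  have hHfg : Group.FG H := inferInstance
  refine hB H hHfg (hsat.subgroup H) ((⊤ : Subgroup H).lowerCentralSeries c) inferInstance
    ⟨k, ?_⟩ ⟨c, le_rfl⟩
  rw [← Subgroup.map_subtype_inj, Subgroup.map_bot, Subgroup.map_lowerCentralSeries,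
    Subgroup.top_subtype_lowerCentralSeries, hck]

end Pool.Agent.FGRF
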