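import Mathlib
import Pool.Agent.Lib_helper35.FGRF.StepD
import Pool.Agent.Lib_helper35.FGRF.PBproof
import Pool.Agent.Lib_helper93.FGRF.StepB

/-!
# Step B in the form needed for Step E
-/

set_option autoImplicit false

namespace Pool.Agent.FGRF

universe u v

theorem quotient_nilpotent_of_lcs_le {G : Type u} [Group G] {P : Subgroup G} (hP : P.Normal)
    (h : ∃ c, (⊤ : Subgroup G).lowerCentralSeries c ≤ P) : Group.IsNilpotent (G ⧸ P) := by
  obtain ⟨c, hc⟩ := h
  rw [Subgroup.nilpotent_iff_lowerCentralSeries]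
  refine ⟨c, ?_⟩
  rw [← Subgroup.map_top_of_surjective (QuotientGroup.mk' P) (QuotientGroup.mk'_surjective P),
    ← Subgroup.map_lowerCentralSeries, eq_bot_iff, Subgroup.map_le_iff_le_comap,
    MonoidHom.comap_bot, QuotientGroup.ker_mk']
  exact hc

theorem ccov_of_lcs_le35 {G : Type u} [Group G] (hG : Group.FG G) {P : Subgroup G} (hP : P.Normal)
    (h : ∃ c, (⊤ : Subgroup G).lowerCentralSeries c ≤ P) : CCov P ⊤ :=
  ccov_of_quotient_nilpotent hG P (quotient_nilpotent_of_lcs_le hP h)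

theorem stepB_of {L : Set (FreeGroup ℕ)} (hX : ∀ p : ℕ, p.Prime → ¬ Sat L (X p)) :
    StepB.{u} L := by
  intro G _ hG hsat P hP hk hc
  exact stepB (pba L hX) (pbb L hX) hsat hG hP
    ((Subgroup.isNilpotent_iff_lowerCentralSeries P).2 hk) (ccov_of_lcs_le35 hG hP hc)

end Pool.Agent.FGRF
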