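import Mathlib
import Pool.Agent.Lib_helper35.FGRF.StepBof
import Pool.Agent.Lib_helper46.FGRF.StepC
import Pool.Agent.Lib_helper46.FGRF.Groups

/-!
# The main theorem
-/

set_option autoImplicit false

namespace Pool.Agent.FGRF

universe u v

theorem stepC_of {L : Set (FreeGroup ℕ)} (hX : ∀ p : ℕ, p.Prime → ¬ Sat L (X p))
    (hS : ∀ p q : ℕ, p.Prime → q.Prime → p ≠ q → ¬ Sat L (S p q)) : StepC.{u, v} L :=
  stepC L (pba L hX) (pbb L hX)
    (fun p q hp hq => all_UG hX hS p q (Or.inr hp) (Or.inr hq))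

/-- If none of the groups `X p`, `S p q` satisfies the laws `L`, then every finitely generated
soluble group which satisfies `L` is virtually nilpotent-by-nilpotent. -/
theorem vmn_of {L : Set (FreeGroup ℕ)} (hX : ∀ p : ℕ, p.Prime → ¬ Sat L (X p))
    (hS : ∀ p q : ℕ, p.Prime → q.Prime → p ≠ q → ¬ Sat L (S p q)) (G : Type u) [Group G]
    (hG : Group.FG G) (hsat : Sat L G) (hsol : Group.IsSolvable G) : VMN G := by
  obtain ⟨n, hn⟩ := hsol.solvable
  exact stepD (stepC_of hX hS) n G hG hsat hn

/-- If none of the groups `X p`, `S p q` satisfies the laws `L`, then every finitely generated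
soluble group which satisfies `L` is residually finite. -/
theorem rf_of {L : Set (FreeGroup ℕ)} (hX : ∀ p : ℕ, p.Prime → ¬ Sat L (X p))
    (hS : ∀ p q : ℕ, p.Prime → q.Prime → p ≠ q → ¬ Sat L (S p q)) (G : Type u) [Group G]
    (hG : Group.FG G) (hsat : Sat L G) (hsol : Group.IsSolvable G) : Group.ResiduallyFinite G :=
  rf_of_VMN (stepB_of hX) G hG hsat (vmn_of hX hS G hG hsat hsol)

end Pool.Agent.FGRF
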