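import Mathlib
import Pool.Agent.Lib_helper35.FGRF.Main

/-!
# The description by laws
-/

set_option autoImplicit false

namespace Pool.Agent.FGRF

universe u v

open scoped commutatorElement

variable {L : Set (FreeGroup ℕ)}

theorem eng_eq {G : Type*} [Group G] {n n₀ k r : ℕ} (hn : n = k * n₀) (hr : r ≤ n) (t y : G) :
    eng n t y = (cg (t ^ k) n₀)^[r] ((cg (t ^ k) n₀)^[n - r] y) := by
  have h : (fun z => ⁅t ^ n, z⁆) = cg (t ^ k) n₀ := by
    funext z
    rw [commutatorElement_def, cg, ← pow_mul, ← hn]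
  rw [eng, h, ← Function.iterate_add_apply, Nat.add_sub_cancel' hr]

theorem iterate_cg_mem {G : Type*} [Group G] {N : Subgroup G} (hN : N.Normal) (t : G) (n r : ℕ)
    {y : G} (hy : y ∈ N) : (cg t n)^[r] y ∈ N := by
  induction r generalizing y with
  | zero => exact hy
  | succ r ih =>
    rw [Function.iterate_succ_apply]
    exact ih (mul_mem (hN.conj_mem y hy _) (inv_mem hy))

/-- Law (A) with two parameters. -/
theorem lawA_aux (hX : ∀ p : ℕ, p.Prime → ¬ Sat L (X p)) : ∃ n r : ℕ, 1 ≤ n ∧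
    ∀ (G : Type u) [Group G], Sat L G → (∀ a ∈ derivedSeries G 2, ∀ g : G, a * g = g * a) →
      ∀ t : G, ∀ x ∈ derivedSeries G 1, ∀ y ∈ derivedSeries G 1, ⁅x, (cg t n)^[r] y⁆ = 1 := by
  obtain ⟨n, r, hn, h⟩ := pbb.{u} L hX 1 1 le_rfl
  refine ⟨n, r, hn, ?_⟩
  intro G _ hsat hcen t x hx y hy
  have hcm : ∀ a ∈ derivedSeries G 2, ∀ g : G, cm a g = 1 := by
    intro a ha g
    rw [cm, hcen a ha g, mul_inv_cancel_right, mul_inv_cancel]
  have hcm' : ∀ a ∈ derivedSeries G 2, ∀ g : G, cm g a = 1 := by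
    intro a ha g
    rw [cm, ← hcen a ha g, mul_inv_cancel_right, mul_inv_cancel]
  let S : Pair G :=
    { D := derivedSeries G 1
      N := derivedSeries G 1
      C := derivedSeries G 2
      C₀ := ⊥
      hD := inferInstance
      hN := inferInstance
      hC := inferInstance
      hC₀ := inferInstance
      le := bot_le
      nd := fun x hx d hd => by
        rw [derivedSeries_succ]
        have := Subgroup.commutator_mem_commutator hx hd
        rwa [commutatorElement_def] at this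
      cc := fun c hc c' _ => Subgroup.mem_bot.2 (hcm c hc c')
      dc := fun d _ c hc => Subgroup.mem_bot.2 (hcm' c hc d)
      nc := fun d _ c hc => Subgroup.mem_bot.2 (hcm' c hc d) }
  have h1 := h G hsat S t (by
    intro c hc
    rw [Function.iterate_one]
    have h2 := hcm' c hc (t ^ 1)
    exact Subgroup.mem_bot.2 h2) y hy x hx
  rw [commutatorElement_def]
  exact Subgroup.mem_bot.1 h1

theorem foldr_cl {G : Type u} [Group G] (S : NSec G) (cs : List G) {u : G} (hu : u ∈ S.A) :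
    ∃ h : cs.foldr (fun c u => ⁅c, u⁆) u ∈ S.A, (NSec.cl _ h : S.Mod) =
      dl (cs.map (QuotientGroup.mk : G → G ⧸ S.A)) (NSec.cl u hu) := by
  induction cs with
  | nil => exact ⟨hu, rfl⟩
  | cons c cs ih =>
    obtain ⟨h, ih⟩ := ih
    have h1 : c * cs.foldr (fun c u => ⁅c, u⁆) u * c⁻¹ ∈ S.A := S.hA.conj_mem _ h c
    have h2 : (c :: cs).foldr (fun c u => ⁅c, u⁆) u ∈ S.A := by
      rw [List.foldr_cons, commutatorElement_def]
      exact mul_mem h1 (inv_mem h)
    refine ⟨h2, ?_⟩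
    rw [List.map_cons, dl_cons, ← ih, NSec.mk_smul, NSec.smul_cl, sub_eq_add_neg, ← NSec.cl_inv,
      ← NSec.cl_mul]
    apply NSec.cl_congr
    rw [List.foldr_cons, commutatorElement_def]

theorem map_iterate_cg {G : Type*} {H : Type*} [Group G] [Group H] (φ : G →* H) (t : G) (n r : ℕ)
    (y : G) : φ ((cg t n)^[r] y) = (cg (φ t) n)^[r] (φ y) := by
  induction r generalizing y with
  | zero => rfl
  | succ r ih =>
    rw [Function.iterate_succ_apply, Function.iterate_succ_apply, ih]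
    congr 1
    simp [cg]

/-- the abelian section `G'' / 1` of a group of derived length at most three -/
def sec2 (G : Type u) [Group G] (h3 : derivedSeries G 3 = ⊥) : NSec G where
  A := derivedSeries G 2
  B := ⊥
  hA := inferInstance
  hB := inferInstance
  le := bot_le
  comm := by
    intro x hx y hy
    rw [← h3, derivedSeries_succ]
    have := Subgroup.commutator_mem_commutator hx hy
    rwa [commutatorElement_def] at this

theorem lawB_sec {n s K : ℕ} {G : Type u} [Group G] (S : NSec G) (hB : S.B = ⊥)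
    (D : Subgroup G) (hD : D.Normal) (hDA : ∀ x ∈ D, ∀ y ∈ D, x * y * x⁻¹ * y⁻¹ ∈ S.A)
    (h : ∀ (A : Subgroup (G ⧸ S.A)) (t : G ⧸ S.A), (∀ a ∈ A, t * a * t⁻¹ ∈ A) →
      (∀ a ∈ A, t⁻¹ * a * t ∈ A) →
          (∀ a ∈ A, ∀ b ∈ A, ∀ x : S.Mod, a • b • x = b • a • x) →
          ∀ xs : List (G ⧸ S.A), xs.length = K → (∀ x ∈ xs, ∃ a ∈ A, x = (cg t n)^[s] a) →
            ∀ m : S.Mod, dl xs m = 0) (t : G) {u : G} (hu : u ∈ S.A) (ys : List G)
    (hys : ∀ y ∈ ys, y ∈ D) (hlen : ys.length = K) :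
    ys.foldr (fun y u => ⁅(cg t n)^[s] y, u⁆) u = 1 := by
  have h1 := h (D.map (QuotientGroup.mk' S.A)) (QuotientGroup.mk' S.A t)
    (by
      rintro _ ⟨a, ha, rfl⟩
      exact ⟨t * a * t⁻¹, hD.conj_mem a ha t, by simp⟩)
    (by
      rintro _ ⟨a, ha, rfl⟩
      have := hD.conj_mem a ha t⁻¹
      rw [inv_inv] at this
      exact ⟨t⁻¹ * a * t, this, by simp⟩)
    (by
      rintro _ ⟨a, ha, rfl⟩ _ ⟨b, hb, rfl⟩ x
      show (QuotientGroup.mk a : G ⧸ S.A) • (QuotientGroup.mk b : G ⧸ S.A) • x =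
        (QuotientGroup.mk b : G ⧸ S.A) • (QuotientGroup.mk a : G ⧸ S.A) • x
      simp only [NSec.mk_smul]
      have h2 : a * b = (a * b * a⁻¹ * b⁻¹) * (b * a) := by group
      rw [← mul_smul, h2, mul_smul, S.triv_smul (hDA a ha b hb), mul_smul])
    (ys.map fun y => (QuotientGroup.mk ((cg t n)^[s] y) : G ⧸ S.A)) (by rw [List.length_map, hlen])
    (by
      intro x hx
      obtain ⟨y, hy, rfl⟩ := List.mem_map.1 hx
      refine ⟨QuotientGroup.mk' S.A y, ⟨y, hys y hy, rfl⟩, ?_⟩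
      exact map_iterate_cg (QuotientGroup.mk' S.A) t n s y)
    (NSec.cl u hu)
  obtain ⟨h2, h3⟩ := foldr_cl S (ys.map fun y => (cg t n)^[s] y) hu
  rw [List.map_map] at h3
  have h4 := h3.trans h1
  rw [NSec.cl_eq_zero, hB, Subgroup.mem_bot, List.foldr_map] at h4
  exact h4

/-- Law (B) with several parameters. -/
theorem lawB_aux (hX : ∀ p : ℕ, p.Prime → ¬ Sat L (X p))
    (hS : ∀ p q : ℕ, p.Prime → q.Prime → p ≠ q → ¬ Sat L (S p q)) : ∃ n s K : ℕ, 1 ≤ n ∧
    ∀ (G : Type u) [Group G], Sat L G → derivedSeries G 3 = ⊥ →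
      ∀ t : G, ∀ u ∈ derivedSeries G 2, ∀ ys : List G, (∀ y ∈ ys, y ∈ derivedSeries G 1) →
        ys.length = K → ys.foldr (fun y u => ⁅(cg t n)^[s] y, u⁆) u = 1 := by
  obtain ⟨n, s, K, hn, h⟩ := propU_group.{u, u} L
    (fun p q hp hq => all_UG hX hS p q (Or.inr hp) (Or.inr hq))
  refine ⟨n, s, K, hn, ?_⟩
  intro G _ hsat h3 t u hu ys hys hlen
  refine lawB_sec (sec2 G h3) rfl (derivedSeries G 1) inferInstance ?_ ?_ t hu ys hys hlen
  · intro x hx y hy
    show _ ∈ derivedSeries G 2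
    rw [derivedSeries_succ]
    have := Subgroup.commutator_mem_commutator hx hy
    rwa [commutatorElement_def] at this
  · exact h (sec2 G h3).Mod (G ⧸ (sec2 G h3).A) ((sec2 G h3).sat_SD hsat)

theorem foldr_eng {G : Type u} [Group G] {N n₀ k s K : ℕ} (hN : N = k * n₀) (hs : s ≤ N)
    (hK : K ≤ N) {D A : Subgroup G} (hD : D.Normal) (hA : A.Normal) (t : G)
    (h : ∀ u ∈ A, ∀ ys : List G, (∀ y ∈ ys, y ∈ D) →
        ys.length = K → ys.foldr (fun y u => ⁅(cg (t ^ k) n₀)^[s] y, u⁆) u = 1)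
    {u : G} (hu : u ∈ A) (ys : List G) (hys : ∀ y ∈ ys, y ∈ D) (hlen : ys.length = N) :
    ys.foldr (fun y u => ⁅eng N t y, u⁆) u = 1 := by
  -- the first `K` entries suffice
  obtain ⟨as, bs, rfl, has⟩ : ∃ as bs : List G, ys = as ++ bs ∧ as.length = K :=
    ⟨ys.take K, ys.drop K, (List.take_append_drop K ys).symm, by
      rw [List.length_take, hlen, min_eq_left hK]⟩
  rw [List.foldr_append]
  have hbs : ∀ bs : List G, bs.foldr (fun y u => ⁅eng N t y, u⁆) u ∈ A := by
    intro bs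
    induction bs with
    | nil => exact hu
    | cons b bs ih =>
      rw [List.foldr_cons, commutatorElement_def]
      exact mul_mem (hA.conj_mem _ ih _) (inv_mem ih)
  have h1 := h _ (hbs bs) (as.map fun y => (cg (t ^ k) n₀)^[N - s] y)
    (by
      intro y hy
      obtain ⟨z, hz, rfl⟩ := List.mem_map.1 hy
      exact iterate_cg_mem hD _ _ _ (hys z (List.mem_append_left _ hz)))
    (by rw [List.length_map, has])
  rw [List.foldr_map] at h1
  rw [← h1]
  congr 1
  funext y u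
  rw [eng_eq hN hs]

/-- The laws (A) and (B) with a single parameter. -/
theorem laws_of (hX : ∀ p : ℕ, p.Prime → ¬ Sat L (X p))
    (hS : ∀ p q : ℕ, p.Prime → q.Prime → p ≠ q → ¬ Sat L (S p q)) : ∃ n : ℕ, 1 ≤ n ∧
    (∀ (G : Type u) [Group G], Sat L G → (∀ a ∈ derivedSeries G 2, ∀ g : G, a * g = g * a) →
      LawA n G) ∧
    (∀ (G : Type u) [Group G], Sat L G → derivedSeries G 3 = ⊥ → LawB n G) := by
  obtain ⟨n₁, r, hn₁, hA⟩ := lawA_aux.{u} hX
  obtain ⟨n₂, s, K, hn₂, hB⟩ := lawB_aux.{u} hX hS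
  have hn : 1 ≤ n₁ * n₂ * (r + s + K + 1) :=
    Nat.one_le_iff_ne_zero.2 (mul_ne_zero (mul_ne_zero (by omega) (by omega)) (by omega))
  have hle : r + s + K + 1 ≤ n₁ * n₂ * (r + s + K + 1) :=
    Nat.le_mul_of_pos_left _ (Nat.mul_pos hn₁ hn₂)
  refine ⟨n₁ * n₂ * (r + s + K + 1), hn, ?_, ?_⟩
  · intro G _ hsat hcen t x hx y hy
    rw [eng_eq (k := n₂ * (r + s + K + 1)) (n₀ := n₁) (by ring) (r := r) (by omega)]
    exact hA G hsat hcen _ x hx _ (iterate_cg_mem inferInstance _ _ _ hy)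
  · intro G _ hsat h3 t u hu ys hys hlen
    exact foldr_eng (k := n₁ * (r + s + K + 1)) (n₀ := n₂) (s := s) (K := K) (by ring) (by omega)
      (by omega) (D := derivedSeries G 1) (A := derivedSeries G 2) inferInstance inferInstance t
      (fun u hu ys hys hl => hB G hsat h3 _ u hu ys hys hl) hu ys hys hlen

end Pool.Agent.FGRF
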