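import Mathlib
import Pool.Agent.Lib_helper35.FGRF.Laws

/-!
# Transfer along isomorphisms
-/

set_option autoImplicit false

namespace Pool.Agent.FGRF

universe u v

open scoped commutatorElement

variable {L : Set (FreeGroup ℕ)} {G : Type u} [Group G] {H : Type v} [Group H]

theorem fg_transfer (e : G ≃* H) (h : Group.FG G) : Group.FG H :=
  Group.fg_of_surjective (f := e.toMonoidHom) e.surjective

theorem rf_transfer (e : G ≃* H) (h : Group.ResiduallyFinite G) : Group.ResiduallyFinite H := by
  rw [Group.residuallyFinite_iff_exists_finiteIndex] at h ⊢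
  intro g hg
  obtain ⟨K, hK, hgK⟩ := h (e.symm g) (by simpa using hg)
  refine ⟨K.comap e.symm.toMonoidHom, ⟨?_⟩, hgK⟩
  rw [Subgroup.index_comap_of_surjective _ e.symm.surjective]
  exact hK.index_ne_zero

theorem sat_transfer (e : G ≃* H) (h : Sat L G) : Sat L H :=
  h.of_surjective e.toMonoidHom e.surjective

theorem derived_transfer (e : G ≃* H) (n : ℕ) {x : G} (hx : x ∈ derivedSeries G n) :
    e x ∈ derivedSeries H n :=
  map_derivedSeries_le_derivedSeries e.toMonoidHom n ⟨x, hx, rfl⟩

theorem derived_bot_transfer (e : G ≃* H) (n : ℕ) (h : derivedSeries G n = ⊥) :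
    derivedSeries H n = ⊥ := by
  rw [eq_bot_iff]
  intro x hx
  have h1 := derived_transfer e.symm n hx
  rw [h, Subgroup.mem_bot] at h1
  simpa using h1

theorem eng_map (e : G ≃* H) (n r : ℕ) (t y : G) :
    e ((fun z => ⁅t ^ n, z⁆)^[r] y) = (fun z => ⁅(e t) ^ n, z⁆)^[r] (e y) := by
  induction r generalizing y with
  | zero => rfl
  | succ r ih =>
    rw [Function.iterate_succ_apply, Function.iterate_succ_apply, ih]
    congr 1
    rw [commutatorElement_def, commutatorElement_def]
    simp

theorem cbm_transfer (e : G ≃* H) (h : ∀ a ∈ derivedSeries G 2, ∀ g : G, a * g = g * a) :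
    ∀ a ∈ derivedSeries H 2, ∀ g : H, a * g = g * a := by
  intro a ha g
  have h1 := h _ (derived_transfer e.symm 2 ha) (e.symm g)
  rw [← map_mul, ← map_mul] at h1
  exact e.symm.injective h1

theorem lawA_transfer (e : G ≃* H) (n : ℕ) (h : LawA n G) : LawA n H := by
  intro t x hx y hy
  have h1 := h (e.symm t) _ (derived_transfer e.symm 1 hx) _ (derived_transfer e.symm 1 hy)
  have h2 := congrArg e h1
  rw [map_one, commutatorElement_def, map_mul, map_mul, map_mul, map_inv, map_inv, eng, eng_map,
    e.apply_symm_apply, e.apply_symm_apply, e.apply_symm_apply] at h2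
  rw [commutatorElement_def]
  exact h2

theorem foldr_transfer (e : G ≃* H) (n : ℕ) (t : G) (ys : List G) (u : G) :
    e (ys.foldr (fun y u => ⁅eng n t y, u⁆) u) =
      (ys.map e).foldr (fun y u => ⁅eng n (e t) y, u⁆) (e u) := by
  induction ys with
  | nil => rfl
  | cons y ys ih =>
    rw [List.foldr_cons, List.map_cons, List.foldr_cons, ← ih, commutatorElement_def,
      commutatorElement_def]
    have h := eng_map e n n t y
    rw [map_mul, map_mul, map_mul, map_inv, map_inv]
    rw [eng, eng, h]

theorem lawB_transfer (e : G ≃* H) (n : ℕ) (h : LawB n G) : LawB n H := by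
  intro t u hu ys hys hlen
  have h1 := h (e.symm t) _ (derived_transfer e.symm 2 hu) (ys.map e.symm) (by
    intro y hy
    obtain ⟨z, hz, rfl⟩ := List.mem_map.1 hy
    exact derived_transfer e.symm 1 (hys z hz)) (by rw [List.length_map, hlen])
  rw [← foldr_transfer] at h1
  simpa using h1

end Pool.Agent.FGRF
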