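import Mathlib
import Pool.Agent.Lib_helper35.FGRF.Transfer
import Pool.Agent.Lib_helper46.FGRF.LawGroups

/-!
# `X p` violates law (A), and `S p q` violates law (B)
-/

set_option autoImplicit false

namespace Pool.Agent.FGRF

open scoped commutatorElement

universe u

theorem lawB_replicate {Γ : Type u} [Group Γ] (K : Subgroup Γ) (n : ℕ) (h : LawB n K) (t u y : K)
    (hu : u ∈ derivedSeries K 2) (hy : y ∈ derivedSeries K 1) :
    (List.replicate n y).foldr (fun y u => ⁅(fun z => ⁅t ^ n, z⁆)^[n] y, u⁆) u = 1 :=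
  h t u hu _ (fun z hz => by rwa [List.eq_of_mem_replicate hz]) List.length_replicate

set_option maxRecDepth 20000 in
theorem S_not_LawB (p q : ℕ) (hp : p.Prime) (hq : q.Prime) (hpq : p ≠ q) (n : ℕ) (hn : 1 ≤ n) :
    ¬ LawB n (S p q) := by
  intro h
  obtain ⟨t, u, hu, y, hy, hne⟩ := S_not_lawB p q hp hq hpq n hn
  have h1 := lawB_replicate _ n h t u y hu hy
  exact hne h1

theorem X_not_LawA (p : ℕ) (hp : p.Prime) (n : ℕ) (hn : 1 ≤ n) : ¬ LawA n (X p) := by
  intro h
  obtain ⟨t, x, hx, y, hy, hne⟩ := X_not_lawA p hp n hn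
  exact hne (h t x hx y hy)

end Pool.Agent.FGRF
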